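import Mathlib

set_option backward.isDefEq.respectTransparency false

namespace Helper78Excl

open Finset

/-- The box `[-n, n]`. -/
noncomputable def box (n : ℕ) : Finset ℤ := Finset.Icc (-(n : ℤ)) (n : ℤ)

lemma mem_box {n : ℕ} {x : ℤ} : x ∈ box n ↔ -(n : ℤ) ≤ x ∧ x ≤ n := by
  simp [box]

lemma mem_box_abs {n : ℕ} {x : ℤ} : x ∈ box n ↔ |x| ≤ n := by
  rw [mem_box, abs_le]

lemma box_mono {m n : ℕ} (h : m ≤ n) : box m ⊆ box n := by
  intro x hx
  rw [mem_box] at *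
  omega

lemma card_box (n : ℕ) : (box n).card = 2 * n + 1 := by
  simp [box]
  omega

/-- `f` depends only on the coordinates in the box `[-n, n]`. -/
def Dep {S : Type} (n : ℕ) (f : (ℤ → S) → ℝ) : Prop :=
  ∀ η ζ : ℤ → S, (∀ x ∈ box n, η x = ζ x) → f η = f ζ

lemma Dep.mono {S : Type} {m n : ℕ} (h : m ≤ n) {f : (ℤ → S) → ℝ} (hf : Dep m f) : Dep n f :=
  fun η ζ h' => hf η ζ (fun x hx => h' x (box_mono h hx))

/-- The algebra of bounded cylinder functions. -/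
def Cyl (S : Type) : Subalgebra ℝ ((ℤ → S) → ℝ) where
  carrier := {f | (∃ n : ℕ, Dep n f) ∧ ∃ C : ℝ, ∀ η, |f η| ≤ C}
  mul_mem' := by
    rintro f g ⟨⟨n, hn⟩, C, hC⟩ ⟨⟨m, hm⟩, D, hD⟩
    refine ⟨⟨max n m, fun η ζ h => ?_⟩, C * D, fun η => ?_⟩
    · have h1 := (hn.mono (le_max_left n m)) η ζ h
      have h2 := (hm.mono (le_max_right n m)) η ζ h
      simp [h1, h2]
    · rw [Pi.mul_apply, abs_mul]
      exact mul_le_mul (hC η) (hD η) (abs_nonneg _) ((abs_nonneg _).trans (hC η))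
  add_mem' := by
    rintro f g ⟨⟨n, hn⟩, C, hC⟩ ⟨⟨m, hm⟩, D, hD⟩
    refine ⟨⟨max n m, fun η ζ h => ?_⟩, C + D, fun η => ?_⟩
    · have h1 := (hn.mono (le_max_left n m)) η ζ h
      have h2 := (hm.mono (le_max_right n m)) η ζ h
      simp [h1, h2]
    · exact (abs_add_le _ _).trans (add_le_add (hC η) (hD η))
  algebraMap_mem' := by
    intro r
    refine ⟨⟨0, fun η ζ h => ?_⟩, |r|, fun η => ?_⟩
    · rfl
    · exact le_rfl

lemma Cyl.dep {S : Type} (f : Cyl S) : ∃ n : ℕ, Dep n f.1 := f.2.1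

/-- a bound for a cylinder function -/
noncomputable def bd {S : Type} (f : Cyl S) : ℝ := |Classical.choose f.2.2|

lemma bd_nonneg {S : Type} (f : Cyl S) : 0 ≤ bd f := abs_nonneg _

lemma abs_le_bd {S : Type} (f : Cyl S) (η : ℤ → S) : |f.1 η| ≤ bd f :=
  (Classical.choose_spec f.2.2 η).trans (le_abs_self _)

/-- Local maps between configuration spaces. -/
def Loc {S S' : Type} (φ : (ℤ → S') → (ℤ → S)) : Prop :=
  ∀ n : ℕ, ∃ m : ℕ, ∀ η ζ : ℤ → S', (∀ x ∈ box m, η x = ζ x) → ∀ x ∈ box n, φ η x = φ ζ x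

/-- Pull back of cylinder functions along a local map. -/
def pull {S S' : Type} (φ : (ℤ → S') → (ℤ → S)) (hφ : Loc φ) : Cyl S →ₐ[ℝ] Cyl S' where
  toFun f := ⟨fun η => f.1 (φ η), by
    obtain ⟨n, hn⟩ := f.2.1
    obtain ⟨C, hC⟩ := f.2.2
    obtain ⟨m, hm⟩ := hφ n
    exact ⟨⟨m, fun η ζ h => hn _ _ (hm η ζ h)⟩, C, fun η => hC _⟩⟩
  map_one' := rfl
  map_mul' _ _ := rfl
  map_zero' := rfl
  map_add' _ _ := rfl
  commutes' _ := rfl

@[simp] lemma pull_apply {S S' : Type} (φ : (ℤ → S') → (ℤ → S)) (hφ : Loc φ) (f : Cyl S)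
    (η : ℤ → S') : (pull φ hφ f).1 η = f.1 (φ η) := rfl

lemma Cyl.ext' {S : Type} {f g : Cyl S} (h : ∀ η, f.1 η = g.1 η) : f = g :=
  Subtype.ext (funext h)

section
variable {S : Type} [Lattice S]

/-- The elementary exclusion move from `x` to `y`, on a general lattice of spins. -/
def T (x y : ℤ) (η : ℤ → S) : ℤ → S :=
  Function.update (Function.update η x (η x ⊓ η y)) y (η x ⊔ η y)

lemma T_of_ne {x y z : ℤ} (h1 : z ≠ x) (h2 : z ≠ y) (η : ℤ → S) : T x y η z = η z := by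
  simp [T, h1, h2]

lemma T_right (x y : ℤ) (η : ℤ → S) : T x y η y = η x ⊔ η y := by
  simp [T]

lemma T_left {x y : ℤ} (h : x ≠ y) (η : ℤ → S) : T x y η x = η x ⊓ η y := by
  simp [T, h]

lemma T_self (x : ℤ) (η : ℤ → S) : T x x η = η := by
  funext z
  by_cases h : z = x
  · subst h; simp [T]
  · simp [T, h]

lemma T_mono (x y : ℤ) {η ζ : ℤ → S} (h : η ≤ ζ) : T x y η ≤ T x y ζ := by
  intro z
  by_cases hxy : x = y
  · subst hxy; rw [T_self, T_self]; exact h z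
  by_cases h1 : z = y
  · subst h1; rw [T_right, T_right]; exact sup_le_sup (h _) (h _)
  by_cases h2 : z = x
  · subst h2; rw [T_left hxy, T_left hxy]; exact inf_le_inf (h _) (h _)
  · rw [T_of_ne h2 h1, T_of_ne h2 h1]; exact h z

lemma T_agree {x y : ℤ} {A : Set ℤ} (hx : x ∈ A) (hy : y ∈ A) {η ζ : ℤ → S}
    (h : ∀ z ∈ A, η z = ζ z) : ∀ z ∈ A, T x y η z = T x y ζ z := by
  intro z hz
  by_cases hxy : x = y
  · subst hxy; rw [T_self, T_self]; exact h z hz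
  by_cases h1 : z = y
  · subst h1; rw [T_right, T_right, h _ hx, h _ hy]
  by_cases h2 : z = x
  · subst h2; rw [T_left hxy, T_left hxy, h _ hx, h _ hy]
  · rw [T_of_ne h2 h1, T_of_ne h2 h1]; exact h z hz

lemma exists_box (x : ℤ) : ∃ n : ℕ, x ∈ box n :=
  ⟨x.natAbs, by rw [mem_box]; omega⟩

lemma T_loc (x y : ℤ) : Loc (T x y : (ℤ → S) → (ℤ → S)) := by
  intro n
  refine ⟨max n (max x.natAbs y.natAbs), fun η ζ h z hz => ?_⟩
  refine T_agree (A := (box (max n (max x.natAbs y.natAbs)) : Set ℤ)) ?_ ?_ ?_ z ?_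
  · simp only [Finset.mem_coe, mem_box]; omega
  · simp only [Finset.mem_coe, mem_box]; omega
  · intro w hw; exact h w hw
  · exact box_mono (le_max_left _ _) hz

/-- Composition with the elementary move. -/
def Tc (x y : ℤ) : Cyl S →ₐ[ℝ] Cyl S := pull (T x y) (T_loc x y)

@[simp] lemma Tc_apply (x y : ℤ) (f : Cyl S) (η : ℤ → S) : (Tc x y f).1 η = f.1 (T x y η) := rfl

lemma Tc_self (x : ℤ) (f : Cyl S) : Tc x x f = f := by
  apply Cyl.ext'; intro η; rw [Tc_apply, T_self]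

lemma Tc_out {n : ℕ} {f : Cyl S} (hf : Dep n f.1) {x y : ℤ} (hx : x ∉ box n) (hy : y ∉ box n) :
    Tc x y f = f := by
  apply Cyl.ext'; intro η
  rw [Tc_apply]
  apply hf
  intro z hz
  apply T_of_ne
  · rintro rfl; exact hx hz
  · rintro rfl; exact hy hz

lemma Tc_dep {n : ℕ} {f : Cyl S} (hf : Dep n f.1) {x y : ℤ} (hx : x ∈ box n) (hy : y ∈ box n) :
    Dep n (Tc x y f).1 := by
  intro η ζ h
  rw [Tc_apply, Tc_apply]
  apply hf
  exact T_agree (A := (box n : Set ℤ)) hx hy (fun z hz => h z hz)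

end

/-- positive linear functionals on cylinder functions -/
def Pos {S : Type} (Φ : Cyl S →ₗ[ℝ] ℝ) : Prop := ∀ f : Cyl S, (∀ η, 0 ≤ f.1 η) → 0 ≤ Φ f

lemma Pos.mono {S : Type} {Φ : Cyl S →ₗ[ℝ] ℝ} (h : Pos Φ) {f g : Cyl S}
    (hfg : ∀ η, f.1 η ≤ g.1 η) : Φ f ≤ Φ g := by
  have := h (g - f) (fun η => by
    have := hfg η
    simpa using this)
  rw [map_sub] at this
  linarith

lemma Pos.abs_le {S : Type} {Φ : Cyl S →ₗ[ℝ] ℝ} (h : Pos Φ) {f g : Cyl S}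
    (hfg : ∀ η, |f.1 η| ≤ g.1 η) : |Φ f| ≤ Φ g := by
  rw [_root_.abs_le]
  constructor
  · have := h.mono (f := -g) (g := f) (fun η => by
      have := (_root_.abs_le.1 (hfg η)).1
      simpa using this)
    rw [map_neg] at this
    exact this
  · exact h.mono (fun η => (_root_.abs_le.1 (hfg η)).2)

lemma Pos.abs_le_const {S : Type} {Φ : Cyl S →ₗ[ℝ] ℝ} (h : Pos Φ) {f : Cyl S} {C : ℝ}
    (hf : ∀ η, |f.1 η| ≤ C) : |Φ f| ≤ C * Φ 1 := by
  have h1 := h.abs_le (f := f) (g := C • (1 : Cyl S)) (fun η => by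
    simpa using hf η)
  rwa [map_smul, smul_eq_mul] at h1

/-- a state: positive and normalised -/
structure IsSt {S : Type} (Φ : Cyl S →ₗ[ℝ] ℝ) : Prop where
  pos : Pos Φ
  one : Φ 1 = 1

lemma IsSt.abs_le_const {S : Type} {Φ : Cyl S →ₗ[ℝ] ℝ} (h : IsSt Φ) {f : Cyl S} {C : ℝ}
    (hf : ∀ η, |f.1 η| ≤ C) : |Φ f| ≤ C := by
  have := h.pos.abs_le_const hf
  rwa [h.one, mul_one] at this

lemma IsSt.le_const {S : Type} {Φ : Cyl S →ₗ[ℝ] ℝ} (h : IsSt Φ) {f : Cyl S} {C : ℝ}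
    (hf : ∀ η, f.1 η ≤ C) : Φ f ≤ C := by
  have := h.pos.mono (f := f) (g := C • (1 : Cyl S)) (fun η => by simpa using hf η)
  rwa [map_smul, h.one, smul_eq_mul, mul_one] at this

lemma IsSt.const_le {S : Type} {Φ : Cyl S →ₗ[ℝ] ℝ} (h : IsSt Φ) {f : Cyl S} {C : ℝ}
    (hf : ∀ η, C ≤ f.1 η) : C ≤ Φ f := by
  have := h.pos.mono (g := f) (f := C • (1 : Cyl S)) (fun η => by simpa using hf η)
  rwa [map_smul, h.one, smul_eq_mul, mul_one] at this

/-- Stationarity of a functional for the exclusion dynamics with kernel `p`. -/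
def Stat {S : Type} [Lattice S] (p : ℤ → ℝ) (Φ : Cyl S →ₗ[ℝ] ℝ) : Prop :=
  ∀ f : Cyl S, ∑' xy : ℤ × ℤ, p (xy.2 - xy.1) * Φ (Tc xy.1 xy.2 f - f) = 0

/-- Assumptions on the kernel. -/
structure Ker (p : ℤ → ℝ) : Prop where
  nonneg : ∀ k, 0 ≤ p k
  sum : HasSum p 1
  mom : Summable (fun k : ℤ => |(k : ℝ)| * p k)

end Helper78Excl
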