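import Pool.Agent.Helper78_Excl.Kernel

set_option backward.isDefEq.respectTransparency false

namespace Helper78Excl

open Finset Filter Topology

section
variable {S : Type} [Lattice S]

/-- The generator restricted to the box. -/
noncomputable def Lop (p : ℤ → ℝ) (n : ℕ) : Module.End ℝ (Cyl S) :=
  ∑ x ∈ box n, ∑ y ∈ box n, p (y - x) • ((Tc x y).toLinearMap - 1)

/-- One step of the uniformised chain. -/
noncomputable def Q (p : ℤ → ℝ) (n : ℕ) : Module.End ℝ (Cyl S) :=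
  1 + ((2 * (n : ℝ) + 1)⁻¹) • Lop p n

lemma Lop_map (p : ℤ → ℝ) (n : ℕ) (f : Cyl S) :
    Lop p n f = ∑ x ∈ box n, ∑ y ∈ box n, p (y - x) • (Tc x y f - f) := by
  simp only [Lop, LinearMap.sum_apply, LinearMap.smul_apply, LinearMap.sub_apply,
    AlgHom.toLinearMap_apply, Module.End.one_apply]

omit [Lattice S] in
lemma coe_sum_apply {ι : Type} (s : Finset ι) (F : ι → Cyl S) (η : ℤ → S) :
    (∑ i ∈ s, F i : Cyl S).1 η = ∑ i ∈ s, (F i).1 η := by
  classical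
  induction s using Finset.induction_on with
  | empty => simp
  | insert a s ha ih =>
    rw [Finset.sum_insert ha, Finset.sum_insert ha, ← ih]
    rfl

lemma Lop_apply (p : ℤ → ℝ) (n : ℕ) (f : Cyl S) (η : ℤ → S) :
    (Lop p n f).1 η = ∑ x ∈ box n, ∑ y ∈ box n, p (y - x) * (f.1 (T x y η) - f.1 η) := by
  rw [Lop_map, coe_sum_apply]
  refine Finset.sum_congr rfl (fun x _ => ?_)
  rw [coe_sum_apply]
  refine Finset.sum_congr rfl (fun y _ => ?_)
  rfl

lemma Q_apply (p : ℤ → ℝ) (n : ℕ) (f : Cyl S) (η : ℤ → S) :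
    (Q p n f).1 η = f.1 η + (2 * (n : ℝ) + 1)⁻¹ *
      ∑ x ∈ box n, ∑ y ∈ box n, p (y - x) * (f.1 (T x y η) - f.1 η) := by
  rw [← Lop_apply]
  rfl

lemma Lop_eq (p : ℤ → ℝ) (n : ℕ) (f : Cyl S) :
    Lop p n f = (2 * (n : ℝ) + 1) • (Q p n f - f) := by
  have h : (2 * (n : ℝ) + 1) ≠ 0 := by positivity
  have h1 : Q p n f = f + ((2 * (n : ℝ) + 1)⁻¹) • Lop p n f := rfl
  rw [h1, add_sub_cancel_left, smul_smul, mul_inv_cancel₀ h, one_smul]

lemma total_le {p : ℤ → ℝ} (hp : Ker p) (n : ℕ) :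
    ∑ x ∈ box n, ∑ y ∈ box n, p (y - x) ≤ 2 * (n : ℝ) + 1 := by
  calc ∑ x ∈ box n, ∑ y ∈ box n, p (y - x) ≤ ∑ x ∈ box n, (1 : ℝ) :=
        Finset.sum_le_sum (fun x _ => box_sum_le hp _ _)
    _ = 2 * (n : ℝ) + 1 := by
        rw [Finset.sum_const, card_box, nsmul_eq_mul, mul_one]; push_cast; ring

/-- The averaging principle for one step: a bound for `f η - f ζ` propagates. -/
lemma Q_sub_le {p : ℤ → ℝ} (hp : Ker p) {n : ℕ} {f : Cyl S} {η ζ : ℤ → S} {a : ℝ}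
    {b : ℤ → ℤ → ℝ}
    (h0 : f.1 η - f.1 ζ ≤ a)
    (h1 : ∀ x ∈ box n, ∀ y ∈ box n, f.1 (T x y η) - f.1 (T x y ζ) ≤ a + b x y) :
    (Q p n f).1 η - (Q p n f).1 ζ ≤ a + (2 * (n : ℝ) + 1)⁻¹ *
      ∑ x ∈ box n, ∑ y ∈ box n, p (y - x) * b x y := by
  rw [Q_apply, Q_apply]
  have hc : (0 : ℝ) < 2 * (n : ℝ) + 1 := by positivity
  have hS : ∑ x ∈ box n, ∑ y ∈ box n, p (y - x) * (f.1 (T x y η) - f.1 η)
      - ∑ x ∈ box n, ∑ y ∈ box n, p (y - x) * (f.1 (T x y ζ) - f.1 ζ)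
      ≤ (∑ x ∈ box n, ∑ y ∈ box n, p (y - x)) * (a - (f.1 η - f.1 ζ))
        + ∑ x ∈ box n, ∑ y ∈ box n, p (y - x) * b x y := by
    rw [← Finset.sum_sub_distrib, Finset.sum_mul, ← Finset.sum_add_distrib]
    refine Finset.sum_le_sum (fun x hx => ?_)
    rw [← Finset.sum_sub_distrib, Finset.sum_mul, ← Finset.sum_add_distrib]
    refine Finset.sum_le_sum (fun y hy => ?_)
    have := h1 x hx y hy
    have hpn := hp.nonneg (y - x)
    nlinarith
  have hT := total_le hp n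
  have h2 : (∑ x ∈ box n, ∑ y ∈ box n, p (y - x)) * (a - (f.1 η - f.1 ζ))
      ≤ (2 * (n : ℝ) + 1) * (a - (f.1 η - f.1 ζ)) :=
    mul_le_mul_of_nonneg_right hT (by linarith)
  have h3 : (2 * (n : ℝ) + 1)⁻¹ * (∑ x ∈ box n, ∑ y ∈ box n, p (y - x) * (f.1 (T x y η) - f.1 η)
      - ∑ x ∈ box n, ∑ y ∈ box n, p (y - x) * (f.1 (T x y ζ) - f.1 ζ))
      ≤ (2 * (n : ℝ) + 1)⁻¹ * ((2 * (n : ℝ) + 1) * (a - (f.1 η - f.1 ζ))
        + ∑ x ∈ box n, ∑ y ∈ box n, p (y - x) * b x y) :=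
    mul_le_mul_of_nonneg_left (by linarith) (by positivity)
  rw [mul_sub, mul_add, ← mul_assoc (2 * (n : ℝ) + 1)⁻¹ (2 * (n : ℝ) + 1), inv_mul_cancel₀ hc.ne',
    one_mul] at h3
  linarith

/-- The averaging principle for one step: an upper bound propagates. -/
lemma Q_le {p : ℤ → ℝ} (hp : Ker p) {n : ℕ} {f : Cyl S} {a : ℝ}
    (h0 : ∀ η, f.1 η ≤ a) (η : ℤ → S) : (Q p n f).1 η ≤ a := by
  rw [Q_apply]
  have hc : (0 : ℝ) < 2 * (n : ℝ) + 1 := by positivity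
  have hS : ∑ x ∈ box n, ∑ y ∈ box n, p (y - x) * (f.1 (T x y η) - f.1 η)
      ≤ (∑ x ∈ box n, ∑ y ∈ box n, p (y - x)) * (a - f.1 η) := by
    rw [Finset.sum_mul]
    refine Finset.sum_le_sum (fun x hx => ?_)
    rw [Finset.sum_mul]
    refine Finset.sum_le_sum (fun y hy => ?_)
    have := h0 (T x y η)
    have hpn := hp.nonneg (y - x)
    nlinarith
  have hT := total_le hp n
  have h2 : (∑ x ∈ box n, ∑ y ∈ box n, p (y - x)) * (a - f.1 η)
      ≤ (2 * (n : ℝ) + 1) * (a - f.1 η) :=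
    mul_le_mul_of_nonneg_right hT (by linarith [h0 η])
  have h3 : (2 * (n : ℝ) + 1)⁻¹ * (∑ x ∈ box n, ∑ y ∈ box n, p (y - x) *
      (f.1 (T x y η) - f.1 η)) ≤ (2 * (n : ℝ) + 1)⁻¹ * ((2 * (n : ℝ) + 1) * (a - f.1 η)) :=
    mul_le_mul_of_nonneg_left (by linarith) (by positivity)
  rw [← mul_assoc, inv_mul_cancel₀ hc.ne', one_mul] at h3
  linarith

lemma Q_one (p : ℤ → ℝ) (n : ℕ) : Q p n (1 : Cyl S) = 1 := by
  apply Cyl.ext'; intro η
  rw [Q_apply]
  simp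

lemma Q_dep {p : ℤ → ℝ} {n : ℕ} {f : Cyl S} (hf : Dep n f.1) : Dep n (Q p n f).1 := by
  intro η ζ h
  rw [Q_apply, Q_apply, hf η ζ h]
  congr 2
  refine Finset.sum_congr rfl (fun x hx => Finset.sum_congr rfl (fun y hy => ?_))
  rw [hf (T x y η) (T x y ζ) (T_agree (A := (box n : Set ℤ)) hx hy (fun z hz => h z hz))]

lemma Qj_dep {p : ℤ → ℝ} {n : ℕ} {f : Cyl S} (hf : Dep n f.1) (j : ℕ) :
    Dep n (((Q p n) ^ j) f).1 := by
  induction j with
  | zero => simpa using hf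
  | succ j ih => rw [pow_succ', Module.End.mul_apply]; exact Q_dep ih

lemma Qj_le {p : ℤ → ℝ} (hp : Ker p) {n : ℕ} {f : Cyl S} {a : ℝ}
    (h0 : ∀ η, f.1 η ≤ a) (j : ℕ) (η : ℤ → S) : (((Q p n) ^ j) f).1 η ≤ a := by
  induction j generalizing η with
  | zero => simpa using h0 η
  | succ j ih => rw [pow_succ', Module.End.mul_apply]; exact Q_le hp ih η

lemma Qj_ge {p : ℤ → ℝ} (hp : Ker p) {n : ℕ} {f : Cyl S} {a : ℝ}
    (h0 : ∀ η, a ≤ f.1 η) (j : ℕ) (η : ℤ → S) : a ≤ (((Q p n) ^ j) f).1 η := by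
  have := Qj_le hp (n := n) (f := -f) (a := -a) (fun η => by
    have := h0 η
    change -(f.1 η) ≤ -a
    linarith) j η
  rw [map_neg] at this
  change -((((Q p n) ^ j) f).1 η) ≤ -a at this
  linarith

lemma Qj_abs {p : ℤ → ℝ} (hp : Ker p) {n : ℕ} {f : Cyl S} {a : ℝ}
    (h0 : ∀ η, |f.1 η| ≤ a) (j : ℕ) (η : ℤ → S) : |(((Q p n) ^ j) f).1 η| ≤ a := by
  rw [abs_le]
  exact ⟨Qj_ge hp (fun η => (abs_le.1 (h0 η)).1) j η,
    Qj_le hp (fun η => (abs_le.1 (h0 η)).2) j η⟩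

lemma Q_mono {p : ℤ → ℝ} (hp : Ker p) {n : ℕ} {f : Cyl S}
    (h0 : ∀ η ζ, η ≤ ζ → f.1 η ≤ f.1 ζ) (η ζ : ℤ → S) (h : η ≤ ζ) :
    (Q p n f).1 η ≤ (Q p n f).1 ζ := by
  have := Q_sub_le hp (n := n) (f := f) (η := η) (ζ := ζ) (a := 0) (b := fun _ _ => 0)
    (by linarith [h0 η ζ h])
    (fun x _ y _ => by linarith [h0 _ _ (T_mono x y h)])
  simp only [mul_zero, Finset.sum_const_zero, add_zero] at this
  linarith

lemma Qj_mono {p : ℤ → ℝ} (hp : Ker p) {n : ℕ} {f : Cyl S}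
    (h0 : ∀ η ζ, η ≤ ζ → f.1 η ≤ f.1 ζ) (j : ℕ) (η ζ : ℤ → S) (h : η ≤ ζ) :
    (((Q p n) ^ j) f).1 η ≤ (((Q p n) ^ j) f).1 ζ := by
  induction j generalizing η ζ with
  | zero => simpa using h0 η ζ h
  | succ j ih => rw [pow_succ', Module.End.mul_apply]; exact Q_mono hp ih η ζ h

/-- Cesaro average. -/
noncomputable def Ces (p : ℤ → ℝ) (n J : ℕ) : Module.End ℝ (Cyl S) :=
  ((J : ℝ)⁻¹) • ∑ j ∈ Finset.range J, (Q p n) ^ j

lemma Ces_map (p : ℤ → ℝ) (n J : ℕ) (f : Cyl S) :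
    Ces p n J f = ((J : ℝ)⁻¹) • ∑ j ∈ Finset.range J, ((Q p n) ^ j) f := by
  simp only [Ces, LinearMap.smul_apply, LinearMap.sum_apply]

lemma Ces_apply (p : ℤ → ℝ) (n J : ℕ) (f : Cyl S) (η : ℤ → S) :
    (Ces p n J f).1 η = (J : ℝ)⁻¹ * ∑ j ∈ Finset.range J, (((Q p n) ^ j) f).1 η := by
  rw [Ces_map, ← coe_sum_apply]
  rfl

lemma avg_le {J : ℕ} (hJ : 0 < J) {a : ℕ → ℝ} {c : ℝ} (h : ∀ j < J, a j ≤ c) :
    (J : ℝ)⁻¹ * ∑ j ∈ Finset.range J, a j ≤ c := by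
  have h1 : ∑ j ∈ Finset.range J, a j ≤ ∑ j ∈ Finset.range J, c :=
    Finset.sum_le_sum (fun j hj => h j (Finset.mem_range.1 hj))
  rw [Finset.sum_const, Finset.card_range, nsmul_eq_mul] at h1
  have hJ' : (0 : ℝ) < J := by exact_mod_cast hJ
  rw [inv_mul_le_iff₀ hJ']
  exact h1

lemma le_avg {J : ℕ} (hJ : 0 < J) {a : ℕ → ℝ} {c : ℝ} (h : ∀ j < J, c ≤ a j) :
    c ≤ (J : ℝ)⁻¹ * ∑ j ∈ Finset.range J, a j := by
  have h1 : ∑ j ∈ Finset.range J, c ≤ ∑ j ∈ Finset.range J, a j :=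
    Finset.sum_le_sum (fun j hj => h j (Finset.mem_range.1 hj))
  rw [Finset.sum_const, Finset.card_range, nsmul_eq_mul] at h1
  have hJ' : (0 : ℝ) < J := by exact_mod_cast hJ
  rw [le_inv_mul_iff₀ hJ']
  exact h1

lemma avg_abs_sub_le {J : ℕ} (hJ : 0 < J) {a b : ℕ → ℝ} {c : ℝ} (h : ∀ j < J, |a j - b j| ≤ c) :
    |(J : ℝ)⁻¹ * ∑ j ∈ Finset.range J, a j - (J : ℝ)⁻¹ * ∑ j ∈ Finset.range J, b j| ≤ c := by
  rw [← mul_sub, ← Finset.sum_sub_distrib, abs_le]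
  exact ⟨le_avg hJ (fun j hj => (abs_le.1 (h j hj)).1), avg_le hJ (fun j hj => (abs_le.1 (h j hj)).2)⟩

lemma Ces_dep {p : ℤ → ℝ} {n : ℕ} {f : Cyl S} (hf : Dep n f.1) (J : ℕ) :
    Dep n (Ces p n J f).1 := by
  intro η ζ h
  rw [Ces_apply, Ces_apply]
  congr 1
  exact Finset.sum_congr rfl (fun j _ => Qj_dep hf j η ζ h)

lemma Ces_le {p : ℤ → ℝ} (hp : Ker p) {n : ℕ} {f : Cyl S} {a : ℝ}
    (h0 : ∀ η, f.1 η ≤ a) {J : ℕ} (hJ : 0 < J) (η : ℤ → S) : (Ces p n J f).1 η ≤ a := by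
  rw [Ces_apply]
  exact avg_le hJ (fun j _ => Qj_le hp h0 j η)

lemma Ces_ge {p : ℤ → ℝ} (hp : Ker p) {n : ℕ} {f : Cyl S} {a : ℝ}
    (h0 : ∀ η, a ≤ f.1 η) {J : ℕ} (hJ : 0 < J) (η : ℤ → S) : a ≤ (Ces p n J f).1 η := by
  rw [Ces_apply]
  exact le_avg hJ (fun j _ => Qj_ge hp h0 j η)

lemma Ces_mono {p : ℤ → ℝ} (hp : Ker p) {n : ℕ} {f : Cyl S}
    (h0 : ∀ η ζ, η ≤ ζ → f.1 η ≤ f.1 ζ) (J : ℕ) (η ζ : ℤ → S) (h : η ≤ ζ) :
    (Ces p n J f).1 η ≤ (Ces p n J f).1 ζ := by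
  rw [Ces_apply, Ces_apply]
  refine mul_le_mul_of_nonneg_left ?_ (by positivity)
  exact Finset.sum_le_sum (fun j _ => Qj_mono hp h0 j η ζ h)

/-- The resolvent-type identity. -/
lemma Lop_Ces (p : ℤ → ℝ) (n J : ℕ) (f : Cyl S) :
    Lop p n (Ces p n J f) = ((2 * (n : ℝ) + 1) / J) • (((Q p n) ^ J) f - f) := by
  have h : ∑ j ∈ Finset.range J, (((Q p n) ^ (j + 1)) f - ((Q p n) ^ j) f)
      = ((Q p n) ^ J) f - f := by
    rw [Finset.sum_range_sub (fun j => ((Q p n) ^ j) f)]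
    simp
  rw [Lop_eq, Ces_map, map_smul, map_sum, ← smul_sub, ← Finset.sum_sub_distrib]
  have h2 : ∑ x ∈ Finset.range J, (Q p n (((Q p n) ^ x) f) - ((Q p n) ^ x) f)
      = ((Q p n) ^ J) f - f := by
    rw [← h]
    refine Finset.sum_congr rfl (fun j _ => ?_)
    rw [pow_succ', Module.End.mul_apply]
  rw [h2, smul_smul, div_eq_mul_inv]

/-- Commutation with equivariant local maps. -/
lemma Q_pull {S' : Type} [Lattice S'] (p : ℤ → ℝ) (n : ℕ) (φ : (ℤ → S') → (ℤ → S)) (hφ : Loc φ)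
    (hT : ∀ x y η, φ (T x y η) = T x y (φ η)) (f : Cyl S) :
    Q p n (pull φ hφ f) = pull φ hφ (Q p n f) := by
  apply Cyl.ext'; intro η
  rw [Q_apply, pull_apply, pull_apply, Q_apply]
  congr 2
  refine Finset.sum_congr rfl (fun x _ => Finset.sum_congr rfl (fun y _ => ?_))
  rw [pull_apply, hT]

lemma Qj_pull {S' : Type} [Lattice S'] (p : ℤ → ℝ) (n : ℕ) (φ : (ℤ → S') → (ℤ → S)) (hφ : Loc φ)
    (hT : ∀ x y η, φ (T x y η) = T x y (φ η)) (f : Cyl S) (j : ℕ) :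
    ((Q p n) ^ j) (pull φ hφ f) = pull φ hφ (((Q p n) ^ j) f) := by
  induction j with
  | zero => simp
  | succ j ih =>
    rw [pow_succ', Module.End.mul_apply, ih, Q_pull p n φ hφ hT, pow_succ', Module.End.mul_apply]

lemma Ces_pull {S' : Type} [Lattice S'] (p : ℤ → ℝ) (n : ℕ) (φ : (ℤ → S') → (ℤ → S)) (hφ : Loc φ)
    (hT : ∀ x y η, φ (T x y η) = T x y (φ η)) (f : Cyl S) (J : ℕ) :
    Ces p n J (pull φ hφ f) = pull φ hφ (Ces p n J f) := by
  apply Cyl.ext'; intro η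
  rw [Ces_apply, pull_apply, Ces_apply]
  congr 1
  refine Finset.sum_congr rfl (fun j _ => ?_)
  rw [Qj_pull p n φ hφ hT, pull_apply]

end

/-- Influence bounds for functions of Boolean configurations. -/
def Infl (f : (ℤ → Bool) → ℝ) (g : ℤ → ℝ) : Prop :=
  ∀ (z : ℤ) (η : ℤ → Bool) (v : Bool), |f (Function.update η z v) - f η| ≤ g z

lemma Infl.mono {f : (ℤ → Bool) → ℝ} {g g' : ℤ → ℝ} (h : Infl f g) (hg : ∀ z, g z ≤ g' z) :
    Infl f g' := fun z η v => (h z η v).trans (hg z)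

lemma T_val {x y : ℤ} (hxy : x ≠ y) (η : ℤ → Bool) (w : ℤ) :
    T x y η w = if w = y then (η x || η y) else if w = x then (η x && η y) else η w := by
  split_ifs with h1 h2
  · subst h1; rw [T_right]; rfl
  · subst h2; rw [T_left hxy]; rfl
  · exact T_of_ne h2 h1 η

lemma T_update {x y : ℤ} (z : ℤ) (η : ℤ → Bool) (v : Bool) :
    ∃ z' v', T x y (Function.update η z v) = Function.update (T x y η) z' v' ∧
      (z' = z ∨ (z = x ∧ z' = y) ∨ (z = y ∧ z' = x)) := by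
  by_cases hxy : x = y
  · subst hxy
    exact ⟨z, v, by rw [T_self, T_self], Or.inl rfl⟩
  by_cases hzx : z = x
  · subst hzx
    cases hy : η y
    · refine ⟨y, v, ?_, Or.inr (Or.inl ⟨rfl, rfl⟩)⟩
      funext w
      simp only [T_val hxy, Function.update_apply]
      split_ifs <;> simp_all
    · refine ⟨z, v, ?_, Or.inl rfl⟩
      funext w
      simp only [T_val hxy, Function.update_apply]
      split_ifs <;> simp_all
  by_cases hzy : z = y
  · subst hzy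
    cases hx : η x
    · refine ⟨z, v, ?_, Or.inl rfl⟩
      funext w
      simp only [T_val hxy, Function.update_apply]
      split_ifs <;> simp_all
    · refine ⟨x, v, ?_, Or.inr (Or.inr ⟨rfl, rfl⟩)⟩
      funext w
      simp only [T_val hxy, Function.update_apply]
      split_ifs <;> simp_all
  · refine ⟨z, v, ?_, Or.inl rfl⟩
    funext w
    simp only [T_val hxy, Function.update_apply]
    split_ifs <;> simp_all

lemma Infl_Q {p : ℤ → ℝ} (hp : Ker p) {n : ℕ} {f : Cyl Bool} {g : ℤ → ℝ} {L : ℝ}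
    (hL : 0 ≤ L) (hf : Infl f.1 g) (hg : ∀ x y : ℤ, g x - g y ≤ L * |((x - y : ℤ) : ℝ)|) :
    Infl (Q p n f).1 (fun z => g z + (2 * (n : ℝ) + 1)⁻¹ * (2 * M1 p * L)) := by
  have key : ∀ (z : ℤ) (η ζ : ℤ → Bool),
      (∀ x y : ℤ, ∃ z' : ℤ, |f.1 (T x y η) - f.1 (T x y ζ)| ≤ g z' ∧
        (z' = z ∨ (z = x ∧ z' = y) ∨ (z = y ∧ z' = x))) → |f.1 η - f.1 ζ| ≤ g z →
      (Q p n f).1 η - (Q p n f).1 ζ ≤ g z + (2 * (n : ℝ) + 1)⁻¹ * (2 * M1 p * L) := by
    intro z η ζ h1 h2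
    have := Q_sub_le hp (n := n) (f := f) (η := η) (ζ := ζ) (a := g z)
      (b := fun x y => (if z = x then L * |((y - x : ℤ) : ℝ)| else 0)
        + (if z = y then L * |((y - x : ℤ) : ℝ)| else 0))
      ((le_abs_self _).trans h2) (fun x _ y _ => by
        obtain ⟨z', hz1, hz2⟩ := h1 x y
        have hz3 := (le_abs_self _).trans hz1
        have n1 : 0 ≤ L * |((y - x : ℤ) : ℝ)| := mul_nonneg hL (abs_nonneg _)
        rcases hz2 with rfl | ⟨rfl, rfl⟩ | ⟨rfl, rfl⟩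
        · split_ifs <;> linarith
        · have := hg z' z
          rw [if_pos rfl]
          split_ifs <;> linarith
        · have := hg z' z
          have e : |((z' - z : ℤ) : ℝ)| = |((z - z' : ℤ) : ℝ)| := by
            push_cast; rw [abs_sub_comm]
          rw [e] at this
          rw [if_pos rfl]
          split_ifs <;> linarith)
    refine this.trans ?_
    have hc : (0 : ℝ) ≤ (2 * (n : ℝ) + 1)⁻¹ := by positivity
    have hsum : ∑ x ∈ box n, ∑ y ∈ box n, p (y - x) *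
        ((if z = x then L * |((y - x : ℤ) : ℝ)| else 0)
        + (if z = y then L * |((y - x : ℤ) : ℝ)| else 0)) ≤ 2 * M1 p * L := by
      simp only [mul_add, Finset.sum_add_distrib]
      have s1 : ∑ x ∈ box n, ∑ y ∈ box n, p (y - x) *
          (if z = x then L * |((y - x : ℤ) : ℝ)| else 0) ≤ M1 p * L := by
        have e1 : ∑ x ∈ box n, ∑ y ∈ box n, p (y - x) *
          (if z = x then L * |((y - x : ℤ) : ℝ)| else 0)
          = ∑ x ∈ box n, if z = x then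
            (∑ y ∈ box n, p (y - x) * |((y - x : ℤ) : ℝ)|) * L else 0 := by
          refine Finset.sum_congr rfl (fun x _ => ?_)
          split_ifs with h
          · rw [Finset.sum_mul]
            refine Finset.sum_congr rfl (fun y _ => ?_)
            ring
          · simp
        rw [e1, Finset.sum_ite_eq]
        split_ifs
        · exact mul_le_mul_of_nonneg_right (box_mom_le hp _ _) hL
        · exact mul_nonneg hp.M1_nonneg hL
      have s2 : ∑ x ∈ box n, ∑ y ∈ box n, p (y - x) *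
          (if z = y then L * |((y - x : ℤ) : ℝ)| else 0) ≤ M1 p * L := by
        rw [Finset.sum_comm]
        have e1 : ∑ y ∈ box n, ∑ x ∈ box n, p (y - x) *
          (if z = y then L * |((y - x : ℤ) : ℝ)| else 0)
          = ∑ y ∈ box n, if z = y then
            (∑ x ∈ box n, p (y - x) * |((y - x : ℤ) : ℝ)|) * L else 0 := by
          refine Finset.sum_congr rfl (fun x _ => ?_)
          split_ifs with h
          · rw [Finset.sum_mul]
            refine Finset.sum_congr rfl (fun y _ => ?_)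
            ring
          · simp
        rw [e1, Finset.sum_ite_eq]
        split_ifs
        · exact mul_le_mul_of_nonneg_right (box_mom_le' hp _ _) hL
        · exact mul_nonneg hp.M1_nonneg hL
      linarith
    have := mul_le_mul_of_nonneg_left hsum hc
    linarith
  intro z η v
  have hT1 : ∀ x y : ℤ, ∃ z' : ℤ, |f.1 (T x y (Function.update η z v)) - f.1 (T x y η)| ≤ g z' ∧
        (z' = z ∨ (z = x ∧ z' = y) ∨ (z = y ∧ z' = x)) := by
    intro x y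
    obtain ⟨z', v', h1, h2⟩ := T_update (x := x) (y := y) z η v
    exact ⟨z', by rw [h1]; exact hf _ _ _, h2⟩
  rw [abs_le]
  constructor
  · have := key z η (Function.update η z v) (fun x y => by
      obtain ⟨z', h1, h2⟩ := hT1 x y
      exact ⟨z', by rw [abs_sub_comm]; exact h1, h2⟩) (by rw [abs_sub_comm]; exact hf z η v)
    linarith
  · exact key z (Function.update η z v) η hT1 (hf z η v)

lemma Infl_Qj {p : ℤ → ℝ} (hp : Ker p) {n : ℕ} {f : Cyl Bool} {g : ℤ → ℝ} {L : ℝ}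
    (hL : 0 ≤ L) (hf : Infl f.1 g) (hg : ∀ x y : ℤ, g x - g y ≤ L * |((x - y : ℤ) : ℝ)|) (j : ℕ) :
    Infl (((Q p n) ^ j) f).1 (fun z => g z + j * ((2 * (n : ℝ) + 1)⁻¹ * (2 * M1 p * L))) := by
  induction j with
  | zero => simpa using hf
  | succ j ih =>
    rw [pow_succ', Module.End.mul_apply]
    have := Infl_Q hp (n := n) hL ih (fun x y => by
      have := hg x y
      linarith)
    refine this.mono (fun z => le_of_eq ?_)
    push_cast
    ring

/-- the influence profile -/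
noncomputable def prof (p : ℤ → ℝ) (R K : ℕ) (C : ℝ) (x : ℤ) : ℝ :=
  if |x| ≤ (R : ℤ) then C else min C (2 * M1 p * C * K / ((|x| : ℤ) - (R : ℝ)))

lemma prof_le (p : ℤ → ℝ) (R K : ℕ) (C : ℝ) (x : ℤ) : prof p R K C x ≤ C := by
  unfold prof
  split_ifs
  · exact le_rfl
  · exact min_le_left _ _

lemma prof_le' {p : ℤ → ℝ} (hp : Ker p) (R K : ℕ) {C : ℝ} (hC : 0 ≤ C) {x : ℤ} {d : ℝ}
    (hd : 0 < d) (hx : (R : ℝ) + d ≤ ((|x| : ℤ) : ℝ)) : prof p R K C x ≤ 2 * M1 p * C * K / d := by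
  unfold prof
  rw [if_neg]
  · refine (min_le_right _ _).trans ?_
    have h1 : 0 ≤ 2 * M1 p * C * K := by
      have := hp.M1_nonneg
      positivity
    exact div_le_div_of_nonneg_left h1 hd (by linarith)
  · intro h
    have : ((|x| : ℤ) : ℝ) ≤ R := by exact_mod_cast h
    linarith

lemma Infl_prof {p : ℤ → ℝ} (hp : Ker p) {n R K : ℕ} {f : Cyl Bool} {C : ℝ} (hC : 0 ≤ C)
    (hd : Dep R f.1) (hf : Infl f.1 (fun _ => C)) {j : ℕ} (hj : (j : ℝ) ≤ K * (2 * n + 1)) :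
    Infl (((Q p n) ^ j) f).1 (prof p R K C) := by
  intro z η v
  have hconst : |(((Q p n) ^ j) f).1 (Function.update η z v) - (((Q p n) ^ j) f).1 η| ≤ C := by
    have := Infl_Qj hp (n := n) (f := f) (g := fun _ => C) (L := 0) le_rfl hf (by simp) j z η v
    simpa using this
  unfold prof
  split_ifs with hz
  · exact hconst
  · refine le_min hconst ?_
    push Not at hz
    set ℓ : ℝ := ((|z| : ℤ) : ℝ) - R with hℓ
    have hℓ0 : 0 < ℓ := by
      have : (R : ℝ) < ((|z| : ℤ) : ℝ) := by exact_mod_cast hz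
      linarith
    have hfg : Infl f.1 (fun x => C * max 0 (1 - max 0 (((|x| : ℤ) : ℝ) - R) / ℓ)) := by
      intro x ξ w
      by_cases hx : x ∈ box R
      · have h1 : ((|x| : ℤ) : ℝ) ≤ R := by
          have := mem_box_abs.1 hx
          exact_mod_cast this
        have h2 : max 0 (((|x| : ℤ) : ℝ) - R) = 0 := max_eq_left (by linarith)
        dsimp only
        rw [h2]
        simpa using hf x ξ w
      · have h1 : f.1 (Function.update ξ x w) = f.1 ξ := by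
          apply hd
          intro y hy
          rw [Function.update_of_ne]
          rintro rfl
          exact hx hy
        rw [h1, sub_self, abs_zero]
        exact mul_nonneg hC (le_max_left _ _)
    have hlip : ∀ x y : ℤ, C * max 0 (1 - max 0 (((|x| : ℤ) : ℝ) - R) / ℓ)
        - C * max 0 (1 - max 0 (((|y| : ℤ) : ℝ) - R) / ℓ) ≤ (C / ℓ) * |((x - y : ℤ) : ℝ)| := by
      intro x y
      rw [← mul_sub, div_mul_eq_mul_div, mul_div_assoc]
      refine mul_le_mul_of_nonneg_left ?_ hC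
      have h1 : max 0 (((|y| : ℤ) : ℝ) - R) - max 0 (((|x| : ℤ) : ℝ) - R)
          ≤ |((x - y : ℤ) : ℝ)| := by
        have h3 : ((|y| : ℤ) : ℝ) - ((|x| : ℤ) : ℝ) ≤ |((x - y : ℤ) : ℝ)| := by
          push_cast
          have := abs_sub_abs_le_abs_sub (y : ℝ) (x : ℝ)
          rw [abs_sub_comm] at this
          exact this
        have h4 := abs_nonneg ((x - y : ℤ) : ℝ)
        rcases le_total 0 (((|y| : ℤ) : ℝ) - R) with h5 | h5 <;>
        rcases le_total 0 (((|x| : ℤ) : ℝ) - R) with h6 | h6 <;>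
        simp only [max_eq_left h5, max_eq_right h5, max_eq_left h6, max_eq_right h6] <;> linarith
      have h2 : (1 - max 0 (((|x| : ℤ) : ℝ) - R) / ℓ) - (1 - max 0 (((|y| : ℤ) : ℝ) - R) / ℓ)
          ≤ |((x - y : ℤ) : ℝ)| / ℓ := by
        have := div_le_div_of_nonneg_right h1 hℓ0.le
        rw [sub_div] at this
        linarith
      have h4 : 0 ≤ |((x - y : ℤ) : ℝ)| / ℓ := by positivity
      rcases le_total 0 (1 - max 0 (((|x| : ℤ) : ℝ) - R) / ℓ) with h5 | h5 <;>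
      rcases le_total 0 (1 - max 0 (((|y| : ℤ) : ℝ) - R) / ℓ) with h6 | h6 <;>
      simp only [max_eq_left h5, max_eq_right h5, max_eq_left h6, max_eq_right h6] <;> linarith
    have hL : 0 ≤ C / ℓ := by positivity
    have := Infl_Qj hp (n := n) hL hfg hlip j z η v
    refine this.trans ?_
    have h1 : max 0 (1 - max 0 (((|z| : ℤ) : ℝ) - R) / ℓ) = 0 := by
      rw [max_eq_right hℓ0.le, div_self hℓ0.ne', sub_self, max_self]
    dsimp only
    rw [h1, mul_zero, zero_add]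
    have hc : (0 : ℝ) < 2 * (n : ℝ) + 1 := by positivity
    have h2 : (j : ℝ) * ((2 * (n : ℝ) + 1)⁻¹ * (2 * M1 p * (C / ℓ)))
        = (j / (2 * (n : ℝ) + 1)) * (2 * M1 p * C / ℓ) := by
      field_simp
    rw [h2]
    have h3 : (j : ℝ) / (2 * (n : ℝ) + 1) ≤ K := by
      rw [div_le_iff₀ hc]; exact hj
    have h4 : 0 ≤ 2 * M1 p * C / ℓ := by
      have := hp.M1_nonneg
      positivity
    calc (j / (2 * (n : ℝ) + 1)) * (2 * M1 p * C / ℓ) ≤ K * (2 * M1 p * C / ℓ) :=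
          mul_le_mul_of_nonneg_right h3 h4
      _ = 2 * M1 p * C * K / ℓ := by ring

lemma Infl_Ces {p : ℤ → ℝ} (hp : Ker p) {n R K : ℕ} (hK : 0 < K) {f : Cyl Bool} {C : ℝ}
    (hC : 0 ≤ C) (hd : Dep R f.1) (hf : Infl f.1 (fun _ => C)) :
    Infl (Ces p n (K * (2 * n + 1)) f).1 (prof p R K C) := by
  intro z η v
  rw [Ces_apply, Ces_apply]
  refine avg_abs_sub_le (by positivity) (fun j hj => ?_)
  refine Infl_prof hp hC hd hf ?_ z η v
  have : j ≤ K * (2 * n + 1) := hj.le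
  exact_mod_cast this

end Helper78Excl
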