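import Pool.Agent.Helper78_Excl.Stat

set_option backward.isDefEq.respectTransparency false

namespace Helper78Excl

open Finset Filter Topology Set

/-- States, as functions on the algebra of cylinder functions. -/
def StSet (S : Type) : Set (Cyl S → ℝ) :=
  {φ | (∀ f g, φ (f + g) = φ f + φ g) ∧ (∀ (c : ℝ) f, φ (c • f) = c * φ f) ∧
    (∀ f : Cyl S, (∀ η, 0 ≤ f.1 η) → 0 ≤ φ f) ∧ φ 1 = 1}

/-- The linear map attached to a state. -/
def lin {S : Type} (φ : Cyl S → ℝ) (h : φ ∈ StSet S) : Cyl S →ₗ[ℝ] ℝ where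
  toFun := φ
  map_add' := h.1
  map_smul' := h.2.1

@[simp] lemma lin_apply {S : Type} (φ : Cyl S → ℝ) (h : φ ∈ StSet S) (f : Cyl S) :
    lin φ h f = φ f := rfl

lemma lin_isSt {S : Type} (φ : Cyl S → ℝ) (h : φ ∈ StSet S) : IsSt (lin φ h) where
  pos := h.2.2.1
  one := h.2.2.2

lemma mem_StSet {S : Type} {Φ : Cyl S →ₗ[ℝ] ℝ} (h : IsSt Φ) : (Φ : Cyl S → ℝ) ∈ StSet S :=
  ⟨map_add Φ, fun c f => by rw [map_smul, smul_eq_mul], h.pos, h.one⟩

lemma StSet_bound {S : Type} {φ : Cyl S → ℝ} (h : φ ∈ StSet S) (f : Cyl S) : |φ f| ≤ bd f :=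
  (lin_isSt φ h).abs_le_const (abs_le_bd f)

lemma isClosed_StSet (S : Type) : IsClosed (StSet S) := by
  have h : StSet S = (⋂ f : Cyl S, ⋂ g : Cyl S, {φ : Cyl S → ℝ | φ (f + g) = φ f + φ g}) ∩
      ((⋂ c : ℝ, ⋂ f : Cyl S, {φ : Cyl S → ℝ | φ (c • f) = c * φ f}) ∩
      ((⋂ f : Cyl S, ⋂ _ : (∀ η, 0 ≤ f.1 η), {φ : Cyl S → ℝ | 0 ≤ φ f}) ∩
        {φ : Cyl S → ℝ | φ 1 = 1})) := by
    ext φ
    simp only [StSet, Set.mem_ofPred_eq, Set.mem_inter_iff, Set.mem_iInter]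
  rw [h]
  refine IsClosed.inter ?_ (IsClosed.inter ?_ (IsClosed.inter ?_ ?_))
  · exact isClosed_iInter (fun f => isClosed_iInter (fun g =>
      isClosed_eq (continuous_apply (f + g))
        (Continuous.add (continuous_apply f) (continuous_apply g) :
          Continuous (fun φ : Cyl S → ℝ => φ f + φ g))))
  · exact isClosed_iInter (fun c => isClosed_iInter (fun f =>
      isClosed_eq (continuous_apply _) ((continuous_apply _).const_mul _)))
  · exact isClosed_iInter (fun f => isClosed_iInter (fun _ =>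
      isClosed_le continuous_const (continuous_apply _)))
  · exact isClosed_eq (continuous_apply _) continuous_const

lemma isCompact_StSet (S : Type) : IsCompact (StSet S) := by
  have h : IsCompact (Set.pi Set.univ (fun f : Cyl S => Set.Icc (-bd f) (bd f))) :=
    isCompact_univ_pi (fun f => isCompact_Icc)
  refine h.of_isClosed_subset (isClosed_StSet S) ?_
  intro φ hφ f _
  exact abs_le.1 (StSet_bound hφ f)

/-- Invariant states. -/
def Inv (S : Type) [Lattice S] (p : ℤ → ℝ) : Set (Cyl S → ℝ) :=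
  {φ | φ ∈ StSet S ∧
    ∀ f : Cyl S, ∑' xy : ℤ × ℤ, p (xy.2 - xy.1) * φ (Tc xy.1 xy.2 f - f) = 0}

section
variable {S : Type} [Lattice S]

lemma Inv.stat {p : ℤ → ℝ} {φ : Cyl S → ℝ} (h : φ ∈ Inv S p) : Stat p (lin φ h.1) := h.2

lemma mem_Inv {p : ℤ → ℝ} {Φ : Cyl S →ₗ[ℝ] ℝ} (h : IsSt Φ) (hs : Stat p Φ) :
    (Φ : Cyl S → ℝ) ∈ Inv S p := ⟨mem_StSet h, hs⟩

lemma isClosed_Inv {p : ℤ → ℝ} (hp : Ker p) : IsClosed (Inv S p) := by
  have h : Inv S p = StSet S ∩ ⋂ f : Cyl S, (StSet S ∩ (fun φ : Cyl S → ℝ =>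
      ∑' xy : ℤ × ℤ, p (xy.2 - xy.1) * φ (Tc xy.1 xy.2 f - f)) ⁻¹' {0}) := by
    ext φ
    simp only [Inv, Set.mem_ofPred_eq, Set.mem_inter_iff, Set.mem_iInter, Set.mem_preimage,
      Set.mem_singleton_iff]
    constructor
    · rintro ⟨h1, h2⟩
      exact ⟨h1, fun f => ⟨h1, h2 f⟩⟩
    · rintro ⟨h1, h2⟩
      exact ⟨h1, fun f => (h2 f).2⟩
  rw [h]
  refine (isClosed_StSet S).inter (isClosed_iInter (fun f => ?_))
  refine ContinuousOn.preimage_isClosed_of_isClosed ?_ (isClosed_StSet S) isClosed_singleton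
  obtain ⟨n, hn⟩ := f.2.1
  refine continuousOn_tsum (u := fun xy : ℤ × ℤ =>
    (if xy.1 ∈ box n ∨ xy.2 ∈ box n then p (xy.2 - xy.1) else 0) * (2 * bd f * 1)) ?_ ?_ ?_
  · intro xy
    exact ((continuous_apply _).const_mul _).continuousOn
  · exact (pair_summable hp n).mul_right _
  · intro xy φ hφ
    have := term_bound hp (lin_isSt φ hφ).pos hn xy
    rw [(lin_isSt φ hφ).one] at this
    exact this

lemma isCompact_Inv {p : ℤ → ℝ} (hp : Ker p) : IsCompact (Inv S p) :=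
  (isCompact_StSet S).of_isClosed_subset (isClosed_Inv hp) (fun _ h => h.1)

end

lemma convex_comb_StSet {S : Type} {φ ψ : Cyl S → ℝ} (h1 : φ ∈ StSet S) (h2 : ψ ∈ StSet S)
    {a b : ℝ} (ha : 0 ≤ a) (hb : 0 ≤ b) (hab : a + b = 1) : a • φ + b • ψ ∈ StSet S := by
  refine ⟨fun f g => ?_, fun c f => ?_, fun f hf => ?_, ?_⟩
  · simp only [Pi.add_apply, Pi.smul_apply, smul_eq_mul, h1.1, h2.1]; ring
  · simp only [Pi.add_apply, Pi.smul_apply, smul_eq_mul, h1.2.1, h2.2.1]; ring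
  · simp only [Pi.add_apply, Pi.smul_apply, smul_eq_mul]
    have := h1.2.2.1 f hf
    have := h2.2.2.1 f hf
    positivity
  · simp only [Pi.add_apply, Pi.smul_apply, smul_eq_mul, h1.2.2.2, h2.2.2.2]; linarith

/-- Existence of an extreme invariant state with vanishing values along a sequence of
nonnegative functions. -/
lemma exists_extreme {S : Type} [Lattice S] {p : ℤ → ℝ} (hp : Ker p) (E : ℕ → Cyl S)
    (hE : ∀ j η, 0 ≤ (E j).1 η) {φ₀ : Cyl S → ℝ} (hφ₀ : φ₀ ∈ Inv S p)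
    (hfin : ∑' j, ENNReal.ofReal (φ₀ (E j)) ≠ ⊤) :
    ∃ κ ∈ (Inv S p).extremePoints ℝ, Tendsto (fun j => κ (E j)) atTop (𝓝 0) := by
  set Ψ : (Cyl S → ℝ) → ENNReal := fun φ => ∑' j, ENNReal.ofReal (φ (E j)) with hΨ
  have hlsc : LowerSemicontinuous Ψ := by
    apply lowerSemicontinuous_tsum
    intro j
    exact (ENNReal.continuous_ofReal.comp (continuous_apply (E j))).lowerSemicontinuous
  obtain ⟨φm, hφm, hmin⟩ := (hlsc.lowerSemicontinuousOn (Inv S p)).exists_isMinOn ⟨φ₀, hφ₀⟩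
    (isCompact_Inv hp)
  rw [isMinOn_iff] at hmin
  have hmfin : Ψ φm ≠ ⊤ := ne_top_of_le_ne_top hfin (hmin φ₀ hφ₀)
  set F : Set (Cyl S → ℝ) := Inv S p ∩ Ψ ⁻¹' (Set.Iic (Ψ φm)) with hF
  have hFc : IsCompact F := (isCompact_Inv hp).inter_right (hlsc.isClosed_preimage _)
  have hFn : F.Nonempty := ⟨φm, hφm, le_refl (Ψ φm)⟩
  have haff : ∀ φ ∈ Inv S p, ∀ ψ ∈ Inv S p, ∀ a b : ℝ, 0 < a → 0 < b →
      Ψ (a • φ + b • ψ) = ENNReal.ofReal a * Ψ φ + ENNReal.ofReal b * Ψ ψ := by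
    intro φ hφ ψ hψ a b ha hb
    simp only [hΨ]
    rw [← ENNReal.tsum_mul_left, ← ENNReal.tsum_mul_left, ← ENNReal.tsum_add]
    refine tsum_congr (fun j => ?_)
    have e1 := hφ.1.2.2.1 (E j) (hE j)
    have e2 := hψ.1.2.2.1 (E j) (hE j)
    rw [← ENNReal.ofReal_mul ha.le, ← ENNReal.ofReal_mul hb.le, ← ENNReal.ofReal_add
      (mul_nonneg ha.le e1) (mul_nonneg hb.le e2)]
    rfl
  have hext : IsExtreme ℝ (Inv S p) F := by
    refine ⟨fun φ h => h.1, ?_⟩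
    intro φ hφ ψ hψ χ hχ hseg
    obtain ⟨a, b, ha, hb, hab, rfl⟩ := hseg
    refine ⟨hφ, ?_⟩
    by_contra hcon
    have hcon' : Ψ φm < Ψ φ := not_le.1 hcon
    have h1 := haff φ hφ ψ hψ a b ha hb
    have h2 : Ψ (a • φ + b • ψ) ≤ Ψ φm := hχ.2
    rw [h1] at h2
    have h3 : ENNReal.ofReal b * Ψ φm ≤ ENNReal.ofReal b * Ψ ψ :=
      mul_le_mul_right (hmin ψ hψ) _
    have h4 : ENNReal.ofReal a * Ψ φm < ENNReal.ofReal a * Ψ φ :=
      (ENNReal.mul_lt_mul_iff_right (ENNReal.ofReal_pos.2 ha).ne' ENNReal.ofReal_ne_top).2 hcon'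
    have h5 : ENNReal.ofReal a * Ψ φm + ENNReal.ofReal b * Ψ φm
        < ENNReal.ofReal a * Ψ φ + ENNReal.ofReal b * Ψ ψ :=
      ENNReal.add_lt_add_of_lt_of_le (ENNReal.mul_ne_top ENNReal.ofReal_ne_top hmfin) h4 h3
    rw [← add_mul, ← ENNReal.ofReal_add ha.le hb.le, hab, ENNReal.ofReal_one, one_mul] at h5
    exact absurd h2 (not_le.2 h5)
  obtain ⟨κ, hκ⟩ := hFc.extremePoints_nonempty hFn
  have hκ1 := hext.extremePoints_subset_extremePoints hκ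
  refine ⟨κ, hκ1, ?_⟩
  have hκfin : ∑' j, ENNReal.ofReal (κ (E j)) ≠ ⊤ :=
    ne_top_of_le_ne_top hmfin hκ.1.2
  have h6 := ENNReal.tendsto_atTop_zero_of_tsum_ne_top hκfin
  have h7 := (ENNReal.tendsto_toReal ENNReal.zero_ne_top).comp h6
  rw [ENNReal.toReal_zero] at h7
  refine h7.congr (fun j => ?_)
  simp only [Function.comp_apply]
  exact ENNReal.toReal_ofReal (hκ1.1.1.2.2.1 (E j) (hE j))

/-- Ultrafilter limits of positive functionals. -/
lemma exists_ulim {S : Type} (U : Ultrafilter ℕ) (Φ : ℕ → (Cyl S →ₗ[ℝ] ℝ))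
    (hpos : ∀ n, Pos (Φ n)) (h1 : ∀ n, Φ n 1 ≤ 1) :
    ∃ Ψ : Cyl S →ₗ[ℝ] ℝ, Pos Ψ ∧ ∀ f, Tendsto (fun n => Φ n f) U (𝓝 (Ψ f)) := by
  have hb : ∀ f n, Φ n f ∈ Set.Icc (-bd f) (bd f) := by
    intro f n
    have h := (hpos n).abs_le_const (abs_le_bd f)
    have h0 : 0 ≤ Φ n 1 := hpos n 1 (fun η => zero_le_one)
    have h2 : bd f * Φ n 1 ≤ bd f := by
      have := mul_le_mul_of_nonneg_left (h1 n) (bd_nonneg f)
      linarith
    exact abs_le.1 (h.trans h2)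
  have hlim : ∀ f, ∃ L, Tendsto (fun n => Φ n f) U (𝓝 L) := by
    intro f
    obtain ⟨L, _, hL⟩ := isCompact_Icc.ultrafilter_le_nhds (U.map (fun n => Φ n f)) (by
      rw [Filter.le_principal_iff]
      exact Filter.mem_map.2 (Filter.univ_mem' (fun n => hb f n)))
    exact ⟨L, hL⟩
  choose L hL using hlim
  refine ⟨{ toFun := L, map_add' := ?_, map_smul' := ?_ }, ?_, fun f => hL f⟩
  · intro f g
    refine tendsto_nhds_unique (hL (f + g)) ?_
    refine ((hL f).add (hL g)).congr (fun n => ?_)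
    rw [map_add]
  · intro c f
    refine tendsto_nhds_unique (hL (c • f)) ?_
    refine ((hL f).const_mul c).congr (fun n => ?_)
    rw [map_smul, smul_eq_mul]
  · intro f hf
    exact ge_of_tendsto (hL f) (Eventually.of_forall (fun n => hpos n f hf))

/-- Continuity of the stationarity defect along ultrafilter limits. -/
lemma defect_limit {S : Type} [Lattice S] {p : ℤ → ℝ} (hp : Ker p) (U : Ultrafilter ℕ)
    {Φ : ℕ → (Cyl S →ₗ[ℝ] ℝ)} (hpos : ∀ n, Pos (Φ n)) (h1 : ∀ n, Φ n 1 ≤ 1)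
    {Ψ : Cyl S →ₗ[ℝ] ℝ} (hΨ : ∀ f, Tendsto (fun n => Φ n f) U (𝓝 (Ψ f))) (f : Cyl S) :
    Tendsto (fun n => ∑' xy : ℤ × ℤ, p (xy.2 - xy.1) * Φ n (Tc xy.1 xy.2 f - f)) U
      (𝓝 (∑' xy : ℤ × ℤ, p (xy.2 - xy.1) * Ψ (Tc xy.1 xy.2 f - f))) := by
  obtain ⟨m, hm⟩ := f.2.1
  refine tendsto_tsum_of_dominated_convergence (bound := fun xy : ℤ × ℤ =>
    (if xy.1 ∈ box m ∨ xy.2 ∈ box m then p (xy.2 - xy.1) else 0) * (2 * bd f * 1)) ?_ ?_ ?_
  · exact (pair_summable hp m).mul_right _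
  · intro xy
    exact (hΨ _).const_mul _
  · refine Eventually.of_forall (fun n xy => ?_)
    refine (term_bound hp (hpos n) hm xy).trans ?_
    have h2 := bd_nonneg f
    have h3 : (0 : ℝ) ≤ (if xy.1 ∈ box m ∨ xy.2 ∈ box m then p (xy.2 - xy.1) else 0) := by
      split_ifs
      · exact hp.nonneg _
      · exact le_rfl
    refine mul_le_mul_of_nonneg_left ?_ h3
    exact mul_le_mul_of_nonneg_left (h1 n) (by positivity)

end Helper78Excl
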