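import Pool.Agent.Helper78_Excl.Compact

set_option backward.isDefEq.respectTransparency false

namespace Helper78Excl

open Finset Filter Topology

lemma T_eq {S : Type} [Lattice S] (x y z : ℤ) (η : ℤ → S) :
    T x y η z = if z = y then η x ⊔ η y else if z = x then η x ⊓ η y else η z := by
  simp only [T, Function.update_apply]

/-- first marginal configuration -/
def π1 (η : ℤ → Bool × Bool) : ℤ → Bool := fun x => (η x).1
/-- second marginal configuration -/
def π2 (η : ℤ → Bool × Bool) : ℤ → Bool := fun x => (η x).2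
/-- graph of the shift -/
def gr (η : ℤ → Bool) : ℤ → Bool × Bool := fun x => (η x, η (x + 1))
/-- shift -/
def sh (a : ℤ) (η : ℤ → Bool) : ℤ → Bool := fun x => η (x + a)

lemma π1_loc : Loc π1 := fun n => ⟨n, fun η ζ h x hx => by simp [π1, h x hx]⟩
lemma π2_loc : Loc π2 := fun n => ⟨n, fun η ζ h x hx => by simp [π2, h x hx]⟩
lemma gr_loc : Loc gr := fun n => ⟨n + 1, fun η ζ h x hx => by
  have h1 := h x (box_mono (Nat.le_succ n) hx)
  have h2 := h (x + 1) (by rw [mem_box] at *; push_cast; omega)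
  simp [gr, h1, h2]⟩
lemma sh_loc (a : ℤ) : Loc (sh a) := fun n => ⟨n + a.natAbs, fun η ζ h x hx => by
  have h2 := h (x + a) (by rw [mem_box] at *; rw [Nat.cast_add]; omega)
  simp [sh, h2]⟩

lemma π1_T (x y : ℤ) (η : ℤ → Bool × Bool) : π1 (T x y η) = T x y (π1 η) := by
  funext z
  simp only [π1, T_eq]
  split_ifs <;> rfl
lemma π2_T (x y : ℤ) (η : ℤ → Bool × Bool) : π2 (T x y η) = T x y (π2 η) := by
  funext z
  simp only [π2, T_eq]
  split_ifs <;> rfl
lemma sh_T (a x y : ℤ) (η : ℤ → Bool) : sh a (T (x + a) (y + a) η) = T x y (sh a η) := by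
  funext z
  simp only [sh, T_eq, add_left_inj]

/-- pulled back functional -/
def cmp {S S' : Type} (Φ : Cyl S' →ₗ[ℝ] ℝ) (φ : (ℤ → S') → (ℤ → S)) (hφ : Loc φ) :
    Cyl S →ₗ[ℝ] ℝ := Φ ∘ₗ (pull φ hφ).toLinearMap

@[simp] lemma cmp_apply {S S' : Type} (Φ : Cyl S' →ₗ[ℝ] ℝ) (φ : (ℤ → S') → (ℤ → S)) (hφ : Loc φ)
    (f : Cyl S) : cmp Φ φ hφ f = Φ (pull φ hφ f) := rfl

lemma cmp_pos {S S' : Type} {Φ : Cyl S' →ₗ[ℝ] ℝ} (h : Pos Φ) (φ : (ℤ → S') → (ℤ → S))
    (hφ : Loc φ) : Pos (cmp Φ φ hφ) := fun _ hf => h _ (fun _ => hf _)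

lemma cmp_isSt {S S' : Type} {Φ : Cyl S' →ₗ[ℝ] ℝ} (h : IsSt Φ) (φ : (ℤ → S') → (ℤ → S))
    (hφ : Loc φ) : IsSt (cmp Φ φ hφ) where
  pos := cmp_pos h.pos φ hφ
  one := by rw [cmp_apply, map_one]; exact h.one

lemma cmp_stat {S S' : Type} [Lattice S] [Lattice S'] {p : ℤ → ℝ} {Φ : Cyl S' →ₗ[ℝ] ℝ}
    (h : Stat p Φ) (φ : (ℤ → S') → (ℤ → S)) (hφ : Loc φ)
    (hT : ∀ x y η, φ (T x y η) = T x y (φ η)) : Stat p (cmp Φ φ hφ) := by
  intro f
  rw [← h (pull φ hφ f)]
  refine tsum_congr (fun xy => ?_)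
  rw [cmp_apply]
  congr 2
  apply Cyl.ext'
  intro η
  rw [map_sub]
  change f.1 (T xy.1 xy.2 (φ η)) - f.1 (φ η) = f.1 (φ (T xy.1 xy.2 η)) - f.1 (φ η)
  rw [hT]

lemma sh_stat {p : ℤ → ℝ} {Φ : Cyl Bool →ₗ[ℝ] ℝ}
    (h : Stat p Φ) (a : ℤ) : Stat p (cmp Φ (sh a) (sh_loc a)) := by
  intro f
  rw [← h (pull (sh a) (sh_loc a) f), ← ((Equiv.addRight a).prodCongr (Equiv.addRight a)).tsum_eq
    (fun xy : ℤ × ℤ => p (xy.2 - xy.1) *
      Φ (Tc xy.1 xy.2 (pull (sh a) (sh_loc a) f) - pull (sh a) (sh_loc a) f))]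
  refine tsum_congr (fun xy => ?_)
  simp only [Equiv.prodCongr_apply, Equiv.coe_addRight, Prod.map_fst, Prod.map_snd,
    add_sub_add_right_eq_sub, cmp_apply]
  congr 2
  apply Cyl.ext'
  intro η
  rw [map_sub]
  change f.1 (T xy.1 xy.2 (sh a η)) - f.1 (sh a η)
    = f.1 (sh a (T (xy.1 + a) (xy.2 + a) η)) - f.1 (sh a η)
  rw [sh_T]

/-- Cesaro commutes with the generator (telescoping). -/
lemma Ces_Lop {S : Type} [Lattice S] (p : ℤ → ℝ) (n J : ℕ) (f : Cyl S) :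
    Ces p n J (Lop p n f) = ((2 * (n : ℝ) + 1) / J) • (((Q p n) ^ J) f - f) := by
  have h : ∑ j ∈ Finset.range J, (((Q p n) ^ (j + 1)) f - ((Q p n) ^ j) f)
      = ((Q p n) ^ J) f - f := by
    rw [Finset.sum_range_sub (fun j => ((Q p n) ^ j) f)]
    simp
  rw [Lop_eq, map_smul, Ces_map]
  have h2 : ∑ j ∈ Finset.range J, ((Q p n) ^ j) (Q p n f - f)
      = ((Q p n) ^ J) f - f := by
    rw [← h]
    refine Finset.sum_congr rfl (fun j _ => ?_)
    rw [map_sub, pow_succ, Module.End.mul_apply]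
  rw [h2, smul_smul, div_eq_mul_inv]

lemma Infl_bd (f : Cyl Bool) : Infl f.1 (fun _ => 2 * bd f) := by
  intro z η v
  have h1 := abs_le_bd f (Function.update η z v)
  have h2 := abs_le_bd f η
  have := abs_sub (f.1 (Function.update η z v)) (f.1 η)
  linarith

lemma tendsto_Ces {p : ℤ → ℝ} (hp : Ker p) {κ : Cyl Bool →ₗ[ℝ] ℝ} (hκ : IsSt κ)
    (hs : Stat p κ) {K : ℕ} (hK : 0 < K) (f : Cyl Bool) :
    Tendsto (fun n : ℕ => κ (Ces p n (K * (2 * n + 1)) f)) atTop (𝓝 (κ f)) := by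
  obtain ⟨R, hR⟩ := f.2.1
  have hC : 0 ≤ 2 * bd f := by have := bd_nonneg f; positivity
  have h1 : Tendsto (fun n => (K : ℝ) * er p R K (2 * bd f) n) atTop (𝓝 0) := by
    simpa using (er_tendsto hp R K (2 * bd f)).const_mul (K : ℝ)
  rw [tendsto_iff_norm_sub_tendsto_zero]
  refine squeeze_zero' (Eventually.of_forall (fun n => norm_nonneg _)) ?_ h1
  filter_upwards [eventually_gt_atTop (2 * R)] with n hn
  rw [Real.norm_eq_abs]
  exact stat_Ces hp hκ hs hK hC hn hR (Infl_bd f)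

/-- Couplings of `κ` with its translate. -/
def Coup (p : ℤ → ℝ) (κ : Cyl Bool →ₗ[ℝ] ℝ) : Set (Cyl (Bool × Bool) → ℝ) :=
  {φ | φ ∈ Inv (Bool × Bool) p ∧ (∀ f, φ (pull π1 π1_loc f) = κ f) ∧
    (∀ f, φ (pull π2 π2_loc f) = κ (pull (sh 1) (sh_loc 1) f))}

lemma isCompact_Coup {p : ℤ → ℝ} (hp : Ker p) (κ : Cyl Bool →ₗ[ℝ] ℝ) : IsCompact (Coup p κ) := by
  have h : Coup p κ = Inv (Bool × Bool) p ∩ ((⋂ f, {φ : Cyl (Bool × Bool) → ℝ |
      φ (pull π1 π1_loc f) = κ f}) ∩ (⋂ f, {φ : Cyl (Bool × Bool) → ℝ |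
      φ (pull π2 π2_loc f) = κ (pull (sh 1) (sh_loc 1) f)})) := by
    ext φ
    simp only [Coup, Set.mem_ofPred_eq, Set.mem_inter_iff, Set.mem_iInter]
  rw [h]
  refine (isCompact_Inv hp).inter_right (IsClosed.inter ?_ ?_)
  · exact isClosed_iInter (fun f => isClosed_eq (continuous_apply _) continuous_const)
  · exact isClosed_iInter (fun f => isClosed_eq (continuous_apply _) continuous_const)

lemma Coup_nonempty {p : ℤ → ℝ} (hp : Ker p) {κ : Cyl Bool →ₗ[ℝ] ℝ} (hκ : IsSt κ)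
    (hs : Stat p κ) : (Coup p κ).Nonempty := by
  set U : Ultrafilter ℕ := Filter.hyperfilter ℕ with hU
  have hUle : (U : Filter ℕ) ≤ atTop := Nat.hyperfilter_le_atTop
  -- the finite volume functionals
  set Φ : ℕ → ℕ → (Cyl (Bool × Bool) →ₗ[ℝ] ℝ) := fun k n =>
    (cmp κ gr gr_loc) ∘ₗ (Ces p n ((k + 1) * (2 * n + 1))) with hΦ
  have hJ : ∀ k n : ℕ, 0 < (k + 1) * (2 * n + 1) := fun k n => by positivity
  have hpos : ∀ k n, Pos (Φ k n) := by
    intro k n f hf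
    exact (cmp_pos hκ.pos gr gr_loc) _ (fun η => Ces_ge hp hf (hJ k n) η)
  have hCes1 : ∀ k n : ℕ, Ces p n ((k + 1) * (2 * n + 1)) (1 : Cyl (Bool × Bool)) = 1 := by
    intro k n
    apply Cyl.ext'
    intro η
    refine le_antisymm (Ces_le hp (fun η => le_rfl) (hJ k n) η)
      (Ces_ge hp (fun η => le_rfl) (hJ k n) η)
  have hone : ∀ k n, Φ k n 1 = 1 := by
    intro k n
    simp only [hΦ, LinearMap.comp_apply]
    rw [hCes1, cmp_apply, map_one]
    exact hκ.one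
  have hgr1 : ∀ f : Cyl Bool, pull gr gr_loc (pull π1 π1_loc f) = f := fun f => by
    apply Cyl.ext'; intro η; rfl
  have hgr2 : ∀ f : Cyl Bool, pull gr gr_loc (pull π2 π2_loc f) = pull (sh 1) (sh_loc 1) f :=
    fun f => by apply Cyl.ext'; intro η; rfl
  have hm1 : ∀ k, ∀ f, Tendsto (fun n => Φ k n (pull π1 π1_loc f)) atTop (𝓝 (κ f)) := by
    intro k f
    refine (tendsto_Ces hp hκ hs (Nat.succ_pos k) f).congr (fun n => ?_)
    simp only [hΦ, LinearMap.comp_apply, cmp_apply]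
    rw [Ces_pull p n π1 π1_loc π1_T, hgr1]
  have hκsh := cmp_isSt hκ (sh 1) (sh_loc 1)
  have hssh := sh_stat hs 1
  have hm2 : ∀ k, ∀ f, Tendsto (fun n => Φ k n (pull π2 π2_loc f)) atTop
      (𝓝 (κ (pull (sh 1) (sh_loc 1) f))) := by
    intro k f
    refine (tendsto_Ces hp hκsh hssh (Nat.succ_pos k) f).congr (fun n => ?_)
    simp only [hΦ, LinearMap.comp_apply, cmp_apply]
    rw [Ces_pull p n π2 π2_loc π2_T, hgr2]
  choose Ψ hΨpos hΨ using fun k => exists_ulim U (Φ k) (hpos k) (fun n => (hone k n).le)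
  have hΨ1 : ∀ k, Ψ k 1 = 1 := by
    intro k
    refine tendsto_nhds_unique (hΨ k 1) ?_
    refine tendsto_const_nhds.congr (fun n => (hone k n).symm)
  have hΨm1 : ∀ k f, Ψ k (pull π1 π1_loc f) = κ f := fun k f =>
    tendsto_nhds_unique (hΨ k _) ((hm1 k f).mono_left hUle)
  have hΨm2 : ∀ k f, Ψ k (pull π2 π2_loc f) = κ (pull (sh 1) (sh_loc 1) f) := fun k f =>
    tendsto_nhds_unique (hΨ k _) ((hm2 k f).mono_left hUle)
  -- defect bound
  have hdef : ∀ k (f : Cyl (Bool × Bool)), |∑' xy : ℤ × ℤ,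
      p (xy.2 - xy.1) * Ψ k (Tc xy.1 xy.2 f - f)| ≤ 2 * bd f / (k + 1 : ℕ) := by
    intro k f
    obtain ⟨m, hm⟩ := f.2.1
    have hlim : Tendsto (fun n => Φ k n (Lop p n f)) U
        (𝓝 (∑' xy : ℤ × ℤ, p (xy.2 - xy.1) * Ψ k (Tc xy.1 xy.2 f - f))) := by
      have h1 := tendsto_tsum_of_dominated_convergence (𝓕 := (U : Filter ℕ))
        (f := fun n (xy : ℤ × ℤ) => if xy ∈ box n ×ˢ box n then
          p (xy.2 - xy.1) * Φ k n (Tc xy.1 xy.2 f - f) else 0)
        (g := fun xy : ℤ × ℤ => p (xy.2 - xy.1) * Ψ k (Tc xy.1 xy.2 f - f))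
        (bound := fun xy : ℤ × ℤ =>
          (if xy.1 ∈ box m ∨ xy.2 ∈ box m then p (xy.2 - xy.1) else 0) * (2 * bd f * 1))
        ((pair_summable hp m).mul_right _) ?_ ?_
      · refine h1.congr (fun n => ?_)
        rw [tsum_eq_sum (s := box n ×ˢ box n) (fun xy hxy => if_neg hxy), map_Lop,
          Finset.sum_product]
        refine Finset.sum_congr rfl (fun x hx => Finset.sum_congr rfl (fun y hy => ?_))
        rw [if_pos (Finset.mem_product.2 ⟨hx, hy⟩)]
      · intro xy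
        refine ((hΨ k (Tc xy.1 xy.2 f - f)).const_mul (p (xy.2 - xy.1))).congr' ?_
        have : ∀ᶠ n in atTop, xy ∈ box n ×ˢ box n := by
          filter_upwards [tendsto_box.eventually (eventually_ge_atTop {xy})] with n hn
          exact hn (Finset.mem_singleton_self xy)
        filter_upwards [hUle this] with n hn
        rw [if_pos hn]
      · refine Eventually.of_forall (fun n xy => ?_)
        have h2 := bd_nonneg f
        have h3 : (0 : ℝ) ≤ (if xy.1 ∈ box m ∨ xy.2 ∈ box m then p (xy.2 - xy.1) else 0) := by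
          split_ifs
          · exact hp.nonneg _
          · exact le_rfl
        by_cases h : xy ∈ box n ×ˢ box n
        · simp only [if_pos h]
          have := term_bound hp (hpos k n) hm xy
          rw [hone] at this
          exact this
        · simp only [if_neg h, norm_zero]
          positivity
    have hb : ∀ n, |Φ k n (Lop p n f)| ≤ 2 * bd f / (k + 1 : ℕ) := by
      intro n
      simp only [hΦ, LinearMap.comp_apply]
      rw [Ces_Lop]
      rw [map_smul, smul_eq_mul, abs_mul]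
      have e1 : |(2 * (n : ℝ) + 1) / (((k + 1) * (2 * n + 1) : ℕ) : ℝ)| = 1 / ((k + 1 : ℕ) : ℝ) := by
        have h1 : (0 : ℝ) < 2 * (n : ℝ) + 1 := by positivity
        have h2 : (0 : ℝ) < ((k + 1 : ℕ) : ℝ) := by positivity
        rw [abs_of_nonneg (by positivity)]
        push_cast at h2 ⊢
        field_simp
      rw [e1]
      have e2 : |(cmp κ gr gr_loc) (((Q p n) ^ ((k + 1) * (2 * n + 1))) f - f)| ≤ 2 * bd f := by
        refine (cmp_isSt hκ gr gr_loc).abs_le_const (fun η => ?_)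
        have a1 := Qj_abs hp (n := n) (abs_le_bd f) ((k + 1) * (2 * n + 1)) η
        have a2 := abs_le_bd f η
        have a3 := abs_sub ((((Q p n) ^ ((k + 1) * (2 * n + 1))) f).1 η) (f.1 η)
        change |(((Q p n) ^ ((k + 1) * (2 * n + 1))) f).1 η - f.1 η| ≤ _
        linarith
      have h2 : (0 : ℝ) < ((k + 1 : ℕ) : ℝ) := by positivity
      rw [div_mul_eq_mul_div, one_mul]
      exact div_le_div_of_nonneg_right e2 h2.le
    have := hlim.abs
    exact le_of_tendsto this (Eventually.of_forall hb)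
  obtain ⟨ν, hνpos, hν⟩ := exists_ulim U Ψ hΨpos (fun k => (hΨ1 k).le)
  have hν1 : ν 1 = 1 := by
    refine tendsto_nhds_unique (hν 1) ?_
    exact tendsto_const_nhds.congr (fun n => (hΨ1 n).symm)
  have hstat : Stat p ν := by
    intro f
    have h1 := defect_limit hp U hΨpos (fun k => (hΨ1 k).le) hν f
    have h2 : Tendsto (fun k : ℕ => 2 * bd f / ((k + 1 : ℕ) : ℝ)) atTop (𝓝 0) := by
      exact (tendsto_natCast_atTop_atTop.comp (tendsto_add_atTop_nat 1)).const_div_atTop _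
    have h3 : Tendsto (fun k => ∑' xy : ℤ × ℤ, p (xy.2 - xy.1) * Ψ k (Tc xy.1 xy.2 f - f)) atTop
        (𝓝 0) := by
      rw [tendsto_zero_iff_norm_tendsto_zero]
      exact squeeze_zero (fun k => norm_nonneg _) (fun k => hdef k f) h2
    exact tendsto_nhds_unique h1 (h3.mono_left hUle)
  refine ⟨ν, mem_Inv ⟨hνpos, hν1⟩ hstat, fun f => ?_, fun f => ?_⟩
  · exact tendsto_nhds_unique (hν _) (tendsto_const_nhds.congr (fun k => (hΨm1 k f).symm))
  · exact tendsto_nhds_unique (hν _) (tendsto_const_nhds.congr (fun k => (hΨm2 k f).symm))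

end Helper78Excl
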