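import Mathlib

namespace Helper78Excl

open MeasureTheory Filter Topology

/-- The configuration after an attempted jump of a particle from `x` to `y`: the jump is carried
out when `x` is occupied and `y` is vacant, and nothing happens otherwise. -/
def jump (x y : ℤ) (η : ℤ → Bool) : ℤ → Bool :=
  if η x = true ∧ η y = false then Function.update (Function.update η x false) y true else η

/-- `f` depends on finitely many coordinates. -/
def IsCylinder (f : (ℤ → Bool) → ℝ) : Prop :=
  ∃ A : Finset ℤ, ∀ η ζ : ℤ → Bool, (∀ x ∈ A, η x = ζ x) → f η = f ζ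

/-- The generator of the exclusion process with step distribution `p`: a particle at `x` jumps to
`y` at rate `p (y - x)`, jumps to occupied sites being suppressed. -/
noncomputable def gen (p : ℤ → ℝ) (f : (ℤ → Bool) → ℝ) (η : ℤ → Bool) : ℝ :=
  ∑' xy : ℤ × ℤ, p (xy.2 - xy.1) * (f (jump xy.1 xy.2 η) - f η)

/-- `p` is a probability distribution on `ℤ` whose random walk is irreducible. -/
structure IsStep (p : ℤ → ℝ) : Prop where
  nonneg : ∀ k, 0 ≤ p k
  sum_one : HasSum p 1
  irreducible : ∀ x y : ℤ, Relation.ReflTransGen (fun a b : ℤ => 0 < p (b - a)) x y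

/-- Hypothesis (H): finite first moment, positive drift, infinite second moment of the left
tail. -/
structure IsH (p : ℤ → ℝ) : Prop where
  first : Summable (fun k : ℤ => |(k : ℝ)| * p k)
  drift : 0 < ∑' k : ℤ, (k : ℝ) * p k
  second : ¬ Summable (fun k : ℤ => if k < 0 then (k : ℝ) ^ 2 * p k else 0)

/-- A Markov semigroup on the continuous functions on `{0,1}^ℤ` which is a semigroup of the
exclusion process with step distribution `p`: its generator is `gen p` on cylinder functions. -/
structure IsExclusionSemigroup (p : ℤ → ℝ)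
    (P : ℝ → ((ℤ → Bool) → ℝ) → ((ℤ → Bool) → ℝ)) : Prop where
  cont : ∀ t, 0 ≤ t → ∀ f, Continuous f → Continuous (P t f)
  zero : ∀ f, Continuous f → P 0 f = f
  add : ∀ s t, 0 ≤ s → 0 ≤ t → ∀ f, Continuous f → P (s + t) f = P s (P t f)
  linear : ∀ t, 0 ≤ t → ∀ (a b : ℝ) (f g : (ℤ → Bool) → ℝ), Continuous f → Continuous g →
    P t (fun η => a * f η + b * g η) = fun η => a * P t f η + b * P t g η
  pos : ∀ t, 0 ≤ t → ∀ f, Continuous f → (∀ η, 0 ≤ f η) → ∀ η, 0 ≤ P t f η
  one : ∀ t, 0 ≤ t → P t (fun _ => 1) = fun _ => 1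
  generator : ∀ f, IsCylinder f → ∀ ε : ℝ, 0 < ε → ∃ δ : ℝ, 0 < δ ∧ ∀ t, 0 < t → t < δ →
    ∀ η, |(P t f η - f η) / t - gen p f η| ≤ ε

/-- The density of particles tends to `0` at `-∞` and to `1` at `+∞`. -/
def HasProfile (μ : Measure (ℤ → Bool)) : Prop :=
  Tendsto (fun x : ℤ => (μ {η | η x = true}).toReal) atBot (𝓝 0) ∧
  Tendsto (fun x : ℤ => (μ {η | η x = true}).toReal) atTop (𝓝 1)

end Helper78Excl
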