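import Pool.Agent.Helper78_Excl.Extreme

set_option backward.isDefEq.respectTransparency false

namespace Helper78Excl

open Finset Filter Topology

/-- function of the spin at one site -/
def site {S : Type} [Fintype S] (x : ℤ) (g : S → ℝ) : Cyl S :=
  ⟨fun η => g (η x), ⟨x.natAbs, fun η ζ h => by
    have h1 : η x = ζ x := h x (by rw [mem_box]; omega)
    change g (η x) = g (ζ x)
    rw [h1]⟩, ∑ s, |g s|, fun η =>
      Finset.single_le_sum (f := fun s => |g s|) (fun s _ => abs_nonneg _) (Finset.mem_univ (η x))⟩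

@[simp] lemma site_apply {S : Type} [Fintype S] (x : ℤ) (g : S → ℝ) (η : ℤ → S) :
    (site x g).1 η = g (η x) := rfl

/-- occupation variable -/
def occ (z : ℤ) : Cyl Bool := site z (fun s => if s = true then 1 else 0)

lemma occ_apply (z : ℤ) (η : ℤ → Bool) : (occ z).1 η = if η z = true then 1 else 0 := rfl

/-- indicator of the untypical occupation at a site -/
def wrong (z : ℤ) : Cyl Bool := site z (fun s => if s = decide (z ≤ 0) then 1 else 0)

lemma wrong_apply (z : ℤ) (η : ℤ → Bool) :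
    (wrong z).1 η = if η z = decide (z ≤ 0) then 1 else 0 := rfl

lemma wrong_nonneg (z : ℤ) (η : ℤ → Bool) : 0 ≤ (wrong z).1 η := by
  rw [wrong_apply]; split_ifs <;> norm_num

lemma wrong_shift {x : ℤ} (hx : x ≠ 0) : pull (sh 1) (sh_loc 1) (wrong x) = wrong (x + 1) := by
  apply Cyl.ext'; intro η
  rw [pull_apply, wrong_apply, wrong_apply]
  have : decide (x ≤ 0) = decide (x + 1 ≤ 0) := by
    rw [decide_eq_decide]; omega
  rw [this]
  rfl

/-- the test functions for weak blocking -/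
noncomputable def EE (j n : ℕ) : Cyl Bool :=
  ∑ i ∈ box (j + 1), (wrong ((n : ℤ) + i) + wrong (-((n : ℤ) + i)))

lemma EE_nonneg (j n : ℕ) (η : ℤ → Bool) : 0 ≤ (EE j n).1 η := by
  rw [EE, coe_sum_apply]
  exact Finset.sum_nonneg (fun i _ => add_nonneg (wrong_nonneg _ _) (wrong_nonneg _ _))

lemma wrong_le_EE {j n : ℕ} {z : ℤ} (h1 : (n : ℤ) - j - 1 ≤ |z|) (h2 : |z| ≤ n + j + 1)
    (η : ℤ → Bool) : (wrong z).1 η ≤ (EE j n).1 η := by
  rw [EE, coe_sum_apply]
  have hmem : |z| - n ∈ box (j + 1) := by rw [mem_box]; push_cast; omega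
  have hs := Finset.single_le_sum
    (f := fun i => (wrong ((n : ℤ) + i) + wrong (-((n : ℤ) + i)) : Cyl Bool).1 η)
    (fun i _ => add_nonneg (wrong_nonneg _ _) (wrong_nonneg _ _)) hmem
  refine le_trans ?_ hs
  have e : ((wrong ((n : ℤ) + (|z| - n)) + wrong (-((n : ℤ) + (|z| - n))) : Cyl Bool)).1 η
    = (wrong ((n : ℤ) + (|z| - n))).1 η + (wrong (-((n : ℤ) + (|z| - n)))).1 η := rfl
  rw [e, add_sub_cancel]
  have n1 := wrong_nonneg |z| η
  have n2 := wrong_nonneg (-|z|) η
  rcases abs_choice z with h | h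
  · rw [h] at n2 ⊢; linarith
  · rw [h, neg_neg] at n2 ⊢; rw [h] at n1; linarith

/-- plus discrepancy at `x`: the second configuration has an additional particle -/
def dp (x : ℤ) : Cyl (Bool × Bool) := site x (fun s => if s = (false, true) then 1 else 0)
/-- minus discrepancy at `x` -/
def dm (x : ℤ) : Cyl (Bool × Bool) := site x (fun s => if s = (true, false) then 1 else 0)
/-- discrepancy at `x` -/
def dc (x : ℤ) : Cyl (Bool × Bool) := site x (fun s => if s.1 = s.2 then 0 else 1)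

lemma dc_nonneg (x : ℤ) (η : ℤ → Bool × Bool) : 0 ≤ (dc x).1 η := by
  unfold dc; rw [site_apply]; split_ifs <;> norm_num

lemma dc_le_one (x : ℤ) (η : ℤ → Bool × Bool) : (dc x).1 η ≤ 1 := by
  unfold dc; rw [site_apply]; split_ifs <;> norm_num

lemma dc_le (x : ℤ) (η : ℤ → Bool × Bool) :
    (dc x).1 η ≤ (pull π1 π1_loc (wrong x) + pull π2 π2_loc (wrong x)).1 η := by
  change (if (η x).1 = (η x).2 then (0 : ℝ) else 1) ≤
    (if (η x).1 = decide (x ≤ 0) then 1 else 0) + (if (η x).2 = decide (x ≤ 0) then 1 else 0)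
  generalize decide (x ≤ 0) = b
  generalize (η x).1 = a1
  generalize (η x).2 = a2
  cases a1 <;> cases a2 <;> cases b <;> norm_num

/-- Crossing estimate for infinite sums. -/
lemma cross_tsum {p : ℤ → ℝ} (hp : Ker p) {n r : ℕ} {a G : ℤ → ℤ → ℝ} {δ C : ℝ}
    (hδ : 0 ≤ δ) (hC : 0 ≤ C)
    (hsum : Summable (fun xy : ℤ × ℤ => p (xy.2 - xy.1) * a xy.1 xy.2))
    (hin : ∀ x ∈ box n, ∀ y ∈ box n, a x y = 0)
    (hout : ∀ x, x ∉ box n → ∀ y, y ∉ box n → a x y = 0)
    (hG1 : ∀ x ∈ box n, ∀ y, y ∉ box n → |a x y| ≤ G x y)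
    (hG2 : ∀ x ∈ box n, ∀ y, y ∉ box n → |a y x| ≤ G x y)
    (h1 : ∀ x ∈ box n, ∀ y, y ∉ box n → G x y ≤ C)
    (h2 : ∀ x ∈ box n, ∀ y, y ∉ box n → |y - x| ≤ r → G x y ≤ δ) :
    |∑' xy : ℤ × ℤ, p (xy.2 - xy.1) * a xy.1 xy.2| ≤ 2 * (M1 p * δ + C * tl p r) := by
  have ht : Tendsto (fun m : ℕ => |∑ x ∈ box m, ∑ y ∈ box m, p (y - x) * a x y|)
      atTop (𝓝 |∑' xy : ℤ × ℤ, p (xy.2 - xy.1) * a xy.1 xy.2|) := by
    refine (hsum.hasSum.comp tendsto_box).abs.congr (fun m => ?_)
    simp only [Function.comp_apply]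
    rw [Finset.sum_product]
  refine le_of_tendsto ht ?_
  filter_upwards [eventually_ge_atTop n] with m hm
  have hsub := box_mono hm
  have hdec : ∑ x ∈ box m, ∑ y ∈ box m, p (y - x) * a x y
      = ∑ x ∈ box n, ∑ y ∈ box m \ box n, p (y - x) * a x y
        + ∑ x ∈ box m \ box n, ∑ y ∈ box n, p (y - x) * a x y := by
    rw [← Finset.sum_sdiff hsub]
    have e1 : ∀ x, ∑ y ∈ box m, p (y - x) * a x y
        = ∑ y ∈ box m \ box n, p (y - x) * a x y
          + ∑ y ∈ box n, p (y - x) * a x y := fun x =>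
      (Finset.sum_sdiff hsub).symm
    simp only [e1, Finset.sum_add_distrib]
    have e2 : ∑ x ∈ box m \ box n, ∑ y ∈ box m \ box n, p (y - x) * a x y = 0 := by
      refine Finset.sum_eq_zero (fun x hx => Finset.sum_eq_zero (fun y hy => ?_))
      rw [hout x (Finset.mem_sdiff.1 hx).2 y (Finset.mem_sdiff.1 hy).2, mul_zero]
    have e3 : ∑ x ∈ box n, ∑ y ∈ box n, p (y - x) * a x y = 0 := by
      refine Finset.sum_eq_zero (fun x hx => Finset.sum_eq_zero (fun y hy => ?_))
      rw [hin x hx y hy, mul_zero]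
    rw [e2, e3]
    ring
  have b1 : |∑ x ∈ box n, ∑ y ∈ box m \ box n, p (y - x) * a x y|
      ≤ M1 p * δ + C * tl p r := by
    refine (Finset.abs_sum_le_sum_abs _ _).trans ?_
    refine le_trans (Finset.sum_le_sum (fun x hx => ?_)) (cross_bound hp hδ hC h1 h2 m)
    refine (Finset.abs_sum_le_sum_abs _ _).trans ?_
    refine Finset.sum_le_sum (fun y hy => ?_)
    rw [abs_mul, abs_of_nonneg (hp.nonneg _)]
    exact mul_le_mul_of_nonneg_left (hG1 x hx y (Finset.mem_sdiff.1 hy).2) (hp.nonneg _)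
  have b2 : |∑ x ∈ box m \ box n, ∑ y ∈ box n, p (y - x) * a x y|
      ≤ M1 p * δ + C * tl p r := by
    rw [Finset.sum_comm]
    refine (Finset.abs_sum_le_sum_abs _ _).trans ?_
    have := cross_bound hp.neg hδ hC h1 h2 m
    rw [M1_neg, tl_neg] at this
    refine le_trans (Finset.sum_le_sum (fun x hx => ?_)) this
    refine (Finset.abs_sum_le_sum_abs _ _).trans ?_
    refine Finset.sum_le_sum (fun y hy => ?_)
    rw [abs_mul, abs_of_nonneg (hp.nonneg _), neg_sub]
    exact mul_le_mul_of_nonneg_left (hG2 x hx y (Finset.mem_sdiff.1 hy).2) (hp.nonneg _)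
  rw [hdec]
  refine (abs_add_le _ _).trans ?_
  linarith

section pointwise
variable {S : Type} [Lattice S]

/-- change of an additive functional under a move inside the box -/
lemma sum_T_in (g : S → ℝ) {n : ℕ} {x y : ℤ} (hx : x ∈ box n) (hy : y ∈ box n) (hxy : x ≠ y)
    (η : ℤ → S) : ∑ z ∈ box n, g (T x y η z) - ∑ z ∈ box n, g (η z)
      = g (η x ⊓ η y) + g (η x ⊔ η y) - g (η x) - g (η y) := by
  rw [← Finset.sum_sub_distrib, ← Finset.sum_subset (s₁ := {x, y})]
  · rw [Finset.sum_pair hxy, T_left hxy, T_right]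
    ring
  · intro z hz
    rw [Finset.mem_insert, Finset.mem_singleton] at hz
    rcases hz with rfl | rfl <;> assumption
  · intro z _ hz
    rw [Finset.mem_insert, Finset.mem_singleton, not_or] at hz
    rw [T_of_ne hz.1 hz.2, sub_self]

lemma sum_T_out (g : S → ℝ) {n : ℕ} {x y : ℤ} (hx : x ∈ box n) (hy : y ∉ box n)
    (η : ℤ → S) : ∑ z ∈ box n, g (T x y η z) - ∑ z ∈ box n, g (η z)
      = g (η x ⊓ η y) - g (η x) := by
  have hxy : x ≠ y := by rintro rfl; exact hy hx
  rw [← Finset.sum_sub_distrib, ← Finset.sum_subset (s₁ := {x})]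
  · rw [Finset.sum_singleton, T_left hxy]
  · intro z hz
    rw [Finset.mem_singleton] at hz
    subst hz; exact hx
  · intro z hz1 hz
    rw [Finset.mem_singleton] at hz
    have : z ≠ y := by rintro rfl; exact hy hz1
    rw [T_of_ne hz this, sub_self]

lemma sum_T_out' (g : S → ℝ) {n : ℕ} {x y : ℤ} (hx : x ∈ box n) (hy : y ∉ box n)
    (η : ℤ → S) : ∑ z ∈ box n, g (T y x η z) - ∑ z ∈ box n, g (η z)
      = g (η y ⊔ η x) - g (η x) := by
  have hxy : x ≠ y := by rintro rfl; exact hy hx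
  rw [← Finset.sum_sub_distrib, ← Finset.sum_subset (s₁ := {x})]
  · rw [Finset.sum_singleton, T_right]
  · intro z hz
    rw [Finset.mem_singleton] at hz
    subst hz; exact hx
  · intro z hz1 hz
    rw [Finset.mem_singleton] at hz
    have : z ≠ y := by rintro rfl; exact hy hz1
    rw [T_of_ne this hz, sub_self]

end pointwise

/-- discrepancy indicator on spins -/
def gd (s : Bool × Bool) : ℝ := if s.1 = s.2 then 0 else 1
/-- spin indicator -/
def gi (s t : Bool × Bool) : ℝ := if t = s then 1 else 0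

/-- number of discrepancies -/
noncomputable def hn (n : ℕ) : Cyl (Bool × Bool) := ∑ x ∈ box n, dc x

lemma hn_apply (n : ℕ) (η : ℤ → Bool × Bool) :
    (hn n).1 η = ∑ x ∈ box n, gd (η x) := by
  rw [hn, coe_sum_apply]
  rfl

lemma hn_dep (n : ℕ) : Dep n (hn n).1 := by
  intro η ζ h
  rw [hn_apply, hn_apply]
  exact Finset.sum_congr rfl (fun x hx => by rw [h x hx])

/-- opposite discrepancies -/
def op (x y : ℤ) : Cyl (Bool × Bool) := dp x * dm y + dm x * dp y

lemma op_apply (x y : ℤ) (η : ℤ → Bool × Bool) : (op x y).1 η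
    = (if η x = (false, true) then 1 else 0) * (if η y = (true, false) then 1 else 0)
      + (if η x = (true, false) then 1 else 0) * (if η y = (false, true) then 1 else 0) := rfl

lemma op_nonneg (x y : ℤ) (η : ℤ → Bool × Bool) : 0 ≤ (op x y).1 η := by
  rw [op_apply]; split_ifs <;> norm_num

lemma hn_T_in {n : ℕ} {x y : ℤ} (hx : x ∈ box n) (hy : y ∈ box n) :
    Tc x y (hn n) - hn n = (-2 : ℝ) • op x y := by
  apply Cyl.ext'; intro η
  change (hn n).1 (T x y η) - (hn n).1 η = -2 * (op x y).1 η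
  by_cases hxy : x = y
  · subst hxy
    rw [T_self, sub_self, op_apply]
    generalize η x = a
    rcases a with ⟨a1, a2⟩
    cases a1 <;> cases a2 <;> norm_num
  · rw [hn_apply, hn_apply, sum_T_in gd hx hy hxy, op_apply]
    unfold gd
    generalize η x = a
    generalize η y = b
    rcases a with ⟨a1, a2⟩
    rcases b with ⟨b1, b2⟩
    cases a1 <;> cases a2 <;> cases b1 <;> cases b2 <;> norm_num

lemma hn_T_out {n : ℕ} {x y : ℤ} (hx : x ∈ box n) (hy : y ∉ box n) (η : ℤ → Bool × Bool) :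
    |(Tc x y (hn n) - hn n).1 η| ≤ (dc x + dc y).1 η := by
  change |(hn n).1 (T x y η) - (hn n).1 η| ≤
    (if (η x).1 = (η x).2 then (0 : ℝ) else 1) + (if (η y).1 = (η y).2 then (0 : ℝ) else 1)
  rw [hn_apply, hn_apply, sum_T_out gd hx hy]
  unfold gd
  generalize η x = a
  generalize η y = b
  rcases a with ⟨a1, a2⟩
  rcases b with ⟨b1, b2⟩
  cases a1 <;> cases a2 <;> cases b1 <;> cases b2 <;> norm_num

lemma hn_T_out' {n : ℕ} {x y : ℤ} (hx : x ∈ box n) (hy : y ∉ box n) (η : ℤ → Bool × Bool) :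
    |(Tc y x (hn n) - hn n).1 η| ≤ (dc x + dc y).1 η := by
  change |(hn n).1 (T y x η) - (hn n).1 η| ≤
    (if (η x).1 = (η x).2 then (0 : ℝ) else 1) + (if (η y).1 = (η y).2 then (0 : ℝ) else 1)
  rw [hn_apply, hn_apply, sum_T_out' gd hx hy]
  unfold gd
  generalize η x = a
  generalize η y = b
  rcases a with ⟨a1, a2⟩
  rcases b with ⟨b1, b2⟩
  cases a1 <;> cases a2 <;> cases b1 <;> cases b2 <;> norm_num

/-- number of sites in the box with a given spin -/
noncomputable def cnt (s : Bool × Bool) (n : ℕ) (η : ℤ → Bool × Bool) : ℕ :=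
  ((box n).filter (fun x => η x = s)).card

lemma cnt_eq (s : Bool × Bool) (n : ℕ) (η : ℤ → Bool × Bool) :
    (cnt s n η : ℝ) = ∑ x ∈ box n, gi s (η x) := by
  rw [cnt, Finset.card_filter]
  push_cast
  rfl

lemma cnt_mono (s : Bool × Bool) {m n : ℕ} (h : m ≤ n) (η : ℤ → Bool × Bool) :
    cnt s m η ≤ cnt s n η :=
  Finset.card_le_card (Finset.filter_subset_filter _ (box_mono h))

/-- indicator of at least `k` discrepancies of type `s` in the box -/
noncomputable def chi (s : Bool × Bool) (n k : ℕ) : Cyl (Bool × Bool) :=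
  ⟨fun η => if k ≤ cnt s n η then 1 else 0, ⟨n, fun η ζ h => by
    have : cnt s n η = cnt s n ζ := by
      unfold cnt
      congr 1
      exact Finset.filter_congr (fun x hx => by rw [h x hx])
    simp only [this]⟩, 1, fun η => by
      change |if k ≤ cnt s n η then (1 : ℝ) else 0| ≤ 1
      split_ifs <;> norm_num⟩

lemma chi_apply (s : Bool × Bool) (n k : ℕ) (η : ℤ → Bool × Bool) :
    (chi s n k).1 η = if k ≤ cnt s n η then 1 else 0 := rfl

lemma chi_dep (s : Bool × Bool) (n k : ℕ) : Dep n (chi s n k).1 := by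
  intro η ζ h
  have : cnt s n η = cnt s n ζ := by
    unfold cnt
    congr 1
    exact Finset.filter_congr (fun x hx => by rw [h x hx])
  rw [chi_apply, chi_apply, this]

lemma chi_nonneg (s : Bool × Bool) (n k : ℕ) (η : ℤ → Bool × Bool) : 0 ≤ (chi s n k).1 η := by
  rw [chi_apply]; split_ifs <;> norm_num

lemma chi_le_one (s : Bool × Bool) (n k : ℕ) (η : ℤ → Bool × Bool) : (chi s n k).1 η ≤ 1 := by
  rw [chi_apply]; split_ifs <;> norm_num

lemma chi_sub_abs (s : Bool × Bool) (n k : ℕ) (η ζ : ℤ → Bool × Bool) :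
    |(chi s n k).1 η - (chi s n k).1 ζ| ≤ 1 := by
  rw [abs_le]
  constructor <;> linarith [chi_nonneg s n k η, chi_nonneg s n k ζ, chi_le_one s n k η,
    chi_le_one s n k ζ]

lemma chi_eq_of_cnt {s : Bool × Bool} {n : ℕ} (k : ℕ) {η ζ : ℤ → Bool × Bool}
    (h : (cnt s n η : ℝ) - cnt s n ζ = 0) : (chi s n k).1 η = (chi s n k).1 ζ := by
  have h2 : (cnt s n η : ℝ) = cnt s n ζ := by linarith
  have h3 : cnt s n η = cnt s n ζ := by exact_mod_cast h2
  rw [chi_apply, chi_apply, h3]

/-- admissible discrepancy types -/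
def IsDisc (s : Bool × Bool) : Prop := s = (false, true) ∨ s = (true, false)

lemma chi_T_in {s : Bool × Bool} (hs : IsDisc s) {n : ℕ} (k : ℕ) {x y : ℤ} (hx : x ∈ box n)
    (hy : y ∈ box n) (η : ℤ → Bool × Bool) :
    |(Tc x y (chi s n k) - chi s n k).1 η| ≤ (op x y).1 η := by
  change |(chi s n k).1 (T x y η) - (chi s n k).1 η| ≤ (op x y).1 η
  by_cases hxy : x = y
  · subst hxy
    rw [T_self, sub_self, abs_zero]
    exact op_nonneg _ _ _
  · by_cases ho : 1 ≤ (op x y).1 η
    · exact (chi_sub_abs _ _ _ _ _).trans ho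
    · have h0 : (chi s n k).1 (T x y η) = (chi s n k).1 η := by
        apply chi_eq_of_cnt
        rw [cnt_eq, cnt_eq, sum_T_in (gi s) hx hy hxy]
        unfold gi
        rw [op_apply] at ho
        revert ho
        generalize η x = a
        generalize η y = b
        rcases a with ⟨a1, a2⟩
        rcases b with ⟨b1, b2⟩
        rcases hs with rfl | rfl <;>
        cases a1 <;> cases a2 <;> cases b1 <;> cases b2 <;> norm_num
      rw [h0, sub_self, abs_zero]
      exact op_nonneg _ _ _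

lemma chi_T_out {s : Bool × Bool} (hs : IsDisc s) {n : ℕ} (k : ℕ) {x y : ℤ} (hx : x ∈ box n)
    (hy : y ∉ box n) (η : ℤ → Bool × Bool) :
    |(Tc x y (chi s n k) - chi s n k).1 η| ≤ (dc x + dc y).1 η := by
  change |(chi s n k).1 (T x y η) - (chi s n k).1 η| ≤ (dc x).1 η + (dc y).1 η
  have n1 := dc_nonneg x η
  have n2 := dc_nonneg y η
  by_cases ho : 1 ≤ (dc x).1 η + (dc y).1 η
  · exact (chi_sub_abs _ _ _ _ _).trans ho
  · have h0 : (chi s n k).1 (T x y η) = (chi s n k).1 η := by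
      apply chi_eq_of_cnt
      rw [cnt_eq, cnt_eq, sum_T_out (gi s) hx hy]
      unfold gi
      change ¬ (1 ≤ (if (η x).1 = (η x).2 then (0 : ℝ) else 1) +
        (if (η y).1 = (η y).2 then (0 : ℝ) else 1)) at ho
      revert ho
      generalize η x = a
      generalize η y = b
      rcases a with ⟨a1, a2⟩
      rcases b with ⟨b1, b2⟩
      rcases hs with rfl | rfl <;>
      cases a1 <;> cases a2 <;> cases b1 <;> cases b2 <;> norm_num
    rw [h0, sub_self, abs_zero]
    linarith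

lemma chi_T_out' {s : Bool × Bool} (hs : IsDisc s) {n : ℕ} (k : ℕ) {x y : ℤ} (hx : x ∈ box n)
    (hy : y ∉ box n) (η : ℤ → Bool × Bool) :
    |(Tc y x (chi s n k) - chi s n k).1 η| ≤ (dc x + dc y).1 η := by
  change |(chi s n k).1 (T y x η) - (chi s n k).1 η| ≤ (dc x).1 η + (dc y).1 η
  have n1 := dc_nonneg x η
  have n2 := dc_nonneg y η
  by_cases ho : 1 ≤ (dc x).1 η + (dc y).1 η
  · exact (chi_sub_abs _ _ _ _ _).trans ho
  · have h0 : (chi s n k).1 (T y x η) = (chi s n k).1 η := by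
      apply chi_eq_of_cnt
      rw [cnt_eq, cnt_eq, sum_T_out' (gi s) hx hy]
      unfold gi
      change ¬ (1 ≤ (if (η x).1 = (η x).2 then (0 : ℝ) else 1) +
        (if (η y).1 = (η y).2 then (0 : ℝ) else 1)) at ho
      revert ho
      generalize η x = a
      generalize η y = b
      rcases a with ⟨a1, a2⟩
      rcases b with ⟨b1, b2⟩
      rcases hs with rfl | rfl <;>
      cases a1 <;> cases a2 <;> cases b1 <;> cases b2 <;> norm_num
    rw [h0, sub_self, abs_zero]
    linarith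

end Helper78Excl
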