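import Pool.Agent.Helper78_Excl.Structure

set_option backward.isDefEq.respectTransparency false

namespace Helper78Excl

open Finset Filter Topology

/-- number of particles in the window -/
noncomputable def win (R : ℕ) : Cyl Bool := ∑ x ∈ box R, occ x

/-- indicator value -/
def gv (b : Bool) : ℝ := if b = true then 1 else 0

lemma gv_nonneg (b : Bool) : 0 ≤ gv b := by cases b <;> norm_num [gv]
lemma gv_le_one (b : Bool) : gv b ≤ 1 := by cases b <;> norm_num [gv]

lemma win_apply (R : ℕ) (η : ℤ → Bool) : (win R).1 η = ∑ x ∈ box R, gv (η x) := by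
  rw [win, coe_sum_apply]
  rfl

lemma win_dep (R : ℕ) : Dep R (win R).1 := by
  intro η ζ h
  rw [win_apply, win_apply]
  exact Finset.sum_congr rfl (fun x hx => by rw [h x hx])

lemma win_nonneg (R : ℕ) (η : ℤ → Bool) : 0 ≤ (win R).1 η := by
  rw [win_apply]
  exact Finset.sum_nonneg (fun x _ => gv_nonneg _)

lemma win_le (R : ℕ) (η : ℤ → Bool) : (win R).1 η ≤ 2 * R + 1 := by
  rw [win_apply]
  refine (Finset.sum_le_sum (fun x _ => gv_le_one (η x))).trans ?_
  rw [Finset.sum_const, card_box, nsmul_eq_mul, mul_one]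
  push_cast
  exact le_rfl

lemma win_mono (R : ℕ) (η ζ : ℤ → Bool) (h : η ≤ ζ) : (win R).1 η ≤ (win R).1 ζ := by
  rw [win_apply, win_apply]
  refine Finset.sum_le_sum (fun x _ => ?_)
  have := h x
  revert this
  generalize η x = a
  generalize ζ x = b
  cases a <;> cases b <;> simp [gv]

lemma win_infl (R : ℕ) : Infl (win R).1 (fun _ => 1) := by
  intro z η v
  rw [win_apply, win_apply, ← Finset.sum_sub_distrib]
  by_cases hz : z ∈ box R
  · rw [← Finset.sum_subset (s₁ := {z}) (by intro w hw; rw [Finset.mem_singleton] at hw; rwa [hw])]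
    · rw [Finset.sum_singleton, Function.update_self]
      have := gv_nonneg v
      have := gv_le_one v
      have := gv_nonneg (η z)
      have := gv_le_one (η z)
      rw [abs_le]; constructor <;> linarith
    · intro w _ hw
      rw [Finset.mem_singleton] at hw
      rw [Function.update_of_ne hw, sub_self]
  · rw [Finset.sum_eq_zero, abs_zero]
    · norm_num
    · intro w hw
      have : w ≠ z := by rintro rfl; exact hz hw
      rw [Function.update_of_ne this, sub_self]

lemma upd_loc (x : ℤ) (v : Bool) : Loc (fun η : ℤ → Bool => Function.update η x v) := by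
  intro n
  refine ⟨n, fun η ζ h z hz => ?_⟩
  dsimp only
  by_cases hzx : z = x
  · subst hzx; simp
  · rw [Function.update_of_ne hzx, Function.update_of_ne hzx, h z hz]

/-- discrete derivative -/
def D (x : ℤ) (u : Cyl Bool) : Cyl Bool := pull _ (upd_loc x true) u - pull _ (upd_loc x false) u

lemma D_apply (x : ℤ) (u : Cyl Bool) (η : ℤ → Bool) :
    (D x u).1 η = u.1 (Function.update η x true) - u.1 (Function.update η x false) := rfl

lemma D_nonneg {u : Cyl Bool} (hu : ∀ η ζ, η ≤ ζ → u.1 η ≤ u.1 ζ) (x : ℤ) (η : ℤ → Bool) :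
    0 ≤ (D x u).1 η := by
  rw [D_apply, sub_nonneg]
  apply hu
  intro z
  by_cases hzx : z = x
  · subst hzx; simp
  · rw [Function.update_of_ne hzx, Function.update_of_ne hzx]

lemma D_le {u : Cyl Bool} {g : ℤ → ℝ} (hu : Infl u.1 g) (x : ℤ) (η : ℤ → Bool) :
    (D x u).1 η ≤ g x := by
  rw [D_apply]
  have := hu x (Function.update η x false) true
  rw [Function.update_idem] at this
  exact (le_abs_self _).trans this

/-- The properties of the test function which we use. -/
structure Test (p : ℤ → ℝ) (n R K : ℕ) (u : Cyl Bool) : Prop where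
  dep : Dep n u.1
  mono : ∀ η ζ, η ≤ ζ → u.1 η ≤ u.1 ζ
  infl : Infl u.1 (prof p R K 1)

lemma Test.D0 {p : ℤ → ℝ} {n R K : ℕ} {u : Cyl Bool} (h : Test p n R K u) (x : ℤ)
    (η : ℤ → Bool) : 0 ≤ (D x u).1 η := D_nonneg h.mono x η

lemma Test.D1 {p : ℤ → ℝ} {n R K : ℕ} {u : Cyl Bool} (h : Test p n R K u) (x : ℤ)
    (η : ℤ → Bool) : (D x u).1 η ≤ 1 := (D_le h.infl x η).trans (prof_le _ _ _ _ _)

lemma test_Ces {p : ℤ → ℝ} (hp : Ker p) {n R K : ℕ} (hK : 0 < K) (hn : R ≤ n) :
    Test p n R K (Ces p n (K * (2 * n + 1)) (win R)) where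
  dep := Ces_dep ((win_dep R).mono hn) _
  mono := Ces_mono hp (win_mono R) _
  infl := Infl_Ces hp hK zero_le_one (win_dep R) (win_infl R)

namespace Setup

variable {p : ℤ → ℝ} (s : Setup p)

/-- the bad set -/
noncomputable def bad (n : ℕ) : Cyl (Bool × Bool) :=
  ∑ x ∈ box n, dm x + ∑ x ∈ box n, ∑ y ∈ (box n).filter (fun y => y ≠ x), dp x * dp y

lemma bad_zero (n : ℕ) : s.N (bad n) = 0 := by
  unfold bad
  rw [map_add, map_sum, map_sum, Finset.sum_eq_zero (fun x _ => s.dm_zero x), zero_add]
  refine Finset.sum_eq_zero (fun x _ => ?_)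
  rw [map_sum]
  refine Finset.sum_eq_zero (fun y hy => ?_)
  exact s.dpdp_zero (Ne.symm (Finset.mem_filter.1 hy).2)

/-- good configurations -/
def IsGood (n : ℕ) (η : ℤ → Bool × Bool) : Prop :=
  (∀ x ∈ box n, η x ≠ (true, false)) ∧
  (∀ x ∈ box n, ∀ y ∈ box n, x ≠ y → η x = (false, true) → η y ≠ (false, true))

lemma bad_ge_one {n : ℕ} {η : ℤ → Bool × Bool} (h : ¬ IsGood n η) : 1 ≤ (bad n).1 η := by
  have n1 : ∀ x ∈ box n, 0 ≤ (dm x).1 η := fun x _ => dm_nonneg x η
  have n2 : ∀ x ∈ box n, 0 ≤ (∑ y ∈ (box n).filter (fun y => y ≠ x), dp x * dp y).1 η := by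
    intro x _
    rw [coe_sum_apply]
    exact Finset.sum_nonneg (fun y _ => mul_nonneg (dp_nonneg x η) (dp_nonneg y η))
  have e : (bad n).1 η = ∑ x ∈ box n, (dm x).1 η +
      ∑ x ∈ box n, (∑ y ∈ (box n).filter (fun y => y ≠ x), dp x * dp y).1 η := by
    unfold bad
    rw [← coe_sum_apply, ← coe_sum_apply]
    rfl
  rw [e]
  unfold IsGood at h
  rw [not_and_or] at h
  rcases h with h | h
  · push Not at h
    obtain ⟨x, hx, hx2⟩ := h
    have h1 : (dm x).1 η = 1 := by unfold dm; rw [site_apply, if_pos hx2]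
    have h2 := Finset.single_le_sum n1 hx
    rw [h1] at h2
    have h3 := Finset.sum_nonneg n2
    linarith
  · push Not at h
    obtain ⟨x, hx, y, hy, hxy, hx2, hy2⟩ := h
    have h1 : (dp x * dp y).1 η = 1 := by
      change (dp x).1 η * (dp y).1 η = 1
      unfold dp; rw [site_apply, site_apply, if_pos hx2, if_pos hy2, mul_one]
    have h2 := Finset.single_le_sum n2 hx
    have h3 := Finset.sum_nonneg n1
    have h4 : (dp x * dp y).1 η ≤ (∑ y ∈ (box n).filter (fun y => y ≠ x), dp x * dp y).1 η := by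
      rw [coe_sum_apply]
      exact Finset.single_le_sum (f := fun y => (dp x * dp y).1 η)
        (fun y _ => mul_nonneg (dp_nonneg x η) (dp_nonneg y η))
        (Finset.mem_filter.2 ⟨hy, Ne.symm hxy⟩)
    rw [h1] at h4
    linarith

lemma bad_nonneg (n : ℕ) (η : ℤ → Bool × Bool) : 0 ≤ (bad n).1 η := by
  have e : (bad n).1 η = ∑ x ∈ box n, (dm x).1 η +
      ∑ x ∈ box n, (∑ y ∈ (box n).filter (fun y => y ≠ x), dp x * dp y).1 η := by
    unfold bad
    rw [← coe_sum_apply, ← coe_sum_apply]
    rfl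
  rw [e]
  refine add_nonneg (Finset.sum_nonneg (fun x _ => dm_nonneg x η))
    (Finset.sum_nonneg (fun x _ => ?_))
  rw [coe_sum_apply]
  exact Finset.sum_nonneg (fun y _ => mul_nonneg (dp_nonneg x η) (dp_nonneg y η))

/-- inequalities need only be checked on good configurations -/
lemma good_mono (n : ℕ) {f g : Cyl (Bool × Bool)} (h : ∀ η, IsGood n η → f.1 η ≤ g.1 η) :
    s.N f ≤ s.N g := by
  have h1 : s.N f ≤ s.N (g + (bd f + bd g) • bad n) := by
    refine s.N_st.pos.mono (fun η => ?_)
    change f.1 η ≤ g.1 η + (bd f + bd g) * (bad n).1 η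
    have b1 := bd_nonneg f
    have b2 := bd_nonneg g
    by_cases hg : IsGood n η
    · have := h η hg
      have h3 : 0 ≤ (bd f + bd g) * (bad n).1 η := mul_nonneg (by linarith) (bad_nonneg n η)
      linarith
    · have h2 := bad_ge_one hg
      have h3 := (abs_le.1 (abs_le_bd f η)).2
      have h4 := (abs_le.1 (abs_le_bd g η)).1
      nlinarith
  rw [map_add, map_smul, s.bad_zero, smul_zero, add_zero] at h1
  exact h1

/-- A good configuration with a plus discrepancy at `w`. -/
lemma good_eq {n : ℕ} {η : ℤ → Bool × Bool} (h : IsGood n η) {w : ℤ} (hw : w ∈ box n)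
    (hp : η w = (false, true)) : ∀ z ∈ box n, π2 η z = Function.update (π1 η) w true z := by
  intro z hz
  by_cases hzw : z = w
  · subst hzw
    rw [Function.update_self]
    simp [π2, hp]
  · rw [Function.update_of_ne hzw]
    have h1 := h.1 z hz
    have h2 := h.2 w hw z hz (Ne.symm hzw) hp
    unfold π1 π2
    revert h1 h2
    generalize η z = a
    rcases a with ⟨a1, a2⟩
    cases a1 <;> cases a2 <;> simp

lemma good_eq_none {n : ℕ} {η : ℤ → Bool × Bool} (h : IsGood n η)
    (hp : ∀ w ∈ box n, η w ≠ (false, true)) : ∀ z ∈ box n, π2 η z = π1 η z := by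
  intro z hz
  have h1 := h.1 z hz
  have h2 := hp z hz
  unfold π1 π2
  revert h1 h2
  generalize η z = a
  rcases a with ⟨a1, a2⟩
  cases a1 <;> cases a2 <;> simp

/-- lift to the first marginal -/
def l1 (f : Cyl Bool) : Cyl (Bool × Bool) := pull π1 π1_loc f
/-- lift to the second marginal -/
def l2 (f : Cyl Bool) : Cyl (Bool × Bool) := pull π2 π2_loc f

lemma l1_apply (f : Cyl Bool) (η : ℤ → Bool × Bool) : (l1 f).1 η = f.1 (π1 η) := rfl
lemma l2_apply (f : Cyl Bool) (η : ℤ → Bool × Bool) : (l2 f).1 η = f.1 (π2 η) := rfl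

/-- the discrepancy number in the window -/
noncomputable def dw (R : ℕ) : Cyl (Bool × Bool) := ∑ w ∈ box R, dp w

lemma sum_single {R : ℕ} (g : ℤ → ℝ) {w : ℤ} (hw : w ∈ box R) (η : ℤ → Bool × Bool)
    (hw2 : η w = (false, true)) (ho : ∀ z ∈ box R, z ≠ w → η z ≠ (false, true)) :
    ∑ z ∈ box R, (dp z).1 η * g z = g w := by
  rw [Finset.sum_eq_single_of_mem w hw]
  · unfold dp; rw [site_apply, if_pos hw2, one_mul]
  · intro z hz hzw
    unfold dp; rw [site_apply, if_neg (ho z hz hzw), zero_mul]

lemma sum_none {R : ℕ} (g : ℤ → ℝ) (η : ℤ → Bool × Bool)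
    (ho : ∀ z ∈ box R, η z ≠ (false, true)) :
    ∑ z ∈ box R, (dp z).1 η * g z = 0 := by
  refine Finset.sum_eq_zero (fun z hz => ?_)
  unfold dp; rw [site_apply, if_neg (ho z hz), zero_mul]

/-- First consequence: the derivative at the discrepancy is close to one. -/
lemma deriv_close {n R K : ℕ} {u : Cyl Bool} (hu : Test p n R K u) (hRn : R ≤ n) :
    s.N (l2 u) - s.N (l1 u) ≤ ∑ w ∈ box R, s.N (dp w * l1 (D w u)) + (1 - s.N (dw R)) := by
  have h1 : s.N (l2 u - l1 u) ≤ s.N (∑ w ∈ box R, dp w * l1 (D w u) + (1 - dw R)) := by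
    refine s.good_mono n (fun η hg => ?_)
    have e1 : (∑ w ∈ box R, dp w * l1 (D w u) + (1 - dw R)).1 η
        = ∑ w ∈ box R, (dp w).1 η * (D w u).1 (π1 η) + (1 - ∑ w ∈ box R, (dp w).1 η * 1) := by
      have a1 : (∑ w ∈ box R, dp w * l1 (D w u) : Cyl (Bool × Bool)).1 η
          = ∑ w ∈ box R, (dp w).1 η * (D w u).1 (π1 η) := by
        rw [coe_sum_apply]; rfl
      have a2 : (dw R).1 η = ∑ w ∈ box R, (dp w).1 η * 1 := by
        rw [dw, coe_sum_apply]; simp only [mul_one]
      rw [← a1, ← a2]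
      rfl
    rw [e1]
    change u.1 (π2 η) - u.1 (π1 η) ≤ _
    by_cases hex : ∃ w ∈ box n, η w = (false, true)
    · obtain ⟨w, hw, hw2⟩ := hex
      have hu2 : u.1 (π2 η) = u.1 (Function.update (π1 η) w true) :=
        hu.dep _ _ (good_eq hg hw hw2)
      have hu1 : u.1 (π1 η) = u.1 (Function.update (π1 η) w false) := by
        have : π1 η w = false := by simp [π1, hw2]
        rw [← this, Function.update_eq_self]
      have hD : u.1 (π2 η) - u.1 (π1 η) = (D w u).1 (π1 η) := by
        rw [D_apply, ← hu1, hu2]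
      rw [hD]
      have ho : ∀ z ∈ box n, z ≠ w → η z ≠ (false, true) := fun z hz hzw =>
        hg.2 w hw z hz (Ne.symm hzw) hw2
      by_cases hwR : w ∈ box R
      · rw [sum_single (fun w => (D w u).1 (π1 η)) hwR η hw2
          (fun z hz hzw => ho z (box_mono hRn hz) hzw),
          sum_single (fun _ => 1) hwR η hw2 (fun z hz hzw => ho z (box_mono hRn hz) hzw)]
        linarith
      · have hno : ∀ z ∈ box R, η z ≠ (false, true) := fun z hz =>
          ho z (box_mono hRn hz) (by rintro rfl; exact hwR hz)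
        rw [sum_none (fun w => (D w u).1 (π1 η)) η hno, sum_none (fun _ => 1) η hno]
        have := hu.D1 w (π1 η)
        linarith
    · push Not at hex
      have hno : ∀ z ∈ box R, η z ≠ (false, true) := fun z hz => hex z (box_mono hRn hz)
      rw [sum_none (fun w => (D w u).1 (π1 η)) η hno, sum_none (fun _ => 1) η hno,
        hu.dep _ _ (good_eq_none hg hex)]
      norm_num
  rw [map_sub, map_add, map_sum, map_sub, s.N_st.one] at h1
  exact h1

/-- vacancy indicator -/
def vac (y : ℤ) : Cyl Bool := 1 - occ y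

lemma vac_apply (y : ℤ) (η : ℤ → Bool) : (vac y).1 η = 1 - gv (η y) := rfl

lemma vac_nonneg (y : ℤ) (η : ℤ → Bool) : 0 ≤ (vac y).1 η := by
  rw [vac_apply]; linarith [gv_le_one (η y)]

lemma vac_le_one (y : ℤ) (η : ℤ → Bool) : (vac y).1 η ≤ 1 := by
  rw [vac_apply]; linarith [gv_nonneg (η y)]

/-- Second consequence: comparison with the energy of the upper marginal. -/
lemma energy_upper {n R K : ℕ} {u : Cyl Bool} (hu : Test p n R K u) {w y : ℤ}
    (hw : w ∈ box n) (hy : y ∈ box n) (hwy : w ≠ y) :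
    s.N (dp w * l1 (vac y * (D w u - D y u) ^ 2)) ≤ s.N (l2 ((Tc w y u - u) ^ 2)) := by
  refine s.good_mono n (fun η hg => ?_)
  change (dp w).1 η * ((vac y).1 (π1 η) * ((D w u).1 (π1 η) - (D y u).1 (π1 η)) ^ 2)
    ≤ (u.1 (T w y (π2 η)) - u.1 (π2 η)) ^ 2
  by_cases hw2 : η w = (false, true)
  · by_cases hy2 : π1 η y = false
    · have hE := good_eq hg hw hw2
      have e1 : u.1 (π2 η) = u.1 (Function.update (π1 η) w true) := hu.dep _ _ hE
      have hπw : π1 η w = false := by simp [π1, hw2]
      have e2 : u.1 (T w y (π2 η)) = u.1 (Function.update (π1 η) y true) := by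
        apply hu.dep
        intro z hz
        have hzE := hE z hz
        have hyE := hE y hy
        have hwE := hE w hw
        rw [Function.update_of_ne (Ne.symm hwy)] at hyE
        rw [Function.update_self] at hwE
        by_cases h1 : z = y
        · subst h1
          rw [T_right, hwE, hyE, hy2, Function.update_self]
          rfl
        · by_cases h2 : z = w
          · subst h2
            rw [T_left hwy, hwE, hyE, hy2, Function.update_of_ne h1, hπw]
            rfl
          · rw [T_of_ne h2 h1, Function.update_of_ne h1, hzE, Function.update_of_ne h2]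
      have e3 : u.1 (Function.update (π1 η) w false) = u.1 (π1 η) := by
        rw [← hπw, Function.update_eq_self]
      have e4 : u.1 (Function.update (π1 η) y false) = u.1 (π1 η) := by
        rw [← hy2, Function.update_eq_self]
      rw [e1, e2, D_apply, D_apply, e3, e4]
      have a1 : (dp w).1 η = 1 := by unfold dp; rw [site_apply, if_pos hw2]
      have a2 : (vac y).1 (π1 η) = 1 := by rw [vac_apply, hy2]; norm_num [gv]
      rw [a1, a2]
      nlinarith
    · have hy3 : π1 η y = true := by simpa using hy2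
      have : (vac y).1 (π1 η) = 0 := by rw [vac_apply, hy3]; norm_num [gv]
      rw [this]
      simp only [zero_mul, mul_zero]
      positivity
  · have : (dp w).1 η = 0 := by unfold dp; rw [site_apply, if_neg hw2]
    rw [this, zero_mul]
    positivity

/-- Third consequence: the derivative at a vacant site is close to one. -/
lemma deriv_vac {n R K : ℕ} {u : Cyl Bool} (hu : Test p n R K u) (hRn : R ≤ n) (y : ℤ) :
    s.k (vac y * (1 - D y u) ^ 2) ≤ (1 - s.N (dw R)) +
      2 * ∑ w ∈ box R, s.N (dp w * l1 (vac y * (D w u - D y u) ^ 2)) +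
      2 * ∑ w ∈ box R, s.N (dp w * l1 (1 - D w u)) := by
  rw [← s.N1]
  have h1 : s.N (pull π1 π1_loc (vac y * (1 - D y u) ^ 2)) ≤ s.N ((1 - dw R) +
      (2 : ℝ) • (∑ w ∈ box R, dp w * l1 (vac y * (D w u - D y u) ^ 2)) +
      (2 : ℝ) • (∑ w ∈ box R, dp w * l1 (1 - D w u))) := by
    refine s.good_mono n (fun η hg => ?_)
    set ξ := π1 η with hξ
    have e1 : ((1 - dw R) +
      (2 : ℝ) • (∑ w ∈ box R, dp w * l1 (vac y * (D w u - D y u) ^ 2)) +
      (2 : ℝ) • (∑ w ∈ box R, dp w * l1 (1 - D w u))).1 η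
        = (1 - ∑ w ∈ box R, (dp w).1 η * 1) +
          2 * (∑ w ∈ box R, (dp w).1 η * ((vac y).1 ξ * ((D w u).1 ξ - (D y u).1 ξ) ^ 2)) +
          2 * (∑ w ∈ box R, (dp w).1 η * (1 - (D w u).1 ξ)) := by
      have a0 : (dw R).1 η = ∑ w ∈ box R, (dp w).1 η * 1 := by
        rw [dw, coe_sum_apply]; simp only [mul_one]
      have a1 : (∑ w ∈ box R, dp w * l1 (vac y * (D w u - D y u) ^ 2) : Cyl (Bool × Bool)).1 η
          = ∑ w ∈ box R, (dp w).1 η * ((vac y).1 ξ * ((D w u).1 ξ - (D y u).1 ξ) ^ 2) := by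
        rw [coe_sum_apply]; rfl
      have a2 : (∑ w ∈ box R, dp w * l1 (1 - D w u) : Cyl (Bool × Bool)).1 η
          = ∑ w ∈ box R, (dp w).1 η * (1 - (D w u).1 ξ) := by
        rw [coe_sum_apply]; rfl
      rw [← a0, ← a1, ← a2]
      rfl
    rw [e1]
    change (vac y).1 ξ * (1 - (D y u).1 ξ) ^ 2 ≤ _
    have v0 := vac_nonneg y ξ
    have v1 := vac_le_one y ξ
    have d0 := hu.D0 y ξ
    have d1 := hu.D1 y ξ
    by_cases hex : ∃ w ∈ box R, η w = (false, true)
    · obtain ⟨w, hw, hw2⟩ := hex
      have ho : ∀ z ∈ box R, z ≠ w → η z ≠ (false, true) := fun z hz hzw =>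
        hg.2 w (box_mono hRn hw) z (box_mono hRn hz) (Ne.symm hzw) hw2
      rw [sum_single (fun _ => 1) hw η hw2 ho,
        sum_single (fun w => (vac y).1 ξ * ((D w u).1 ξ - (D y u).1 ξ) ^ 2) hw η hw2 ho,
        sum_single (fun w => 1 - (D w u).1 ξ) hw η hw2 ho]
      have c0 := hu.D0 w ξ
      have c1 := hu.D1 w ξ
      have q1 : (1 - (D y u).1 ξ) ^ 2 ≤ 2 * ((D w u).1 ξ - (D y u).1 ξ) ^ 2
          + 2 * (1 - (D w u).1 ξ) ^ 2 := by
        nlinarith [sq_nonneg (((D w u).1 ξ - (D y u).1 ξ) - (1 - (D w u).1 ξ))]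
      have q2 : (1 - (D w u).1 ξ) ^ 2 ≤ 1 - (D w u).1 ξ := by nlinarith
      have q3 : (1 - (D y u).1 ξ) ^ 2 ≤ 2 * ((D w u).1 ξ - (D y u).1 ξ) ^ 2
          + 2 * (1 - (D w u).1 ξ) := by linarith
      have q4 := mul_le_mul_of_nonneg_left q3 v0
      have q5 : (vac y).1 ξ * (2 * (1 - (D w u).1 ξ)) ≤ 1 * (2 * (1 - (D w u).1 ξ)) :=
        mul_le_mul_of_nonneg_right v1 (by linarith)
      nlinarith
    · push Not at hex
      rw [sum_none (fun _ => 1) η hex,
        sum_none (fun w => (vac y).1 ξ * ((D w u).1 ξ - (D y u).1 ξ) ^ 2) η hex,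
        sum_none (fun w => 1 - (D w u).1 ξ) η hex]
      have q1 : (1 - (D y u).1 ξ) ^ 2 ≤ 1 := by nlinarith
      have q2 : (vac y).1 ξ * (1 - (D y u).1 ξ) ^ 2 ≤ 1 * 1 :=
        mul_le_mul v1 q1 (sq_nonneg _) zero_le_one
      linarith
  rw [map_add, map_add, map_smul, map_smul, map_sum, map_sum, map_sub, s.N_st.one] at h1
  exact h1

/-- Fourth consequence: lower bound on the energy of far jumps. -/
lemma energy_lower {n R K : ℕ} {u : Cyl Bool} (hu : Test p n R K u) {b y : ℤ}
    (hby : b ≠ y) (hb : prof p R K 1 b ≤ 1 / 4) :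
    (s.ρ b - s.ρ y) / 4 - 4 * s.k (vac y * (1 - D y u) ^ 2) ≤ s.k ((Tc b y u - u) ^ 2) := by
  have h1 : s.k ((1 / 4 : ℝ) • (occ b - occ y) - (4 : ℝ) • (vac y * (1 - D y u) ^ 2))
      ≤ s.k ((Tc b y u - u) ^ 2) := by
    refine s.k_st.pos.mono (fun η => ?_)
    change (1 / 4 : ℝ) * (gv (η b) - gv (η y)) - 4 * ((vac y).1 η * (1 - (D y u).1 η) ^ 2)
      ≤ (u.1 (T b y η) - u.1 η) ^ 2
    rw [vac_apply]
    have d0 := hu.D0 y η
    have d1 := hu.D1 y η
    cases hηb : η b
    · have := gv_nonneg (η y)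
      have := gv_le_one (η y)
      have h3 : 0 ≤ (1 - gv (η y)) * (1 - (D y u).1 η) ^ 2 := mul_nonneg (by linarith)
        (sq_nonneg _)
      have h4 : gv false = 0 := by norm_num [gv]
      rw [h4]
      nlinarith [sq_nonneg (u.1 (T b y η) - u.1 η)]
    · cases hηy : η y
      · have h4 : gv false = 0 := by norm_num [gv]
        have h5 : gv true = 1 := by norm_num [gv]
        rw [h4, h5]
        -- configuration with the particle moved
        have e1 : u.1 (T b y η) = u.1 (Function.update (Function.update η y true) b false) := by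
          refine congrArg u.1 ?_
          funext z
          by_cases h1 : z = y
          · subst h1
            rw [T_right, hηb, hηy, Function.update_of_ne (Ne.symm hby), Function.update_self]
            rfl
          · by_cases h2 : z = b
            · subst h2
              rw [T_left hby, hηb, hηy, Function.update_self]
              rfl
            · rw [T_of_ne h2 h1, Function.update_of_ne h2, Function.update_of_ne h1]
        have e2 : u.1 (Function.update η y false) = u.1 η := by
          rw [← hηy, Function.update_eq_self]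
        have e3 : u.1 (Function.update (Function.update η y true) b true)
            = u.1 (Function.update η y true) := by
          refine congrArg u.1 ?_
          funext z
          by_cases h2 : z = b
          · subst h2
            rw [Function.update_self, Function.update_of_ne hby, hηb]
          · rw [Function.update_of_ne h2]
        have e4 := hu.D0 b (Function.update η y true)
        have e5 := (D_le hu.infl b (Function.update η y true)).trans hb
        rw [D_apply, e3] at e4 e5
        rw [D_apply, e2] at d0 d1 ⊢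
        rw [e1]
        set t1 := u.1 (Function.update η y true) - u.1 η with ht1
        set t2 := u.1 (Function.update η y true)
          - u.1 (Function.update (Function.update η y true) b false) with ht2
        have e6 : u.1 (Function.update (Function.update η y true) b false) - u.1 η = t1 - t2 := by
          rw [ht1, ht2]; ring
        rw [e6]
        by_cases hc : 3 / 4 ≤ t1
        · have h6 : 1 / 2 ≤ t1 - t2 := by linarith
          nlinarith [sq_nonneg (1 - t1)]
        · push Not at hc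
          nlinarith [sq_nonneg (t1 - t2)]
      · have h5 : gv true = 1 := by norm_num [gv]
        rw [h5]
        nlinarith [sq_nonneg (u.1 (T b y η) - u.1 η)]
  rw [map_sub, map_smul, map_smul, map_sub, smul_eq_mul, smul_eq_mul] at h1
  have h2 : s.ρ b - s.ρ y = s.k (occ b) - s.k (occ y) := rfl
  rw [h2]
  linarith

end Setup

end Helper78Excl
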