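import Pool.Agent.Helper78_Excl.Defs

set_option backward.isDefEq.respectTransparency false

namespace Helper78Excl

open Filter Topology

/-- `ζ s = ∑ n ^ (-s)` over `n ≥ 1`. -/
noncomputable def zet (s : ℝ) : ℝ := ∑' n : ℕ, ((n : ℝ) + 1) ^ (-s)

/-- The explicit kernel `p 1 = 1 - ζ(5/2) / (10 ζ(3/2))` and
`p (-k) = k ^ (-5/2) / (10 ζ(3/2))` for `k ≥ 1`. -/
noncomputable def kern (k : ℤ) : ℝ :=
  if k = 1 then 1 - zet (5 / 2) / (10 * zet (3 / 2))
  else if k < 0 then (-(k : ℝ)) ^ (-(5 / 2) : ℝ) / (10 * zet (3 / 2)) else 0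

lemma summable_zet {s : ℝ} (hs : 1 < s) : Summable (fun n : ℕ => ((n : ℝ) + 1) ^ (-s)) := by
  have h := (summable_nat_add_iff 1).2 (Real.summable_nat_rpow.2 (show -s < -1 by linarith))
  refine h.congr (fun n => ?_)
  push_cast
  rfl

lemma one_le_zet {s : ℝ} (hs : 1 < s) : 1 ≤ zet s := by
  have h := (summable_zet hs).le_tsum 0 (fun n _ => by positivity)
  unfold zet
  simpa using h

lemma zet_mono : zet (5 / 2) ≤ zet (3 / 2) := by
  refine Summable.tsum_le_tsum (fun n => ?_) (summable_zet (by norm_num))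
    (summable_zet (by norm_num))
  refine Real.rpow_le_rpow_of_exponent_le ?_ (by norm_num)
  have : (0 : ℝ) ≤ n := Nat.cast_nonneg n
  linarith

lemma frac_le : zet (5 / 2) / (10 * zet (3 / 2)) ≤ 1 / 10 := by
  have h1 := one_le_zet (show (1 : ℝ) < 3 / 2 by norm_num)
  rw [div_le_iff₀ (by positivity)]
  linarith [zet_mono]

lemma kern_one : 9 / 10 ≤ kern 1 := by
  unfold kern
  rw [if_pos rfl]
  linarith [frac_le]

lemma kern_neg (n : ℕ) : kern (-((n : ℤ) + 1)) = ((n : ℝ) + 1) ^ (-(5 / 2) : ℝ) / (10 * zet (3 / 2)) := by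
  unfold kern
  rw [if_neg (by omega), if_pos (by omega)]
  push_cast
  ring_nf

lemma kern_nat (n : ℕ) (hn : n ≠ 1) : kern (n : ℤ) = 0 := by
  unfold kern
  rw [if_neg (by exact_mod_cast hn), if_neg (by omega)]

lemma kern_nonneg (k : ℤ) : 0 ≤ kern k := by
  have h1 := one_le_zet (show (1 : ℝ) < 3 / 2 by norm_num)
  unfold kern
  split_ifs with h h'
  · linarith [frac_le]
  · have : (0 : ℝ) ≤ -(k : ℝ) := by
      have : (k : ℝ) < 0 := by exact_mod_cast h'
      linarith
    positivity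
  · exact le_rfl

/-- summation against the kernel -/
lemma kern_hasSum {h : ℤ → ℝ} {m : ℝ}
    (hm : HasSum (fun n : ℕ => h (-((n : ℤ) + 1)) * kern (-((n : ℤ) + 1))) m) :
    HasSum (fun k : ℤ => h k * kern k) (h 1 * kern 1 + m) := by
  have h1 : HasSum (fun n : ℕ => h (n : ℤ) * kern (n : ℤ)) (h 1 * kern 1) := by
    have := hasSum_single (f := fun n : ℕ => h (n : ℤ) * kern (n : ℤ)) 1 (fun n hn => by
      rw [kern_nat n hn, mul_zero])
    simpa using this
  exact h1.of_nat_of_neg_add_one hm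

lemma kern_sum : HasSum kern 1 := by
  have h1 := one_le_zet (show (1 : ℝ) < 3 / 2 by norm_num)
  have h2 : HasSum (fun n : ℕ => ((n : ℝ) + 1) ^ (-(5 / 2) : ℝ) / (10 * zet (3 / 2)))
      (zet (5 / 2) / (10 * zet (3 / 2))) := (summable_zet (by norm_num)).hasSum.div_const _
  have h3 := kern_hasSum (h := fun _ => 1) (m := zet (5 / 2) / (10 * zet (3 / 2))) (by
    refine h2.congr_fun (fun n => ?_)
    rw [one_mul, kern_neg])
  have h4 : (1 : ℝ) * kern 1 + zet (5 / 2) / (10 * zet (3 / 2)) = 1 := by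
    unfold kern; rw [if_pos rfl]; ring
  rw [h4] at h3
  simpa using h3

lemma rpow_step (n : ℕ) : ((n : ℝ) + 1) * ((n : ℝ) + 1) ^ (-(5 / 2) : ℝ)
    = ((n : ℝ) + 1) ^ (-(3 / 2) : ℝ) := by
  have h : (0 : ℝ) < (n : ℝ) + 1 := by positivity
  rw [mul_comm, ← Real.rpow_add_one h.ne']
  congr 1
  norm_num

lemma kern_first : HasSum (fun k : ℤ => |(k : ℝ)| * kern k) (kern 1 + 1 / 10) := by
  have h1 := one_le_zet (show (1 : ℝ) < 3 / 2 by norm_num)
  have h2 : HasSum (fun n : ℕ => ((n : ℝ) + 1) ^ (-(3 / 2) : ℝ) / (10 * zet (3 / 2)))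
      (zet (3 / 2) / (10 * zet (3 / 2))) := (summable_zet (by norm_num)).hasSum.div_const _
  have h5 : zet (3 / 2) / (10 * zet (3 / 2)) = 1 / 10 := by
    field_simp
  rw [h5] at h2
  have h3 := kern_hasSum (h := fun k => |(k : ℝ)|) (m := 1 / 10) (by
    refine h2.congr_fun (fun n => ?_)
    rw [kern_neg, ← rpow_step]
    have : |((-((n : ℤ) + 1) : ℤ) : ℝ)| = (n : ℝ) + 1 := by
      push_cast
      rw [abs_neg, abs_of_nonneg (by positivity)]
    rw [this]
    ring)
  simpa using h3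

lemma kern_drift : HasSum (fun k : ℤ => (k : ℝ) * kern k) (kern 1 - 1 / 10) := by
  have h1 := one_le_zet (show (1 : ℝ) < 3 / 2 by norm_num)
  have h2 : HasSum (fun n : ℕ => ((n : ℝ) + 1) ^ (-(3 / 2) : ℝ) / (10 * zet (3 / 2)))
      (zet (3 / 2) / (10 * zet (3 / 2))) := (summable_zet (by norm_num)).hasSum.div_const _
  have h5 : zet (3 / 2) / (10 * zet (3 / 2)) = 1 / 10 := by
    field_simp
  rw [h5] at h2
  have h3 := kern_hasSum (h := fun k => (k : ℝ)) (m := -(1 / 10)) (by
    refine h2.neg.congr_fun (fun n => ?_)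
    rw [kern_neg, ← rpow_step]
    push_cast
    ring)
  rw [← sub_eq_add_neg] at h3
  simpa using h3

lemma kern_second : ¬ Summable (fun k : ℤ => if k < 0 then (k : ℝ) ^ 2 * kern k else 0) := by
  intro h
  have h1 := one_le_zet (show (1 : ℝ) < 3 / 2 by norm_num)
  have hinj : Function.Injective (fun n : ℕ => -((n : ℤ) + 1)) := by
    intro a b hab
    simpa using hab
  have h2 := h.comp_injective hinj
  have h3 : Summable (fun n : ℕ => ((n : ℝ) + 1) ^ (-(1 / 2) : ℝ)) := by
    refine (h2.mul_left (10 * zet (3 / 2))).congr (fun n => ?_)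
    simp only [Function.comp_apply]
    rw [if_pos (by omega), kern_neg]
    have hpos : (0 : ℝ) < (n : ℝ) + 1 := by positivity
    have h4 : ((-((n : ℤ) + 1) : ℤ) : ℝ) ^ 2 = ((n : ℝ) + 1) ^ (2 : ℝ) := by
      push_cast
      rw [Real.rpow_two]
      ring
    rw [h4]
    have h5 : ((n : ℝ) + 1) ^ (-(1 / 2) : ℝ)
        = ((n : ℝ) + 1) ^ (2 : ℝ) * ((n : ℝ) + 1) ^ (-(5 / 2) : ℝ) := by
      rw [← Real.rpow_add hpos]
      congr 1
      norm_num
    rw [h5]
    field_simp
  have h6 : Summable (fun n : ℕ => (n : ℝ) ^ (-(1 / 2) : ℝ)) := by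
    rw [← summable_nat_add_iff 1]
    refine h3.congr (fun n => ?_)
    push_cast
    rfl
  rw [Real.summable_nat_rpow] at h6
  norm_num at h6

lemma kern_neg_one_pos : 0 < kern (-1) := by
  have h1 := one_le_zet (show (1 : ℝ) < 3 / 2 by norm_num)
  have := kern_neg 0
  norm_num at this
  rw [this]
  positivity

lemma kern_irred (x y : ℤ) : Relation.ReflTransGen (fun a b : ℤ => 0 < kern (b - a)) x y := by
  have h1 : (0 : ℝ) < kern 1 := by linarith [kern_one]
  have up : ∀ (n : ℕ) (x : ℤ), Relation.ReflTransGen (fun a b : ℤ => 0 < kern (b - a)) x (x + n) := by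
    intro n x
    induction n with
    | zero => simpa using Relation.ReflTransGen.refl
    | succ n ih =>
      refine ih.tail ?_
      have : (x + ((n + 1 : ℕ) : ℤ)) - (x + n) = 1 := by push_cast; ring
      rw [this]; exact h1
  have down : ∀ (n : ℕ) (x : ℤ), Relation.ReflTransGen (fun a b : ℤ => 0 < kern (b - a)) x (x - n) := by
    intro n x
    induction n with
    | zero => simpa using Relation.ReflTransGen.refl
    | succ n ih =>
      refine ih.tail ?_
      have : (x - ((n + 1 : ℕ) : ℤ)) - (x - n) = -1 := by push_cast; ring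
      rw [this]; exact kern_neg_one_pos
  rcases le_total x y with h | h
  · have := up (y - x).toNat x
    rwa [Int.toNat_of_nonneg (by omega), add_sub_cancel] at this
  · have := down (x - y).toNat x
    rwa [Int.toNat_of_nonneg (by omega), sub_sub_cancel] at this

lemma kern_isStep : IsStep kern := ⟨kern_nonneg, kern_sum, kern_irred⟩

lemma kern_isH : IsH kern where
  first := kern_first.summable
  drift := by
    rw [kern_drift.tsum_eq]
    linarith [kern_one]
  second := kern_second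

lemma kern_power (k : ℕ) (hk : 1 ≤ k) :
    (1 / (10 * zet (3 / 2))) * (k : ℝ) ^ (-(1 + 3 / 2) : ℝ) ≤ kern (-(k : ℤ)) := by
  obtain ⟨n, rfl⟩ : ∃ n, k = n + 1 := ⟨k - 1, by omega⟩
  have := kern_neg n
  push_cast
  rw [this]
  apply le_of_eq
  have : (-(1 + 3 / 2) : ℝ) = -(5 / 2) := by norm_num
  rw [this]
  ring

end Helper78Excl
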