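import Pool.Agent.Helper78_Excl.Coupling

set_option backward.isDefEq.respectTransparency false

namespace Helper78Excl

open Finset Filter Topology

lemma stat_sub {S : Type} [Lattice S] {p : ℤ → ℝ} (hp : Ker p) {Φ Ψ : Cyl S →ₗ[ℝ] ℝ}
    (h1 : Pos Φ) (h2 : Pos Ψ) (s1 : Stat p Φ) (s2 : Stat p Ψ) : Stat p (Φ - Ψ) := by
  intro f
  have e : ∀ xy : ℤ × ℤ, p (xy.2 - xy.1) * (Φ - Ψ) (Tc xy.1 xy.2 f - f)
      = p (xy.2 - xy.1) * Φ (Tc xy.1 xy.2 f - f) - p (xy.2 - xy.1) * Ψ (Tc xy.1 xy.2 f - f) := by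
    intro xy
    rw [LinearMap.sub_apply, mul_sub]
  rw [tsum_congr e, (stat_summable hp h1 f).tsum_sub (stat_summable hp h2 f), s1 f, s2 f, sub_zero]

lemma stat_smul {S : Type} [Lattice S] {p : ℤ → ℝ} {Φ : Cyl S →ₗ[ℝ] ℝ} (c : ℝ)
    (s1 : Stat p Φ) : Stat p (c • Φ) := by
  intro f
  have e : ∀ xy : ℤ × ℤ, p (xy.2 - xy.1) * (c • Φ) (Tc xy.1 xy.2 f - f)
      = c * (p (xy.2 - xy.1) * Φ (Tc xy.1 xy.2 f - f)) := by
    intro xy
    rw [LinearMap.smul_apply, smul_eq_mul]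
    ring
  rw [tsum_congr e, tsum_mul_left, s1 f, mul_zero]

/-- Decomposition of an invariant state along a smaller stationary functional. -/
lemma decomp {S : Type} [Lattice S] {p : ℤ → ℝ} (hp : Ker p) {N ω : Cyl S →ₗ[ℝ] ℝ}
    (hN : IsSt N) (sN : Stat p N) (h0 : Pos ω) (h1 : Pos (N - ω)) (hs : Stat p ω)
    (a0 : 0 < ω 1) (a1 : ω 1 < 1) :
    (IsSt ((ω 1)⁻¹ • ω) ∧ Stat p ((ω 1)⁻¹ • ω)) ∧
    (IsSt ((1 - ω 1)⁻¹ • (N - ω)) ∧ Stat p ((1 - ω 1)⁻¹ • (N - ω))) := by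
  have a1' : 0 < 1 - ω 1 := by linarith
  refine ⟨⟨⟨?_, ?_⟩, stat_smul _ hs⟩, ⟨⟨?_, ?_⟩, stat_smul _ (stat_sub hp hN.pos h0 sN hs)⟩⟩
  · intro f hf
    rw [LinearMap.smul_apply, smul_eq_mul]
    exact mul_nonneg (inv_pos.2 a0).le (h0 f hf)
  · rw [LinearMap.smul_apply, smul_eq_mul, inv_mul_cancel₀ a0.ne']
  · intro f hf
    rw [LinearMap.smul_apply, smul_eq_mul]
    exact mul_nonneg (inv_pos.2 a1').le (h1 f hf)
  · rw [LinearMap.smul_apply, smul_eq_mul, LinearMap.sub_apply, hN.one, inv_mul_cancel₀ a1'.ne']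

/-- The shift of an extreme invariant state is extreme. -/
lemma extreme_shift {p : ℤ → ℝ} {κ : Cyl Bool → ℝ} (hκ : κ ∈ (Inv Bool p).extremePoints ℝ) :
    (fun f => κ (pull (sh 1) (sh_loc 1) f)) ∈ (Inv Bool p).extremePoints ℝ := by
  have hinv : ∀ (a : ℤ) (φ : Cyl Bool → ℝ), φ ∈ Inv Bool p →
      (fun f => φ (pull (sh a) (sh_loc a) f)) ∈ Inv Bool p := by
    intro a φ hφ
    exact mem_Inv (cmp_isSt (lin_isSt φ hφ.1) (sh a) (sh_loc a)) (sh_stat (Inv.stat hφ) a)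
  have hc1 : ∀ f, pull (sh 1) (sh_loc 1) (pull (sh (-1)) (sh_loc (-1)) f) = f := by
    intro f; apply Cyl.ext'; intro η
    have e : sh (-1) (sh 1 η) = η := by
      funext x
      simp [sh]
    change f.1 (sh (-1) (sh 1 η)) = f.1 η
    rw [e]
  have hc2 : ∀ f, pull (sh (-1)) (sh_loc (-1)) (pull (sh 1) (sh_loc 1) f) = f := by
    intro f; apply Cyl.ext'; intro η
    have e : sh 1 (sh (-1) η) = η := by
      funext x
      simp [sh]
    change f.1 (sh 1 (sh (-1) η)) = f.1 η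
    rw [e]
  refine ⟨hinv 1 κ hκ.1, ?_⟩
  intro φ hφ ψ hψ hseg
  obtain ⟨a, b, ha, hb, hab, he⟩ := hseg
  have h1 := hκ.2 (hinv (-1) φ hφ) (hinv (-1) ψ hψ) ⟨a, b, ha, hb, hab, by
    funext f
    have := congrFun he (pull (sh (-1)) (sh_loc (-1)) f)
    simp only [Pi.add_apply, Pi.smul_apply, hc1] at this ⊢
    exact this⟩
  funext f
  have := congrFun h1 (pull (sh 1) (sh_loc 1) f)
  simp only [hc2] at this
  exact this

/-- A stationary functional below an extreme coupling of an extreme state with its translate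
is a multiple of the coupling. -/
lemma domination {p : ℤ → ℝ} (hp : Ker p) {κ : Cyl Bool → ℝ}
    (hκ : κ ∈ (Inv Bool p).extremePoints ℝ) {ν : Cyl (Bool × Bool) → ℝ}
    (hν : ν ∈ (Coup p (lin κ hκ.1.1)).extremePoints ℝ) {ω : Cyl (Bool × Bool) →ₗ[ℝ] ℝ}
    (h0 : Pos ω) (h1 : Pos (lin ν hν.1.1.1 - ω)) (hs : Stat p ω) (f : Cyl (Bool × Bool)) :
    ω f = ω 1 * ν f := by
  set N := lin ν hν.1.1.1 with hN
  have hNst : IsSt N := lin_isSt ν hν.1.1.1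
  have hNstat : Stat p N := Inv.stat hν.1.1
  have a0 : 0 ≤ ω 1 := h0 1 (fun η => zero_le_one)
  have a1 : 0 ≤ (N - ω) 1 := h1 1 (fun η => zero_le_one)
  have a1' : (N - ω) 1 = 1 - ω 1 := by rw [LinearMap.sub_apply, hNst.one]
  rcases a0.eq_or_lt with h | h
  · have := h0.abs_le_const (abs_le_bd f)
    rw [← h, mul_zero] at this
    rw [← h, zero_mul]
    exact abs_eq_zero.1 (le_antisymm this (abs_nonneg _))
  rcases a1.eq_or_lt with h' | h'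
  · have := h1.abs_le_const (abs_le_bd f)
    rw [← h', mul_zero] at this
    have h2 : (N - ω) f = 0 := abs_eq_zero.1 (le_antisymm this (abs_nonneg _))
    rw [LinearMap.sub_apply] at h2
    have h3 : ω 1 = 1 := by linarith
    have h4 : N f = ν f := rfl
    rw [h3, one_mul]
    linarith
  obtain ⟨⟨s1, t1⟩, ⟨s2, t2⟩⟩ := decomp hp hNst hNstat h0 h1 hs h (by linarith)
  set ω₁ := (ω 1)⁻¹ • ω with hω₁
  set ω₂ := (1 - ω 1)⁻¹ • (N - ω) with hω₂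
  have hpos1 : 0 < 1 - ω 1 := by linarith
  have hcomb : ∀ g, ω 1 * ω₁ g + (1 - ω 1) * ω₂ g = ν g := by
    intro g
    have h4 : N g = ν g := rfl
    rw [hω₁, hω₂, LinearMap.smul_apply, LinearMap.smul_apply, smul_eq_mul, smul_eq_mul,
      LinearMap.sub_apply, ← mul_assoc, ← mul_assoc, mul_inv_cancel₀ h.ne',
      mul_inv_cancel₀ hpos1.ne', h4]
    ring
  have marg : ∀ (φ : (ℤ → Bool × Bool) → (ℤ → Bool)) (hφ : Loc φ)
      (hT : ∀ x y η, φ (T x y η) = T x y (φ η)) (χ : Cyl Bool → ℝ)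
      (_ : χ ∈ (Inv Bool p).extremePoints ℝ) (_ : ∀ g, ν (pull φ hφ g) = χ g),
      (∀ g, ω₁ (pull φ hφ g) = χ g) ∧ (∀ g, ω₂ (pull φ hφ g) = χ g) := by
    intro φ hφ hT χ hχ hm
    have i1 := mem_Inv (cmp_isSt s1 φ hφ) (cmp_stat t1 φ hφ hT)
    have i2 := mem_Inv (cmp_isSt s2 φ hφ) (cmp_stat t2 φ hφ hT)
    have := (mem_extremePoints.1 hχ).2 _ i1 _ i2 ⟨ω 1, 1 - ω 1, h, hpos1, by ring, by
      funext g
      have := hcomb (pull φ hφ g)
      rw [hm] at this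
      exact this⟩
    exact ⟨fun g => congrFun this.1 g, fun g => congrFun this.2 g⟩
  have m1 := marg π1 π1_loc π1_T κ hκ (fun g => hν.1.2.1 g)
  have m2 := marg π2 π2_loc π2_T _ (extreme_shift hκ) (fun g => hν.1.2.2 g)
  have c1 : (ω₁ : Cyl (Bool × Bool) → ℝ) ∈ Coup p (lin κ hκ.1.1) :=
    ⟨mem_Inv s1 t1, m1.1, m2.1⟩
  have c2 : (ω₂ : Cyl (Bool × Bool) → ℝ) ∈ Coup p (lin κ hκ.1.1) :=
    ⟨mem_Inv s2 t2, m1.2, m2.2⟩
  have h5 := hν.2 c1 c2 ⟨ω 1, 1 - ω 1, h, hpos1, by ring, by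
    funext g
    exact hcomb g⟩
  have h6 : ω₁ f = ν f := congrFun h5 f
  rw [← h6, hω₁, LinearMap.smul_apply, smul_eq_mul, ← mul_assoc, mul_inv_cancel₀ h.ne', one_mul]

end Helper78Excl
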