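import Pool.Agent.Helper78_Excl.Basic

set_option backward.isDefEq.respectTransparency false

namespace Helper78Excl

open Finset Filter Topology

/-- first absolute moment -/
noncomputable def M1 (p : ℤ → ℝ) : ℝ := ∑' k : ℤ, |(k : ℝ)| * p k

/-- tail of the first absolute moment -/
noncomputable def tl (p : ℤ → ℝ) (r : ℕ) : ℝ :=
  ∑' k : ℤ, if (r : ℤ) < |k| then |(k : ℝ)| * p k else 0

lemma Ker.M1_nonneg {p : ℤ → ℝ} (hp : Ker p) : 0 ≤ M1 p :=
  tsum_nonneg (fun k => mul_nonneg (abs_nonneg _) (hp.nonneg k))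

lemma Ker.tl_summable {p : ℤ → ℝ} (hp : Ker p) (r : ℕ) :
    Summable (fun k : ℤ => if (r : ℤ) < |k| then |(k : ℝ)| * p k else 0) := by
  refine Summable.of_nonneg_of_le (fun k => ?_) (fun k => ?_) hp.mom
  · split_ifs
    · exact mul_nonneg (abs_nonneg _) (hp.nonneg k)
    · exact le_rfl
  · split_ifs
    · exact le_rfl
    · exact mul_nonneg (abs_nonneg _) (hp.nonneg k)

lemma Ker.tl_nonneg {p : ℤ → ℝ} (hp : Ker p) (r : ℕ) : 0 ≤ tl p r :=
  tsum_nonneg (fun k => by
    split_ifs
    · exact mul_nonneg (abs_nonneg _) (hp.nonneg k)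
    · exact le_rfl)

lemma Ker.tl_tendsto {p : ℤ → ℝ} (hp : Ker p) : Tendsto (tl p) atTop (𝓝 0) := by
  have h := tendsto_tsum_of_dominated_convergence (𝓕 := (atTop : Filter ℕ))
    (f := fun r (k : ℤ) => if (r : ℤ) < |k| then |(k : ℝ)| * p k else 0)
    (g := fun _ => 0) (bound := fun k => |(k : ℝ)| * p k) hp.mom ?_ ?_
  · rw [tsum_zero] at h
    exact h
  · intro k
    apply tendsto_const_nhds.congr'
    filter_upwards [eventually_ge_atTop k.natAbs] with r hr
    rw [if_neg]
    rw [Int.abs_eq_natAbs]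
    omega
  · refine Eventually.of_forall (fun r k => ?_)
    split_ifs
    · rw [Real.norm_eq_abs, abs_of_nonneg (mul_nonneg (abs_nonneg _) (hp.nonneg k))]
    · rw [norm_zero]; exact mul_nonneg (abs_nonneg _) (hp.nonneg k)

/-- the reflected kernel -/
lemma Ker.neg {p : ℤ → ℝ} (hp : Ker p) : Ker (fun k => p (-k)) where
  nonneg k := hp.nonneg _
  sum := (Equiv.neg ℤ).hasSum_iff.2 hp.sum
  mom := by
    have := (Equiv.neg ℤ).summable_iff.2 hp.mom
    refine this.congr (fun k => ?_)
    simp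

lemma M1_neg (p : ℤ → ℝ) : M1 (fun k => p (-k)) = M1 p := by
  unfold M1
  rw [← (Equiv.neg ℤ).tsum_eq]
  refine tsum_congr (fun k => ?_)
  simp

lemma tl_neg (p : ℤ → ℝ) (r : ℕ) : tl (fun k => p (-k)) r = tl p r := by
  unfold tl
  rw [← (Equiv.neg ℤ).tsum_eq]
  refine tsum_congr (fun k => ?_)
  simp

lemma count_cross (n : ℕ) (k : ℤ) :
    (((box n).filter (fun x => x + k ∉ box n)).card : ℝ) ≤ |(k : ℝ)| := by
  have h : ((box n).filter (fun x => x + k ∉ box n)).card ≤ k.natAbs := by
    rcases le_total 0 k with hk | hk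
    · have hsub : (box n).filter (fun x => x + k ∉ box n) ⊆ Finset.Ioc ((n : ℤ) - k) n := by
        intro x hx
        rw [Finset.mem_filter, mem_box, mem_box] at hx
        rw [Finset.mem_Ioc]
        omega
      refine (Finset.card_le_card hsub).trans ?_
      rw [Int.card_Ioc]
      omega
    · have hsub : (box n).filter (fun x => x + k ∉ box n) ⊆ Finset.Ico (-(n : ℤ)) (-n - k) := by
        intro x hx
        rw [Finset.mem_filter, mem_box, mem_box] at hx
        rw [Finset.mem_Ico]
        omega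
      refine (Finset.card_le_card hsub).trans ?_
      rw [Int.card_Ico]
      omega
  have h2 : |(k : ℝ)| = ((k.natAbs : ℕ) : ℝ) := by
    rw [Nat.cast_natAbs, Int.cast_abs]
  rw [h2]
  exact_mod_cast h

lemma cross_bound {p : ℤ → ℝ} (hp : Ker p) {n r : ℕ} {G : ℤ → ℤ → ℝ} {δ C : ℝ}
    (hδ : 0 ≤ δ) (hC : 0 ≤ C)
    (h1 : ∀ x ∈ box n, ∀ y, y ∉ box n → G x y ≤ C)
    (h2 : ∀ x ∈ box n, ∀ y, y ∉ box n → |y - x| ≤ r → G x y ≤ δ) (m : ℕ) :
    ∑ x ∈ box n, ∑ y ∈ box m \ box n, p (y - x) * G x y ≤ M1 p * δ + C * tl p r := by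
  set w : ℤ → ℝ := fun k => p k * (δ + if (r : ℤ) < |k| then C else 0) with hw
  have hw0 : ∀ k, 0 ≤ w k := fun k => by
    refine mul_nonneg (hp.nonneg k) ?_
    split_ifs
    · positivity
    · simpa using hδ
  have step1 : ∑ x ∈ box n, ∑ y ∈ box m \ box n, p (y - x) * G x y
      ≤ ∑ x ∈ box n, ∑ k ∈ (box (m + n)).filter (fun k => x + k ∉ box n), w k := by
    refine Finset.sum_le_sum (fun x hx => ?_)
    have : ∑ y ∈ box m \ box n, p (y - x) * G x y ≤ ∑ y ∈ box m \ box n, w (y - x) := by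
      refine Finset.sum_le_sum (fun y hy => ?_)
      have hy' := (Finset.mem_sdiff.1 hy).2
      refine mul_le_mul_of_nonneg_left ?_ (hp.nonneg _)
      split_ifs with hk
      · have := h1 x hx y hy'
        linarith
      · have := h2 x hx y hy' (not_lt.1 hk)
        linarith
    refine this.trans ?_
    have himg : ∑ y ∈ box m \ box n, w (y - x)
        = ∑ k ∈ (box m \ box n).image (fun y => y - x), w k := by
      rw [Finset.sum_image]
      intro a _ b _ hab
      simpa using hab
    rw [himg]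
    refine Finset.sum_le_sum_of_subset_of_nonneg ?_ (fun k _ _ => hw0 k)
    intro k hk
    rw [Finset.mem_image] at hk
    obtain ⟨y, hy, rfl⟩ := hk
    rw [Finset.mem_sdiff, mem_box, mem_box] at hy
    rw [mem_box] at hx
    rw [Finset.mem_filter, mem_box, mem_box]
    push_cast
    omega
  have step2 : ∑ x ∈ box n, ∑ k ∈ (box (m + n)).filter (fun k => x + k ∉ box n), w k
      ≤ ∑ k ∈ box (m + n), |(k : ℝ)| * w k := by
    simp_rw [Finset.sum_filter]
    rw [Finset.sum_comm]
    refine Finset.sum_le_sum (fun k _ => ?_)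
    rw [← Finset.sum_filter, Finset.sum_const, nsmul_eq_mul]
    exact mul_le_mul_of_nonneg_right (count_cross n k) (hw0 k)
  have hs1 : Summable (fun k : ℤ => |(k : ℝ)| * p k * δ) := hp.mom.mul_right δ
  have hs2 : Summable (fun k : ℤ => C * (if (r : ℤ) < |k| then |(k : ℝ)| * p k else 0)) :=
    (hp.tl_summable r).mul_left C
  have heq : ∀ k : ℤ, |(k : ℝ)| * w k
      = |(k : ℝ)| * p k * δ + C * (if (r : ℤ) < |k| then |(k : ℝ)| * p k else 0) := by
    intro k
    simp only [hw]
    split_ifs <;> ring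
  have hs : Summable (fun k : ℤ => |(k : ℝ)| * w k) :=
    (hs1.add hs2).congr (fun k => (heq k).symm)
  have step3 : ∑ k ∈ box (m + n), |(k : ℝ)| * w k ≤ ∑' k : ℤ, |(k : ℝ)| * w k :=
    hs.sum_le_tsum _ (fun k _ => mul_nonneg (abs_nonneg _) (hw0 k))
  have step4 : ∑' k : ℤ, |(k : ℝ)| * w k = M1 p * δ + C * tl p r := by
    rw [tsum_congr heq, hs1.tsum_add hs2, tsum_mul_right, tsum_mul_left]
    rfl
  linarith

lemma box_sum_le {p : ℤ → ℝ} (hp : Ker p) (A : Finset ℤ) (z : ℤ) :
    ∑ y ∈ A, p (y - z) ≤ 1 := by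
  have h := hp.sum
  have h2 : HasSum (fun y : ℤ => p (y - z)) 1 := by
    have := (Equiv.subRight z).hasSum_iff.2 h
    exact this
  exact sum_le_hasSum _ (fun y _ => hp.nonneg _) h2

lemma box_mom_le {p : ℤ → ℝ} (hp : Ker p) (A : Finset ℤ) (z : ℤ) :
    ∑ y ∈ A, p (y - z) * |((y - z : ℤ) : ℝ)| ≤ M1 p := by
  have h2 : Summable (fun y : ℤ => |((y - z : ℤ) : ℝ)| * p (y - z)) := by
    have := (Equiv.subRight z).summable_iff.2 hp.mom
    exact this
  have h3 : ∑' y : ℤ, |((y - z : ℤ) : ℝ)| * p (y - z) = M1 p :=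
    (Equiv.subRight z).tsum_eq (fun k : ℤ => |(k : ℝ)| * p k)
  rw [← h3]
  refine le_trans (le_of_eq ?_) (h2.sum_le_tsum A
    (fun y _ => mul_nonneg (abs_nonneg _) (hp.nonneg _)))
  exact Finset.sum_congr rfl (fun y _ => mul_comm _ _)

lemma box_mom_le' {p : ℤ → ℝ} (hp : Ker p) (A : Finset ℤ) (z : ℤ) :
    ∑ x ∈ A, p (z - x) * |((z - x : ℤ) : ℝ)| ≤ M1 p := by
  have h := box_mom_le hp.neg A z
  rw [M1_neg] at h
  refine le_trans (le_of_eq (Finset.sum_congr rfl (fun y _ => ?_))) h
  rw [neg_sub]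
  congr 1
  push_cast
  rw [abs_sub_comm]

/-- Summability of the terms in the definition of stationarity. -/
lemma pair_summable {p : ℤ → ℝ} (hp : Ker p) (n : ℕ) :
    Summable (fun xy : ℤ × ℤ =>
      if xy.1 ∈ box n ∨ xy.2 ∈ box n then p (xy.2 - xy.1) else 0) := by
  have h1 : Summable (fun xy : ℤ × ℤ => if xy.1 ∈ box n then p (xy.2 - xy.1) else 0) := by
    rw [summable_prod_of_nonneg]
    · constructor
      · intro x
        by_cases hx : x ∈ box n
        · simp only [hx, if_true]
          exact (Equiv.subRight x).summable_iff.2 hp.sum.summable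
        · simp only [hx, if_false]
          exact summable_zero
      · refine summable_of_ne_finset_zero (s := box n) (fun x hx => ?_)
        simp only [hx, if_false, tsum_zero]
    · intro xy
      simp only [Pi.zero_apply]
      split_ifs
      · exact hp.nonneg _
      · exact le_rfl
  have h2 : Summable (fun xy : ℤ × ℤ => if xy.2 ∈ box n then p (xy.2 - xy.1) else 0) := by
    rw [← (Equiv.prodComm ℤ ℤ).summable_iff]
    simp only [Function.comp_def, Equiv.prodComm_apply, Prod.snd_swap, Prod.fst_swap]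
    rw [summable_prod_of_nonneg]
    · constructor
      · intro x
        by_cases hx : x ∈ box n
        · simp only [hx, if_true]
          exact (Equiv.subLeft x).summable_iff.2 hp.sum.summable
        · simp only [hx, if_false]
          exact summable_zero
      · refine summable_of_ne_finset_zero (s := box n) (fun x hx => ?_)
        simp only [hx, if_false, tsum_zero]
    · intro xy
      simp only [Pi.zero_apply]
      split_ifs
      · exact hp.nonneg _
      · exact le_rfl
  refine Summable.of_nonneg_of_le (fun xy => ?_) (fun xy => ?_) (h1.add h2)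
  · split_ifs
    · exact hp.nonneg _
    · exact le_rfl
  · have := hp.nonneg (xy.2 - xy.1)
    split_ifs <;> simp_all

end Helper78Excl
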