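import Pool.Agent.Helper78_Excl.Power
import Pool.Agent.Helper78_Excl.Defs

set_option backward.isDefEq.respectTransparency false

namespace Helper78Excl

open Finset Filter Topology MeasureTheory

lemma jump_eq (x y : ℤ) (η : ℤ → Bool) : jump x y η = T x y η := by
  unfold jump
  funext z
  by_cases hxy : x = y
  · subst hxy
    rw [T_self]
    by_cases h : η x = true ∧ η x = false
    · rw [h.1] at h; simp at h
    · rw [if_neg h]
  rw [T_val hxy]
  by_cases h : η x = true ∧ η y = false
  · rw [if_pos h]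
    simp only [Function.update_apply]
    split_ifs <;> simp_all
  · rw [if_neg h]
    split_ifs with h1 h2
    · subst h1
      cases hx : η x <;> cases hz : η z <;> simp_all
    · subst h2
      cases hx : η z <;> cases hz : η y <;> simp_all
    · rfl

/-- restriction of a configuration to the box -/
def rst (n : ℕ) (η : ℤ → Bool) : (box n) → Bool := fun i => η i
/-- extension by vacancies -/
noncomputable def ext (n : ℕ) (g : (box n) → Bool) : ℤ → Bool := fun x =>
  if h : x ∈ box n then g ⟨x, h⟩ else false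

lemma cyl_measurable (f : Cyl Bool) : Measurable f.1 := by
  obtain ⟨n, hn⟩ := f.2.1
  have h : f.1 = (fun g => f.1 (ext n g)) ∘ rst n := by
    funext η
    apply hn
    intro x hx
    simp [ext, rst, hx]
  rw [h]
  refine Measurable.comp (measurable_of_finite _) ?_
  exact measurable_pi_lambda _ (fun i => measurable_pi_apply _)

lemma cyl_integrable (μ : Measure (ℤ → Bool)) [IsProbabilityMeasure μ] (f : Cyl Bool) :
    Integrable f.1 μ := by
  refine Integrable.of_bound (cyl_measurable f).aestronglyMeasurable (bd f) ?_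
  exact Eventually.of_forall (fun η => abs_le_bd f η)

/-- the state of a probability measure -/
noncomputable def stOf (μ : Measure (ℤ → Bool)) [IsProbabilityMeasure μ] : Cyl Bool →ₗ[ℝ] ℝ where
  toFun f := ∫ η, f.1 η ∂μ
  map_add' f g := integral_add (cyl_integrable μ f) (cyl_integrable μ g)
  map_smul' c f := integral_const_mul c f.1

lemma stOf_apply (μ : Measure (ℤ → Bool)) [IsProbabilityMeasure μ] (f : Cyl Bool) :
    stOf μ f = ∫ η, f.1 η ∂μ := rfl

lemma stOf_isSt (μ : Measure (ℤ → Bool)) [IsProbabilityMeasure μ] : IsSt (stOf μ) where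
  pos f hf := integral_nonneg hf
  one := by
    rw [stOf_apply]
    change ∫ _, (1 : ℝ) ∂μ = 1
    simp

lemma cyl_isCylinder (f : Cyl Bool) : IsCylinder f.1 := by
  obtain ⟨n, hn⟩ := f.2.1
  exact ⟨box n, hn⟩

lemma stOf_stat {p : ℤ → ℝ} (hp : Ker p) (μ : Measure (ℤ → Bool)) [IsProbabilityMeasure μ]
    (h : ∀ f, IsCylinder f → ∫ η, gen p f η ∂μ = 0) : Stat p (stOf μ) := by
  intro f
  have h1 := h f.1 (cyl_isCylinder f)
  rw [← h1]
  have hF : ∀ xy : ℤ × ℤ, Integrable (fun η => p (xy.2 - xy.1) *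
      (Tc xy.1 xy.2 f - f).1 η) μ := fun xy => (cyl_integrable μ _).const_mul _
  have hsum : Summable (fun xy : ℤ × ℤ => ∫ η, ‖p (xy.2 - xy.1) *
      (Tc xy.1 xy.2 f - f).1 η‖ ∂μ) := by
    obtain ⟨n, hn⟩ := f.2.1
    refine Summable.of_nonneg_of_le (fun xy => integral_nonneg (fun η => norm_nonneg _))
      (fun xy => ?_) ((pair_summable hp n).mul_right (2 * bd f))
    have hb : ∀ η, ‖p (xy.2 - xy.1) * (Tc xy.1 xy.2 f - f).1 η‖ ≤
        (if xy.1 ∈ box n ∨ xy.2 ∈ box n then p (xy.2 - xy.1) else 0) * (2 * bd f) := by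
      intro η
      rw [norm_mul, Real.norm_eq_abs, Real.norm_eq_abs, abs_of_nonneg (hp.nonneg _)]
      split_ifs with hc
      · exact mul_le_mul_of_nonneg_left (abs_Tc_sub_le f _ _ η) (hp.nonneg _)
      · push Not at hc
        rw [Tc_out hn hc.1 hc.2, sub_self]
        simp
    calc ∫ η, ‖p (xy.2 - xy.1) * (Tc xy.1 xy.2 f - f).1 η‖ ∂μ
        ≤ ∫ _, (if xy.1 ∈ box n ∨ xy.2 ∈ box n then p (xy.2 - xy.1) else 0) * (2 * bd f) ∂μ :=
          integral_mono (hF xy).norm (integrable_const _) hb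
      _ = _ := by simp
  have h2 := hasSum_integral_of_summable_integral_norm hF hsum
  have h3 := h2.tsum_eq
  have h4 : ∀ xy : ℤ × ℤ, ∫ η, p (xy.2 - xy.1) * (Tc xy.1 xy.2 f - f).1 η ∂μ
      = p (xy.2 - xy.1) * stOf μ (Tc xy.1 xy.2 f - f) := fun xy => by
    rw [integral_const_mul, stOf_apply]
  rw [tsum_congr h4] at h3
  rw [h3]
  refine integral_congr_ae (Eventually.of_forall (fun η => ?_))
  unfold gen
  refine tsum_congr (fun xy => ?_)
  rw [jump_eq]
  rfl

lemma stOf_occ (μ : Measure (ℤ → Bool)) [IsProbabilityMeasure μ] (x : ℤ) :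
    stOf μ (occ x) = (μ {η | η x = true}).toReal := by
  have hx : Measurable (fun η : ℤ → Bool => η x) := measurable_pi_apply x
  have hm : MeasurableSet {η : ℤ → Bool | η x = true} :=
    hx (measurableSet_singleton true)
  rw [stOf_apply]
  have : ∀ η : ℤ → Bool, (occ x).1 η = Set.indicator {η : ℤ → Bool | η x = true} (fun _ => 1) η := by
    intro η
    rw [occ_apply, Set.indicator_apply]
    rfl
  simp_rw [this]
  rw [integral_indicator_const _ hm, smul_eq_mul, mul_one]
  rfl

/-- From a stationary measure with the two limits to the data of the discrepancy analysis. -/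
theorem exists_setup {p : ℤ → ℝ} (hp : Ker p) (hpos : ∀ k : ℤ, 0 < k → 0 < p (-k))
    (μ : Measure (ℤ → Bool)) [IsProbabilityMeasure μ]
    (h : ∀ f, IsCylinder f → ∫ η, gen p f η ∂μ = 0) (hprof : HasProfile μ) :
    Nonempty (Setup p) := by
  have hst := stOf_isSt μ
  have hss := stOf_stat hp μ h
  set Φ := stOf μ with hΦ
  -- wrong occupation tends to zero
  have hw1 : Tendsto (fun z : ℤ => Φ (wrong z)) atBot (𝓝 0) := by
    refine hprof.1.congr' ?_
    filter_upwards [eventually_le_atBot 0] with z hz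
    rw [← stOf_occ]
    congr 1
    unfold occ wrong
    have : decide (z ≤ 0) = true := by simpa using hz
    rw [this]
  have hw2 : Tendsto (fun z : ℤ => Φ (wrong z)) atTop (𝓝 0) := by
    have h1 : Tendsto (fun z : ℤ => 1 - (μ {η | η z = true}).toReal) atTop (𝓝 (1 - 1)) :=
      tendsto_const_nhds.sub hprof.2
    rw [sub_self] at h1
    refine h1.congr' ?_
    filter_upwards [eventually_gt_atTop 0] with z hz
    rw [← stOf_occ, ← hst.one, ← map_sub]
    congr 1
    apply Cyl.ext'; intro η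
    rw [wrong_apply]
    change 1 - (if η z = true then (1 : ℝ) else 0) = _
    have : decide (z ≤ 0) = false := by
      rw [decide_eq_false_iff_not]; omega
    rw [this]
    cases η z <;> norm_num
  have hEE : ∀ j : ℕ, Tendsto (fun n : ℕ => Φ (EE j n)) atTop (𝓝 0) := by
    intro j
    have h1 : ∀ i ∈ box (j + 1), Tendsto (fun n : ℕ => Φ (wrong ((n : ℤ) + i)) +
        Φ (wrong (-((n : ℤ) + i)))) atTop (𝓝 (0 + 0)) := by
      intro i _
      have hn : Tendsto (fun n : ℕ => (n : ℤ) + i) atTop atTop :=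
        tendsto_atTop_add_const_right _ _ tendsto_natCast_atTop_atTop
      exact (hw2.comp hn).add (hw1.comp (tendsto_neg_atTop_atBot.comp hn))
    have h2 := tendsto_finsetSum _ h1
    simp only [add_zero, Finset.sum_const_zero] at h2
    refine h2.congr (fun n => ?_)
    rw [EE, map_sum]
    exact Finset.sum_congr rfl (fun i _ => (map_add _ _ _).symm)
  have hch : ∀ j : ℕ, ∃ n : ℕ, 2 * j + 5 ≤ n ∧ Φ (EE j n) ≤ (1 / 2) ^ j := by
    intro j
    have h1 := (hEE j).eventually (gt_mem_nhds (show (0 : ℝ) < (1 / 2) ^ j by positivity))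
    obtain ⟨n, hn1, hn2⟩ := (h1.and (eventually_ge_atTop (2 * j + 5))).exists
    exact ⟨n, hn2, hn1.le⟩
  choose nn hnn1 hnn2 using hch
  have hfin : ∑' j, ENNReal.ofReal ((Φ : Cyl Bool → ℝ) (EE j (nn j))) ≠ ⊤ := by
    have h1 : ∑' j : ℕ, ENNReal.ofReal ((1 / 2 : ℝ) ^ j) ≠ ⊤ := by
      have hs : Summable (fun j : ℕ => (1 / 2 : ℝ) ^ j) := summable_geometric_two
      rw [← ENNReal.ofReal_tsum_of_nonneg (fun j => by positivity) hs]
      exact ENNReal.ofReal_ne_top
    exact ne_top_of_le_ne_top h1 (ENNReal.tsum_le_tsum (fun j => ENNReal.ofReal_le_ofReal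
      (hnn2 j)))
  obtain ⟨κ, hκ, hκE⟩ := exists_extreme hp (fun j => EE j (nn j)) (fun j η => EE_nonneg _ _ η)
    (mem_Inv hst hss) hfin
  obtain ⟨ν, hν⟩ := (isCompact_Coup hp (lin κ hκ.1.1)).extremePoints_nonempty
    (Coup_nonempty hp (lin_isSt κ hκ.1.1) (Inv.stat hκ.1))
  exact ⟨⟨hp, hpos, κ, hκ, ν, hν, nn, hnn1, hκE⟩⟩

/-- No stationary measure with a shock profile for heavy left tails. -/
theorem no_profile {p : ℤ → ℝ} (h0 : ∀ k, 0 ≤ p k) (h1 : HasSum p 1)
    (h2 : Summable (fun k : ℤ => |(k : ℝ)| * p k)) {c α : ℝ} (hc : 0 < c)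
    (hα : α ^ 2 < 1 + α)
    (hpow : ∀ k : ℕ, 1 ≤ k → c * (k : ℝ) ^ (-(1 + α)) ≤ p (-(k : ℤ)))
    (μ : Measure (ℤ → Bool)) [IsProbabilityMeasure μ]
    (h : ∀ f, IsCylinder f → ∫ η, gen p f η ∂μ = 0) : ¬ HasProfile μ := by
  intro hprof
  have hp : Ker p := ⟨h0, h1, h2⟩
  have hpos : ∀ k : ℤ, 0 < k → 0 < p (-k) := by
    intro k hk
    obtain ⟨m, rfl⟩ := Int.eq_ofNat_of_zero_le hk.le
    have hm : 1 ≤ m := by exact_mod_cast hk
    have hm0 : (0 : ℝ) < m := by exact_mod_cast hm
    refine lt_of_lt_of_le ?_ (hpow m hm)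
    positivity
  obtain ⟨s⟩ := exists_setup hp hpos μ h hprof
  exact s.false_of_power hc hα hpow

/-- The semigroup form. -/
theorem stat_of_semigroup {p : ℤ → ℝ}
    {P : ℝ → ((ℤ → Bool) → ℝ) → ((ℤ → Bool) → ℝ)}
    (hP : IsExclusionSemigroup p P) (μ : Measure (ℤ → Bool)) [IsProbabilityMeasure μ]
    (hμ : ∀ t, 0 ≤ t → ∀ f, Continuous f → ∫ η, P t f η ∂μ = ∫ η, f η ∂μ)
    {f : (ℤ → Bool) → ℝ} (hf : IsCylinder f) : ∫ η, gen p f η ∂μ = 0 := by
  have hfc : Continuous f := by
    obtain ⟨A, hA⟩ := hf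
    set e : ({x // x ∈ A} → Bool) → (ℤ → Bool) := fun g x =>
      if h : x ∈ A then g ⟨x, h⟩ else false with he
    have h : f = (fun g => f (e g)) ∘ (fun (η : ℤ → Bool) (i : {x // x ∈ A}) => η i.1) := by
      funext η
      apply hA
      intro x hx
      simp [he, hx]
    rw [h]
    exact continuous_of_discreteTopology.comp (continuous_pi (fun i => continuous_apply _))
  have hint : ∀ g : (ℤ → Bool) → ℝ, Continuous g → Integrable g μ := by
    intro g hg
    obtain ⟨C, hC⟩ := isCompact_univ.exists_bound_of_continuousOn hg.continuousOn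
    exact Integrable.of_bound hg.aestronglyMeasurable C
      (Eventually.of_forall (fun η => hC η (Set.mem_univ _)))
  -- measurability of the generator applied to f
  have hlim : ∀ ε : ℝ, 0 < ε → |∫ η, gen p f η ∂μ| ≤ ε := by
    intro ε hε
    obtain ⟨δ, hδ, hd⟩ := hP.generator f hf ε hε
    have ht : 0 < δ / 2 := by positivity
    have h2 := hd (δ / 2) ht (by linarith)
    have hc1 := hP.cont (δ / 2) ht.le f hfc
    have hq : Continuous (fun η => (P (δ / 2) f η - f η) / (δ / 2)) :=
      (hc1.sub hfc).div_const _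
    have hq0 : ∫ η, (P (δ / 2) f η - f η) / (δ / 2) ∂μ = 0 := by
      rw [integral_div, integral_sub (hint _ hc1) (hint _ hfc), hμ _ ht.le f hfc, sub_self,
        zero_div]
    by_cases hg : Integrable (gen p f) μ
    · have h3 : ∫ η, gen p f η ∂μ = ∫ η, (gen p f η - (P (δ / 2) f η - f η) / (δ / 2)) ∂μ := by
        rw [integral_sub hg (hint _ hq), hq0, sub_zero]
      rw [h3, ← Real.norm_eq_abs]
      have h4 := norm_integral_le_of_norm_le_const (μ := μ) (C := ε)
        (f := fun η => gen p f η - (P (δ / 2) f η - f η) / (δ / 2))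
        (Eventually.of_forall (fun η => by
          rw [Real.norm_eq_abs, abs_sub_comm]
          exact h2 η))
      simpa using h4
    · rw [integral_undef hg, abs_zero]
      exact hε.le
  by_contra hne
  have hpos : 0 < |∫ η, gen p f η ∂μ| := abs_pos.2 hne
  have := hlim (|∫ η, gen p f η ∂μ| / 2) (by positivity)
  linarith

end Helper78Excl
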