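import Pool.Agent.Helper78_Excl.Main
import Pool.Agent.Helper78_Excl.Example

/-!
Exclusion process on the integers with infinite left second moment: for step distributions with
finite first moment whose left tail is at least of order `k ^ (-1-α)`, with `α` below the golden
ratio, there is no stationary distribution whose density tends to `0` at `-∞` and to `1` at `+∞`.
The explicit kernel `kern` satisfies hypothesis (H) and belongs to this class.
-/

namespace Pool.Agent.Helper78_Excl.NoShockMeasure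

open MeasureTheory Helper78Excl

theorem result :
    (∀ (p : ℤ → ℝ) (c α : ℝ), (∀ k, 0 ≤ p k) → HasSum p 1 →
      Summable (fun k : ℤ => |(k : ℝ)| * p k) → 0 < c → α ^ 2 < 1 + α →
      (∀ k : ℕ, 1 ≤ k → c * (k : ℝ) ^ (-(1 + α)) ≤ p (-(k : ℤ))) →
      (∀ μ : Measure (ℤ → Bool), IsProbabilityMeasure μ →
        (∀ f, IsCylinder f → ∫ η, gen p f η ∂μ = 0) → ¬ HasProfile μ) ∧
      (∀ P, IsExclusionSemigroup p P → ∀ μ : Measure (ℤ → Bool), IsProbabilityMeasure μ →
        (∀ t, 0 ≤ t → ∀ f, Continuous f → ∫ η, P t f η ∂μ = ∫ η, f η ∂μ) → ¬ HasProfile μ)) ∧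
    (IsStep kern ∧ IsH kern ∧
      ∀ k : ℕ, 1 ≤ k →
        (1 / (10 * zet (3 / 2))) * (k : ℝ) ^ (-(1 + 3 / 2) : ℝ) ≤ kern (-(k : ℤ))) := by
  refine ⟨?_, kern_isStep, kern_isH, kern_power⟩
  intro p c α h0 h1 h2 hc hα hpow
  refine ⟨?_, ?_⟩
  · intro μ hμ hst
    exact no_profile h0 h1 h2 hc hα hpow μ hst
  · intro P hP μ hμ hst
    exact no_profile h0 h1 h2 hc hα hpow μ (fun f hf => stat_of_semigroup hP μ hst hf)

end Pool.Agent.Helper78_Excl.NoShockMeasure
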