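import Pool.Agent.Helper78_Excl.Energy

set_option backward.isDefEq.respectTransparency false

namespace Helper78Excl

open Finset Filter Topology

namespace Setup

variable {p : ℤ → ℝ} (s : Setup p)

lemma N_dw (R : ℕ) : s.N (dw R) = s.ρ (R + 1) - s.ρ (-R) := by
  rw [dw, map_sum, s.sum_dp]

lemma exists_R : ∃ R : ℕ, 1 - s.N (dw R) ≤ 1 / 400 := by
  obtain ⟨n1, h1⟩ := s.ρ_bot (show (0 : ℝ) < 1 / 800 by norm_num)
  obtain ⟨n2, h2⟩ := s.ρ_top (show (0 : ℝ) < 1 / 800 by norm_num)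
  refine ⟨max n1 n2, ?_⟩
  rw [s.N_dw]
  have a1 := h1 (-(max n1 n2 : ℕ)) (by omega)
  have a2 := h2 ((max n1 n2 : ℕ) + 1) (by omega)
  linarith

/-- the main finite inequality -/
lemma final_ineq {R A B K : ℕ} (hK : 0 < K) (hA : 0 < A) (hRA : R < A)
    (hR : 1 - s.N (dw R) ≤ 1 / 400) {q1 q2 : ℝ} (hq1 : 0 < q1) (hq2 : 0 ≤ q2)
    (h1 : ∀ y : ℤ, -(2 * A : ℤ) < y → y ≤ -(A : ℤ) → ∀ w ∈ box R, q1 ≤ p (y - w))
    (h2 : ∀ y : ℤ, -(2 * A : ℤ) < y → y ≤ -(A : ℤ) → ∀ b : ℤ, (B : ℤ) ≤ b → b < 2 * B →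
      q2 ≤ p (y - b))
    (hB : ∀ b : ℤ, (B : ℤ) ≤ b → prof p R K 1 b ≤ 1 / 4)
    (hρB : ∀ b : ℤ, (B : ℤ) ≤ b → 7 / 8 ≤ s.ρ b)
    (hρA : ∀ y : ℤ, y ≤ -(A : ℤ) → s.ρ y ≤ 1 / 8)
    (hKA : 1536 * (2 * (R : ℝ) + 1) ^ 2 ≤ q1 * A * K) :
    A * B * q2 * K ≤ 192 * (2 * (R : ℝ) + 1) ^ 2 := by
  have hp := s.hp
  set F : ℝ := 2 * (R : ℝ) + 1 with hF
  have hF0 : 0 < F := by positivity
  have hKr : (0 : ℝ) < K := by exact_mod_cast hK
  have hAr : (0 : ℝ) < A := by exact_mod_cast hA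
  -- choose n
  have her := er_tendsto hp R K 1
  have hev1 := her.eventually (gt_mem_nhds (show (0 : ℝ) < 1 / (1600 * K) by positivity))
  have hev2 := her.eventually (gt_mem_nhds (show (0 : ℝ) < F / (2 * K) by positivity))
  obtain ⟨n, hn1, hn2, hn3⟩ := (hev1.and (hev2.and
    (eventually_ge_atTop (2 * R + 2 * A + 2 * B + 1)))).exists
  have hRn : R ≤ n := by omega
  have h2Rn : 2 * R < n := by omega
  set u := Ces p n (K * (2 * n + 1)) (win R) with hu
  have ht : Test p n R K u := test_Ces hp hK hRn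
  have hKer : K * er p R K 1 n ≤ 1 / 1600 := by
    have := mul_le_mul_of_nonneg_left hn1.le hKr.le
    refine this.trans (le_of_eq ?_)
    field_simp
  have hTheta : 2 * F ^ 2 / K + 2 * F * er p R K 1 n ≤ 3 * F ^ 2 / K := by
    have h3 := mul_le_mul_of_nonneg_left hn2.le (show 0 ≤ 2 * F by positivity)
    have h4 : 2 * F * (F / (2 * K)) = F ^ 2 / K := by field_simp
    have h5 : 3 * F ^ 2 / K = 2 * F ^ 2 / K + F ^ 2 / K := by ring
    linarith
  -- energies
  have kst2 : IsSt (cmp s.k (sh 1) (sh_loc 1)) := cmp_isSt s.k_st _ _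
  have kss2 : Stat p (cmp s.k (sh 1) (sh_loc 1)) := sh_stat s.k_stat 1
  have hE1 := (energy hp s.k_st s.k_stat hK h2Rn (win_dep R) (win_infl R) (win_nonneg R)
    (win_le R)).trans hTheta
  have hE2 := (energy hp kst2 kss2 hK h2Rn (win_dep R) (win_infl R) (win_nonneg R)
    (win_le R)).trans hTheta
  rw [← hu] at hE1 hE2
  have hE2' : ∑ x ∈ box n, ∑ y ∈ box n, p (y - x) * s.N (l2 ((Tc x y u - u) ^ 2))
      ≤ 3 * F ^ 2 / K := by
    refine le_trans (le_of_eq ?_) hE2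
    refine Finset.sum_congr rfl (fun x _ => Finset.sum_congr rfl (fun y _ => ?_))
    rw [cmp_apply]
    congr 1
    exact s.N2 _
  -- the expected number of discrepancies
  have hc1 := (abs_le.1 (stat_Ces hp s.k_st s.k_stat hK zero_le_one h2Rn (win_dep R)
    (win_infl R))).2
  have hc2 := (abs_le.1 (stat_Ces hp kst2 kss2 hK zero_le_one h2Rn (win_dep R)
    (win_infl R))).1
  rw [← hu] at hc1 hc2
  have hwdiff : cmp s.k (sh 1) (sh_loc 1) (win R) - s.k (win R) = s.N (dw R) := by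
    rw [s.N_dw, ← s.sum_tele, Finset.sum_sub_distrib]
    congr 1
    · rw [win, map_sum]; rfl
    · rw [win, map_sum]; rfl
  have hdc := s.deriv_close ht hRn
  have hN1 : s.N (l1 u) = s.k u := s.N1 u
  have hN2 : s.N (l2 u) = cmp s.k (sh 1) (sh_loc 1) u := s.N2 u
  set σ := ∑ w ∈ box R, s.N (dp w * l1 (1 - D w u)) with hσ
  have hσ1 : σ = s.N (dw R) - ∑ w ∈ box R, s.N (dp w * l1 (D w u)) := by
    rw [hσ, dw, map_sum, ← Finset.sum_sub_distrib]
    refine Finset.sum_congr rfl (fun w _ => ?_)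
    rw [← map_sub]
    congr 1
    have : l1 (1 - D w u) = 1 - l1 (D w u) := by
      unfold l1; rw [map_sub, map_one]
    rw [this, mul_sub, mul_one]
  have hσ2 : σ ≤ 1 / 400 + 2 * (1 / 1600) := by linarith
  -- the e's
  set e : ℤ → ℝ := fun y => ∑ w ∈ box R, s.N (dp w * l1 (vac y * (D w u - D y u) ^ 2)) with he
  have hterm0 : ∀ (w y : ℤ), 0 ≤ s.N (dp w * l1 (vac y * (D w u - D y u) ^ 2)) := by
    intro w y
    refine s.N_st.pos _ (fun η => ?_)
    exact mul_nonneg (dp_nonneg w η) (mul_nonneg (vac_nonneg y _) (sq_nonneg _))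
  have he0 : ∀ y, 0 ≤ e y := fun y => Finset.sum_nonneg (fun w _ => hterm0 w y)
  set Y : Finset ℤ := Finset.Ioc (-(2 * A : ℤ)) (-(A : ℤ)) with hY
  have hYn : Y ⊆ box n := by
    intro y hy
    rw [hY, Finset.mem_Ioc] at hy
    rw [mem_box]
    omega
  have hYcard : (Y.card : ℝ) = A := by
    have : Y.card = A := by rw [hY, Int.card_Ioc]; omega
    rw [this]
  have hRbox : box R ⊆ box n := box_mono hRn
  have hsumE : q1 * ∑ y ∈ Y, e y ≤ 3 * F ^ 2 / K := by
    have a1 : q1 * ∑ y ∈ Y, e y ≤ ∑ y ∈ Y, ∑ w ∈ box R,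
        p (y - w) * s.N (l2 ((Tc w y u - u) ^ 2)) := by
      rw [Finset.mul_sum]
      refine Finset.sum_le_sum (fun y hy => ?_)
      rw [he, Finset.mul_sum]
      refine Finset.sum_le_sum (fun w hw => ?_)
      have hy' := hy
      rw [hY, Finset.mem_Ioc] at hy'
      have hwy : w ≠ y := by
        rintro rfl
        rw [mem_box] at hw
        omega
      have b1 := s.energy_upper ht (hRbox hw) (hYn hy) hwy
      have b2 := h1 y hy'.1 hy'.2 w hw
      calc q1 * s.N (dp w * l1 (vac y * (D w u - D y u) ^ 2))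
          ≤ p (y - w) * s.N (dp w * l1 (vac y * (D w u - D y u) ^ 2)) :=
            mul_le_mul_of_nonneg_right b2 (hterm0 w y)
        _ ≤ _ := mul_le_mul_of_nonneg_left b1 (hp.nonneg _)
    have hnn : ∀ x y : ℤ, 0 ≤ p (y - x) * s.N (l2 ((Tc x y u - u) ^ 2)) := fun x y =>
      mul_nonneg (hp.nonneg _) (s.N_st.pos _ (fun η => sq_nonneg _))
    have a2 : ∑ y ∈ Y, ∑ w ∈ box R, p (y - w) * s.N (l2 ((Tc w y u - u) ^ 2))
        ≤ ∑ x ∈ box n, ∑ y ∈ box n, p (y - x) * s.N (l2 ((Tc x y u - u) ^ 2)) := by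
      rw [Finset.sum_comm]
      refine le_trans ?_ (Finset.sum_le_sum_of_subset_of_nonneg hRbox
        (fun x _ _ => Finset.sum_nonneg (fun y _ => hnn x y)))
      exact Finset.sum_le_sum (fun x _ => Finset.sum_le_sum_of_subset_of_nonneg hYn
        (fun y _ _ => hnn x y))
    linarith
  -- good sites
  set Yb := Y.filter (fun y => 1 / 256 < e y) with hYb
  set Yg := Y.filter (fun y => ¬ (1 / 256 < e y)) with hYg
  have hcardsum : (Yb.card : ℝ) + Yg.card = A := by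
    rw [← hYcard, ← Finset.card_filter_add_card_filter_not (s := Y) (fun y => 1 / 256 < e y)]
    push_cast
    rfl
  have hbcard : (Yb.card : ℝ) ≤ A / 2 := by
    have a1 : (Yb.card : ℝ) * (1 / 256) ≤ ∑ y ∈ Y, e y := by
      have b1 : ∑ y ∈ Yb, (1 / 256 : ℝ) ≤ ∑ y ∈ Yb, e y :=
        Finset.sum_le_sum (fun y hy => (Finset.mem_filter.1 hy).2.le)
      rw [Finset.sum_const, nsmul_eq_mul] at b1
      exact b1.trans (Finset.sum_le_sum_of_subset_of_nonneg (Finset.filter_subset _ _)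
        (fun y _ _ => he0 y))
    have a2 : q1 * ((Yb.card : ℝ) * (1 / 256)) ≤ 3 * F ^ 2 / K :=
      (mul_le_mul_of_nonneg_left a1 hq1.le).trans hsumE
    have a3 : 3 * F ^ 2 / K ≤ q1 * A / 512 := by
      rw [div_le_iff₀ hKr]
      linarith
    have a4 : q1 * ((Yb.card : ℝ) * (1 / 256)) ≤ q1 * (A / 512) := by linarith
    have a5 := le_of_mul_le_mul_left a4 hq1
    linarith
  have hgcard : (A : ℝ) / 2 ≤ Yg.card := by linarith
  -- lower bound of the energy
  set Bs : Finset ℤ := Finset.Ico (B : ℤ) (2 * B) with hBs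
  have hBcard : (Bs.card : ℝ) = B := by
    have : Bs.card = B := by rw [hBs, Int.card_Ico]; omega
    rw [this]
  have hBn : Bs ⊆ box n := by
    intro y hy
    rw [hBs, Finset.mem_Ico] at hy
    rw [mem_box]
    omega
  have hlow : ∀ b ∈ Bs, ∀ y ∈ Yg, q2 * (1 / 32) ≤ p (y - b) * s.k ((Tc b y u - u) ^ 2) := by
    intro b hb y hy
    rw [hBs, Finset.mem_Ico] at hb
    have hyY := (Finset.mem_filter.1 hy).1
    have hey := not_lt.1 (Finset.mem_filter.1 hy).2
    rw [hY, Finset.mem_Ioc] at hyY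
    have hby : b ≠ y := by omega
    have c1 := s.energy_lower ht hby (hB b hb.1)
    have c2 := s.deriv_vac ht hRn y
    have c3 := hρB b hb.1
    have c4 := hρA y hyY.2
    have c5 : s.k (vac y * (1 - D y u) ^ 2) ≤ 1 / 400 + 2 * (1 / 256) +
        2 * (1 / 400 + 2 * (1 / 1600)) := by
      refine c2.trans ?_
      have : ∑ w ∈ box R, s.N (dp w * l1 (vac y * (D w u - D y u) ^ 2)) = e y := rfl
      rw [this]
      linarith
    have c6 : 1 / 32 ≤ s.k ((Tc b y u - u) ^ 2) := by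
      have : (1 : ℝ) / 32 ≤ (7 / 8 - 1 / 8) / 4 - 4 * (1 / 400 + 2 * (1 / 256) +
        2 * (1 / 400 + 2 * (1 / 1600))) := by norm_num
      linarith
    have c7 := h2 y hyY.1 hyY.2 b hb.1 hb.2
    exact mul_le_mul c7 c6 (by norm_num) (hp.nonneg _)
  have hnn : ∀ x y : ℤ, 0 ≤ p (y - x) * s.k ((Tc x y u - u) ^ 2) := fun x y =>
    mul_nonneg (hp.nonneg _) (s.k_st.pos _ (fun η => sq_nonneg _))
  have hfin : (Bs.card : ℝ) * (Yg.card * (q2 * (1 / 32))) ≤ 3 * F ^ 2 / K := by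
    refine le_trans ?_ hE1
    have a1 : (Bs.card : ℝ) * (Yg.card * (q2 * (1 / 32)))
        = ∑ b ∈ Bs, ∑ y ∈ Yg, q2 * (1 / 32) := by
      rw [Finset.sum_const, Finset.sum_const, nsmul_eq_mul, nsmul_eq_mul]
    rw [a1]
    refine le_trans (Finset.sum_le_sum (fun b hb => Finset.sum_le_sum
      (fun y hy => hlow b hb y hy))) ?_
    refine le_trans ?_ (Finset.sum_le_sum_of_subset_of_nonneg hBn
        (fun x _ _ => Finset.sum_nonneg (fun y _ => hnn x y)))
    exact Finset.sum_le_sum (fun x _ => Finset.sum_le_sum_of_subset_of_nonneg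
      ((Finset.filter_subset _ _).trans hYn) (fun y _ _ => hnn x y))
  rw [hBcard] at hfin
  have hfin2 : (B : ℝ) * (A / 2 * (q2 * (1 / 32))) ≤ 3 * F ^ 2 / K := by
    refine le_trans ?_ hfin
    have : (A : ℝ) / 2 * (q2 * (1 / 32)) ≤ Yg.card * (q2 * (1 / 32)) :=
      mul_le_mul_of_nonneg_right hgcard (by positivity)
    exact mul_le_mul_of_nonneg_left this (by positivity)
  rw [le_div_iff₀ hKr] at hfin2
  nlinarith

end Setup

end Helper78Excl
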