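import Pool.Agent.Helper78_Excl.Numeric

set_option backward.isDefEq.respectTransparency false

namespace Helper78Excl

open Finset Filter Topology

namespace Setup

variable {p : ℤ → ℝ} (s : Setup p)

lemma pow_bound {c α : ℝ} (hc : 0 < c) (hα : 0 ≤ 1 + α)
    (hpow : ∀ k : ℕ, 1 ≤ k → c * (k : ℝ) ^ (-(1 + α)) ≤ p (-(k : ℤ))) {m : ℤ} {M : ℝ}
    (h1 : 1 ≤ m) (h2 : (m : ℝ) ≤ M) : c * M ^ (-(1 + α)) ≤ p (-m) := by
  obtain ⟨k, rfl⟩ := Int.eq_ofNat_of_zero_le (show 0 ≤ m by omega)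
  have hk : 1 ≤ k := by exact_mod_cast h1
  refine le_trans ?_ (hpow k hk)
  refine mul_le_mul_of_nonneg_left ?_ hc.le
  have hk0 : (0 : ℝ) < (k : ℝ) := by exact_mod_cast hk
  have h2' : (k : ℝ) ≤ M := by exact_mod_cast h2
  exact Real.rpow_le_rpow_of_nonpos hk0 h2' (by linarith)

include s in
lemma false_of_power_aux {c α : ℝ} (hc : 0 < c) (hα1 : 1 ≤ α) (hα : α ^ 2 < 1 + α)
    (hpow : ∀ k : ℕ, 1 ≤ k → c * (k : ℝ) ^ (-(1 + α)) ≤ p (-(k : ℤ))) : False := by
  obtain ⟨R, hR⟩ := s.exists_R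
  have hM := s.hp.M1_nonneg
  set F : ℝ := 2 * (R : ℝ) + 1 with hF
  have hF1 : 1 ≤ F := by
    have : (0 : ℝ) ≤ R := Nat.cast_nonneg R
    linarith
  obtain ⟨n1, h1⟩ := s.ρ_bot (show (0 : ℝ) < 1 / 8 by norm_num)
  obtain ⟨n2, h2⟩ := s.ρ_top (show (0 : ℝ) < 1 / 8 by norm_num)
  set C1 : ℝ := 1536 * F ^ 2 * 3 ^ (1 + α) / c with hC1
  have hC1pos : 0 < C1 := by positivity
  set C2 : ℝ := 6 + 8 * M1 p * (C1 + 1) with hC2
  have hC2pos : 0 < C2 := by positivity
  -- the key inequality for all large A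
  have key : ∀ A : ℕ, max (R + 1) (max n1 n2) ≤ A →
      (A : ℝ) ^ (1 + α - α ^ 2) * (C1 * c * 4 ^ (-(1 + α)) * C2 ^ (-α)) ≤ 192 * F ^ 2 := by
    intro A hA
    have hA1 : 1 ≤ A := by omega
    have hAr : (1 : ℝ) ≤ A := by exact_mod_cast hA1
    have hA0 : (0 : ℝ) < A := by linarith
    have hAα : (A : ℝ) ≤ (A : ℝ) ^ α := by
      have := Real.rpow_le_rpow_of_exponent_le hAr hα1
      rwa [Real.rpow_one] at this
    have hAα1 : (1 : ℝ) ≤ (A : ℝ) ^ α := hAr.trans hAα
    set q1 : ℝ := c * (3 * (A : ℝ)) ^ (-(1 + α)) with hq1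
    have hq1pos : 0 < q1 := by positivity
    set K : ℕ := ⌈C1 * (A : ℝ) ^ α⌉₊ with hK
    have hK1 : C1 * (A : ℝ) ^ α ≤ K := Nat.le_ceil _
    have hK2 : (K : ℝ) ≤ (C1 + 1) * (A : ℝ) ^ α := by
      have := Nat.ceil_lt_add_one (show 0 ≤ C1 * (A : ℝ) ^ α by positivity)
      have h3 : (K : ℝ) < C1 * (A : ℝ) ^ α + 1 := this
      nlinarith
    have hKpos : 0 < K := Nat.ceil_pos.2 (by positivity)
    have hKr : (0 : ℝ) < K := by exact_mod_cast hKpos
    set B : ℕ := ⌈8 * M1 p * K⌉₊ + R + 1 + 2 * A with hB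
    have hBreal : 8 * M1 p * K + R + 1 ≤ B := by
      have := Nat.le_ceil (8 * M1 p * K)
      rw [hB]; push_cast
      linarith
    have hBup : (B : ℝ) ≤ C2 * (A : ℝ) ^ α := by
      have h3 := Nat.ceil_lt_add_one (show 0 ≤ 8 * M1 p * K by positivity)
      have h4 : (R : ℝ) ≤ A := by
        have : R ≤ A := by omega
        exact_mod_cast this
      have h5 : 8 * M1 p * K ≤ 8 * M1 p * ((C1 + 1) * (A : ℝ) ^ α) :=
        mul_le_mul_of_nonneg_left hK2 (by positivity)
      rw [hB, hC2]; push_cast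
      nlinarith
    have hBpos : (0 : ℝ) < B := by
      have : 0 < B := by omega
      exact_mod_cast this
    set q2 : ℝ := c * (4 * (B : ℝ)) ^ (-(1 + α)) with hq2
    have hq2pos : 0 < q2 := by positivity
    have hfin := s.final_ineq (R := R) (A := A) (B := B) (K := K) hKpos (by omega) (by omega) hR
      hq1pos hq2pos.le
      (fun y hy1 hy2 w hw => by
        rw [mem_box] at hw
        have hm : 1 ≤ w - y := by omega
        have hM3 : ((w - y : ℤ) : ℝ) ≤ 3 * (A : ℝ) := by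
          have : w - y ≤ 3 * (A : ℤ) := by omega
          exact_mod_cast this
        have := pow_bound hc (by linarith) hpow hm hM3
        rwa [neg_sub] at this)
      (fun y hy1 hy2 b hb1 hb2 => by
        have hm : 1 ≤ b - y := by omega
        have hM3 : ((b - y : ℤ) : ℝ) ≤ 4 * (B : ℝ) := by
          have : b - y ≤ 4 * (B : ℤ) := by omega
          exact_mod_cast this
        have := pow_bound hc (by linarith) hpow hm hM3
        rwa [neg_sub] at this)
      (fun b hb => by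
        have hd : (0 : ℝ) < 8 * M1 p * K + 1 := by positivity
        have hb' : (B : ℝ) ≤ ((|b| : ℤ) : ℝ) := by
          have : (B : ℤ) ≤ |b| := hb.trans (le_abs_self b)
          exact_mod_cast this
        refine (prof_le' s.hp R K zero_le_one hd (by linarith)).trans ?_
        rw [div_le_iff₀ hd]
        nlinarith)
      (fun b hb => by
        have := h2 b (by omega)
        linarith)
      (fun y hy => by
        have := h1 y (by omega)
        linarith)
      (by
        have e1 : q1 * A = c * 3 ^ (-(1 + α)) * (A : ℝ) ^ (-α) := by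
          rw [hq1, Real.mul_rpow (by norm_num) hA0.le]
          have : (A : ℝ) ^ (-(1 + α)) * A = (A : ℝ) ^ (-α) := by
            rw [← Real.rpow_add_one hA0.ne']
            congr 1
            ring
          rw [mul_assoc, mul_assoc, this]
          ring
        have e2 : 1536 * F ^ 2 = c * 3 ^ (-(1 + α)) * (A : ℝ) ^ (-α) * (C1 * (A : ℝ) ^ α) := by
          have h3 : (3 : ℝ) ^ (-(1 + α)) * 3 ^ (1 + α) = 1 := by
            rw [← Real.rpow_add (by norm_num), neg_add_cancel, Real.rpow_zero]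
          have h4 : (A : ℝ) ^ (-α) * (A : ℝ) ^ α = 1 := by
            rw [← Real.rpow_add hA0, neg_add_cancel, Real.rpow_zero]
          calc 1536 * F ^ 2 = 1536 * F ^ 2 * ((3 : ℝ) ^ (-(1 + α)) * 3 ^ (1 + α))
                * ((A : ℝ) ^ (-α) * (A : ℝ) ^ α) := by rw [h3, h4]; ring
            _ = _ := by
              rw [hC1]
              field_simp
        rw [e2, ← e1]
        exact mul_le_mul_of_nonneg_left hK1 (by positivity))
    -- rewrite
    have e3 : (A : ℝ) * B * q2 * K = A * K * c * 4 ^ (-(1 + α)) * (B : ℝ) ^ (-α) := by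
      rw [hq2, Real.mul_rpow (by norm_num) hBpos.le]
      have : (B : ℝ) * (B : ℝ) ^ (-(1 + α)) = (B : ℝ) ^ (-α) := by
        rw [mul_comm, ← Real.rpow_add_one hBpos.ne']
        congr 1
        ring
      rw [← this]
      ring
    rw [e3] at hfin
    have hBα : C2 ^ (-α) * (A : ℝ) ^ (-(α ^ 2)) ≤ (B : ℝ) ^ (-α) := by
      have h3 : (C2 * (A : ℝ) ^ α) ^ (-α) ≤ (B : ℝ) ^ (-α) :=
        Real.rpow_le_rpow_of_nonpos hBpos hBup (by linarith)
      rw [Real.mul_rpow hC2pos.le (by positivity), ← Real.rpow_mul hA0.le] at h3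
      have h4 : α * -α = -(α ^ 2) := by ring
      rwa [h4] at h3
    refine le_trans ?_ hfin
    have e4 : (A : ℝ) ^ (1 + α - α ^ 2) = A * (A : ℝ) ^ α * (A : ℝ) ^ (-(α ^ 2)) := by
      rw [sub_eq_add_neg, Real.rpow_add hA0, Real.rpow_add hA0, Real.rpow_one]
    rw [e4]
    calc A * (A : ℝ) ^ α * (A : ℝ) ^ (-(α ^ 2)) * (C1 * c * 4 ^ (-(1 + α)) * C2 ^ (-α))
        = (A * (C1 * (A : ℝ) ^ α) * c * 4 ^ (-(1 + α))) * (C2 ^ (-α) * (A : ℝ) ^ (-(α ^ 2))) := by
          ring
      _ ≤ (A * K * c * 4 ^ (-(1 + α))) * (B : ℝ) ^ (-α) := by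
          refine mul_le_mul ?_ hBα (by positivity) (by positivity)
          gcongr
  -- contradiction
  have hexp : 0 < 1 + α - α ^ 2 := by linarith
  have hlim : Tendsto (fun A : ℕ => (A : ℝ) ^ (1 + α - α ^ 2) *
      (C1 * c * 4 ^ (-(1 + α)) * C2 ^ (-α))) atTop atTop := by
    apply Tendsto.atTop_mul_const (by positivity)
    exact (tendsto_rpow_atTop hexp).comp tendsto_natCast_atTop_atTop
  obtain ⟨A, hA1, hA2⟩ := ((hlim.eventually (eventually_gt_atTop (192 * F ^ 2))).and
    (eventually_ge_atTop (max (R + 1) (max n1 n2)))).exists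
  exact absurd (key A hA2) (not_le.2 hA1)

include s in
/-- There is no such setup for kernels whose left tail is at least of order `k ^ (-1-α)` with
`α` below the golden ratio. -/
theorem false_of_power {c α : ℝ} (hc : 0 < c) (hα : α ^ 2 < 1 + α)
    (hpow : ∀ k : ℕ, 1 ≤ k → c * (k : ℝ) ^ (-(1 + α)) ≤ p (-(k : ℤ))) : False := by
  rcases le_total 1 α with h | h
  · exact s.false_of_power_aux hc h hα hpow
  · refine s.false_of_power_aux (α := 1) hc le_rfl (by norm_num) (fun k hk => ?_)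
    refine le_trans ?_ (hpow k hk)
    refine mul_le_mul_of_nonneg_left ?_ hc.le
    exact Real.rpow_le_rpow_of_exponent_le (by exact_mod_cast hk) (by linarith)

end Setup

end Helper78Excl
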