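import Pool.Agent.Helper78_Excl.Chain

set_option backward.isDefEq.respectTransparency false

namespace Helper78Excl

open Finset Filter Topology

section
variable {S : Type} [Lattice S]

lemma abs_Tc_sub_le (f : Cyl S) (x y : ℤ) (η : ℤ → S) : |(Tc x y f - f).1 η| ≤ 2 * bd f := by
  have h1 := abs_le_bd f (T x y η)
  have h2 := abs_le_bd f η
  have h3 : (Tc x y f - f).1 η = f.1 (T x y η) - f.1 η := rfl
  rw [h3]
  have := abs_sub (f.1 (T x y η)) (f.1 η)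
  linarith

lemma term_bound {p : ℤ → ℝ} (hp : Ker p) {Φ : Cyl S →ₗ[ℝ] ℝ} (hΦ : Pos Φ) {n : ℕ} {f : Cyl S}
    (hf : Dep n f.1) (xy : ℤ × ℤ) :
    ‖p (xy.2 - xy.1) * Φ (Tc xy.1 xy.2 f - f)‖ ≤
      (if xy.1 ∈ box n ∨ xy.2 ∈ box n then p (xy.2 - xy.1) else 0) * (2 * bd f * Φ 1) := by
  rw [Real.norm_eq_abs, abs_mul, abs_of_nonneg (hp.nonneg _)]
  split_ifs with h
  · exact mul_le_mul_of_nonneg_left (hΦ.abs_le_const (abs_Tc_sub_le f _ _)) (hp.nonneg _)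
  · push Not at h
    rw [Tc_out hf h.1 h.2, sub_self, map_zero]
    simp

lemma stat_summable {p : ℤ → ℝ} (hp : Ker p) {Φ : Cyl S →ₗ[ℝ] ℝ} (hΦ : Pos Φ) (f : Cyl S) :
    Summable (fun xy : ℤ × ℤ => p (xy.2 - xy.1) * Φ (Tc xy.1 xy.2 f - f)) := by
  obtain ⟨n, hn⟩ := f.2.1
  exact Summable.of_norm_bounded ((pair_summable hp n).mul_right _) (term_bound hp hΦ hn)

lemma tendsto_box : Tendsto (fun m : ℕ => box m ×ˢ box m) atTop atTop := by
  apply tendsto_atTop_finset_of_monotone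
  · intro m n h
    exact Finset.product_subset_product (box_mono h) (box_mono h)
  · intro xy
    refine ⟨max xy.1.natAbs xy.2.natAbs, ?_⟩
    simp only [Finset.mem_product, mem_box]
    omega

lemma stat_tendsto {p : ℤ → ℝ} (hp : Ker p) {Φ : Cyl S →ₗ[ℝ] ℝ} (hΦ : Pos Φ) (hs : Stat p Φ)
    (f : Cyl S) :
    Tendsto (fun m : ℕ => ∑ x ∈ box m, ∑ y ∈ box m, p (y - x) * Φ (Tc x y f - f))
      atTop (𝓝 0) := by
  have h1 := (stat_summable hp hΦ f).hasSum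
  rw [hs f] at h1
  have h2 := h1.comp tendsto_box
  refine h2.congr (fun m => ?_)
  simp only [Function.comp_apply]
  rw [Finset.sum_product]

lemma map_Lop (p : ℤ → ℝ) (Φ : Cyl S →ₗ[ℝ] ℝ) (n : ℕ) (f : Cyl S) :
    Φ (Lop p n f) = ∑ x ∈ box n, ∑ y ∈ box n, p (y - x) * Φ (Tc x y f - f) := by
  rw [Lop_map, map_sum]
  refine Finset.sum_congr rfl (fun x _ => ?_)
  rw [map_sum]
  refine Finset.sum_congr rfl (fun y _ => ?_)
  rw [map_smul, smul_eq_mul]

lemma stat_err {p : ℤ → ℝ} (hp : Ker p) {Φ : Cyl S →ₗ[ℝ] ℝ} (hΦ : Pos Φ) (hs : Stat p Φ)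
    {n r : ℕ} {u : Cyl S} (hu : Dep n u.1) {G : ℤ → ℤ → ℝ} {δ C : ℝ} (hδ : 0 ≤ δ) (hC : 0 ≤ C)
    (hG1 : ∀ x ∈ box n, ∀ y, y ∉ box n → |Φ (Tc x y u - u)| ≤ G x y)
    (hG2 : ∀ x ∈ box n, ∀ y, y ∉ box n → |Φ (Tc y x u - u)| ≤ G x y)
    (h1 : ∀ x ∈ box n, ∀ y, y ∉ box n → G x y ≤ C)
    (h2 : ∀ x ∈ box n, ∀ y, y ∉ box n → |y - x| ≤ r → G x y ≤ δ) :
    |Φ (Lop p n u)| ≤ 2 * (M1 p * δ + C * tl p r) := by
  have ht := stat_tendsto hp hΦ hs u
  have ht' := ht.norm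
  rw [norm_zero] at ht'
  have key : ∀ m, n ≤ m → |Φ (Lop p n u)| ≤
      ‖∑ x ∈ box m, ∑ y ∈ box m, p (y - x) * Φ (Tc x y u - u)‖
        + 2 * (M1 p * δ + C * tl p r) := by
    intro m hm
    have hsub := box_mono hm
    have hdec : ∑ x ∈ box m, ∑ y ∈ box m, p (y - x) * Φ (Tc x y u - u)
        = Φ (Lop p n u) + ∑ x ∈ box n, ∑ y ∈ box m \ box n, p (y - x) * Φ (Tc x y u - u)
          + ∑ x ∈ box m \ box n, ∑ y ∈ box n, p (y - x) * Φ (Tc x y u - u) := by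
      rw [map_Lop, ← Finset.sum_sdiff hsub]
      have e1 : ∀ x, ∑ y ∈ box m, p (y - x) * Φ (Tc x y u - u)
          = ∑ y ∈ box m \ box n, p (y - x) * Φ (Tc x y u - u)
            + ∑ y ∈ box n, p (y - x) * Φ (Tc x y u - u) := fun x =>
        (Finset.sum_sdiff hsub).symm
      simp only [e1, Finset.sum_add_distrib]
      have e2 : ∑ x ∈ box m \ box n, ∑ y ∈ box m \ box n, p (y - x) * Φ (Tc x y u - u) = 0 := by
        refine Finset.sum_eq_zero (fun x hx => Finset.sum_eq_zero (fun y hy => ?_))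
        rw [Tc_out hu (Finset.mem_sdiff.1 hx).2 (Finset.mem_sdiff.1 hy).2, sub_self, map_zero,
          mul_zero]
      rw [e2]
      ring
    have b1 : |∑ x ∈ box n, ∑ y ∈ box m \ box n, p (y - x) * Φ (Tc x y u - u)|
        ≤ M1 p * δ + C * tl p r := by
      refine (Finset.abs_sum_le_sum_abs _ _).trans ?_
      refine le_trans (Finset.sum_le_sum (fun x hx => ?_)) (cross_bound hp hδ hC h1 h2 m)
      refine (Finset.abs_sum_le_sum_abs _ _).trans ?_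
      refine Finset.sum_le_sum (fun y hy => ?_)
      rw [abs_mul, abs_of_nonneg (hp.nonneg _)]
      exact mul_le_mul_of_nonneg_left (hG1 x hx y (Finset.mem_sdiff.1 hy).2) (hp.nonneg _)
    have b2 : |∑ x ∈ box m \ box n, ∑ y ∈ box n, p (y - x) * Φ (Tc x y u - u)|
        ≤ M1 p * δ + C * tl p r := by
      rw [Finset.sum_comm]
      refine (Finset.abs_sum_le_sum_abs _ _).trans ?_
      have := cross_bound hp.neg hδ hC h1 h2 m
      rw [M1_neg, tl_neg] at this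
      refine le_trans (Finset.sum_le_sum (fun x hx => ?_)) this
      refine (Finset.abs_sum_le_sum_abs _ _).trans ?_
      refine Finset.sum_le_sum (fun y hy => ?_)
      rw [abs_mul, abs_of_nonneg (hp.nonneg _), neg_sub]
      exact mul_le_mul_of_nonneg_left (hG2 x hx y (Finset.mem_sdiff.1 hy).2) (hp.nonneg _)
    have e3 : Φ (Lop p n u) = ∑ x ∈ box m, ∑ y ∈ box m, p (y - x) * Φ (Tc x y u - u)
        - ∑ x ∈ box n, ∑ y ∈ box m \ box n, p (y - x) * Φ (Tc x y u - u)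
        - ∑ x ∈ box m \ box n, ∑ y ∈ box n, p (y - x) * Φ (Tc x y u - u) := by
      rw [hdec]; ring
    rw [Real.norm_eq_abs]
    calc |Φ (Lop p n u)| = |∑ x ∈ box m, ∑ y ∈ box m, p (y - x) * Φ (Tc x y u - u)
        - ∑ x ∈ box n, ∑ y ∈ box m \ box n, p (y - x) * Φ (Tc x y u - u)
        - ∑ x ∈ box m \ box n, ∑ y ∈ box n, p (y - x) * Φ (Tc x y u - u)| := by rw [← e3]
      _ ≤ |∑ x ∈ box m, ∑ y ∈ box m, p (y - x) * Φ (Tc x y u - u)
        - ∑ x ∈ box n, ∑ y ∈ box m \ box n, p (y - x) * Φ (Tc x y u - u)|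
        + |∑ x ∈ box m \ box n, ∑ y ∈ box n, p (y - x) * Φ (Tc x y u - u)| := abs_sub _ _
      _ ≤ |∑ x ∈ box m, ∑ y ∈ box m, p (y - x) * Φ (Tc x y u - u)|
        + |∑ x ∈ box n, ∑ y ∈ box m \ box n, p (y - x) * Φ (Tc x y u - u)|
        + |∑ x ∈ box m \ box n, ∑ y ∈ box n, p (y - x) * Φ (Tc x y u - u)| := by
          gcongr
          exact abs_sub _ _
      _ ≤ _ := by linarith
  have hlim : Tendsto (fun m => ‖∑ x ∈ box m, ∑ y ∈ box m, p (y - x) * Φ (Tc x y u - u)‖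
        + 2 * (M1 p * δ + C * tl p r)) atTop (𝓝 (0 + 2 * (M1 p * δ + C * tl p r))) :=
    ht'.add tendsto_const_nhds
  rw [zero_add] at hlim
  exact ge_of_tendsto hlim (by
    filter_upwards [eventually_ge_atTop n] with m hm
    exact key m hm)

end

lemma infl_cross {n : ℕ} {u : (ℤ → Bool) → ℝ} (hu : Dep n u) {g : ℤ → ℝ} (hg : Infl u g)
    {x y : ℤ} (hy : y ∉ box n) (η : ℤ → Bool) : |u (T x y η) - u η| ≤ g x := by
  have h : u (T x y η) = u (Function.update η x (T x y η x)) := by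
    apply hu
    intro z hz
    have hzy : z ≠ y := by rintro rfl; exact hy hz
    by_cases hzx : z = x
    · subst hzx; simp
    · rw [Function.update_of_ne hzx, T_of_ne hzx hzy]
  rw [h]
  exact hg _ _ _

lemma infl_cross' {n : ℕ} {u : (ℤ → Bool) → ℝ} (hu : Dep n u) {g : ℤ → ℝ} (hg : Infl u g)
    {x y : ℤ} (hy : y ∉ box n) (η : ℤ → Bool) : |u (T y x η) - u η| ≤ g x := by
  have h : u (T y x η) = u (Function.update η x (T y x η x)) := by
    apply hu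
    intro z hz
    have hzy : z ≠ y := by rintro rfl; exact hy hz
    by_cases hzx : z = x
    · subst hzx; simp
    · rw [Function.update_of_ne hzx, T_of_ne hzy hzx]
  rw [h]
  exact hg _ _ _

lemma Infl.nonneg {u : (ℤ → Bool) → ℝ} {g : ℤ → ℝ} (hg : Infl u g) (x : ℤ) : 0 ≤ g x :=
  (abs_nonneg _).trans (hg x (fun _ => false) false)

lemma stat_infl {p : ℤ → ℝ} (hp : Ker p) {κ : Cyl Bool →ₗ[ℝ] ℝ} (hκ : IsSt κ) (hs : Stat p κ)
    {n r : ℕ} {u : Cyl Bool} (hu : Dep n u.1) {g : ℤ → ℝ} (hg : Infl u.1 g) {δ C : ℝ}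
    (hδ : 0 ≤ δ) (hC : 0 ≤ C) (h1 : ∀ x, g x ≤ C)
    (h2 : ∀ x : ℤ, (n : ℤ) - r < |x| → g x ≤ δ) :
    |κ (Lop p n u)| ≤ 2 * (M1 p * δ + C * tl p r) := by
  refine stat_err hp hκ.pos hs hu (G := fun x _ => g x) hδ hC ?_ ?_ (fun x _ y _ => h1 x) ?_
  · intro x _ y hy
    exact hκ.abs_le_const (fun η => infl_cross hu hg hy η)
  · intro x _ y hy
    exact hκ.abs_le_const (fun η => infl_cross' hu hg hy η)
  · intro x hx y hy hxy
    apply h2
    rw [mem_box_abs] at hx hy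
    have : |y| ≤ |x| + |y - x| := by
      have := abs_add_le x (y - x)
      rwa [add_sub_cancel] at this
    omega

/-- the error function -/
noncomputable def er (p : ℤ → ℝ) (R K : ℕ) (C : ℝ) (n : ℕ) : ℝ :=
  2 * (M1 p * (2 * M1 p * C * K / ((n : ℝ) / 2 - R)) + C * tl p (n / 2))

lemma er_tendsto {p : ℤ → ℝ} (hp : Ker p) (R K : ℕ) (C : ℝ) :
    Tendsto (er p R K C) atTop (𝓝 0) := by
  have h1 : Tendsto (fun n : ℕ => (n : ℝ) / 2 - R) atTop atTop := by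
    apply tendsto_atTop_add_const_right
    exact tendsto_natCast_atTop_atTop.atTop_div_const (by norm_num)
  have h2 : Tendsto (fun n : ℕ => 2 * M1 p * C * K / ((n : ℝ) / 2 - R)) atTop (𝓝 0) :=
    h1.const_div_atTop _
  have h3 : Tendsto (fun n : ℕ => tl p (n / 2)) atTop (𝓝 0) :=
    hp.tl_tendsto.comp (Nat.tendsto_div_const_atTop (by norm_num))
  have h4 := ((h2.const_mul (M1 p)).add (h3.const_mul C)).const_mul 2
  have h5 : er p R K C = fun n : ℕ =>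
      2 * (M1 p * (2 * M1 p * C * K / ((n : ℝ) / 2 - R)) + C * tl p (n / 2)) := rfl
  rw [h5]
  simpa using h4

lemma er_nonneg {p : ℤ → ℝ} (hp : Ker p) {R K : ℕ} {C : ℝ} (hC : 0 ≤ C) {n : ℕ}
    (hn : 2 * R < n) : 0 ≤ er p R K C n := by
  have h1 := hp.M1_nonneg
  have h2 := hp.tl_nonneg (n / 2)
  have h3 : (0 : ℝ) < (n : ℝ) / 2 - R := by
    have : (2 * R : ℝ) < n := by exact_mod_cast hn
    linarith
  unfold er
  positivity

lemma prof_near {p : ℤ → ℝ} (hp : Ker p) {R K : ℕ} {C : ℝ} (hC : 0 ≤ C) {n : ℕ}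
    (hn : 2 * R < n) {x : ℤ} (hx : (n : ℤ) - (n / 2 : ℕ) < |x|) :
    prof p R K C x ≤ 2 * M1 p * C * K / ((n : ℝ) / 2 - R) := by
  have h3 : (0 : ℝ) < (n : ℝ) / 2 - R := by
    have : (2 * R : ℝ) < n := by exact_mod_cast hn
    linarith
  refine prof_le' hp R K hC h3 ?_
  have h4 : (n : ℤ) < 2 * |x| := by omega
  have h5 : (n : ℝ) < 2 * ((|x| : ℤ) : ℝ) := by exact_mod_cast h4
  linarith

lemma stat_prof {p : ℤ → ℝ} (hp : Ker p) {κ : Cyl Bool →ₗ[ℝ] ℝ} (hκ : IsSt κ) (hs : Stat p κ)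
    {n R K : ℕ} {C D : ℝ} (hC : 0 ≤ C) (hD : 0 ≤ D) (hn : 2 * R < n) {u : Cyl Bool}
    (hu : Dep n u.1) (hi : Infl u.1 (fun x => D * prof p R K C x)) :
    |κ (Lop p n u)| ≤ D * er p R K C n := by
  have h3 : (0 : ℝ) < (n : ℝ) / 2 - R := by
    have : (2 * R : ℝ) < n := by exact_mod_cast hn
    linarith
  have hM := hp.M1_nonneg
  refine (stat_infl hp hκ hs hu hi (r := n / 2)
    (δ := D * (2 * M1 p * C * K / ((n : ℝ) / 2 - R))) (C := D * C)
    (by positivity) (by positivity)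
    (fun x => mul_le_mul_of_nonneg_left (prof_le p R K C x) hD)
    (fun x hx => mul_le_mul_of_nonneg_left (prof_near hp hC hn hx) hD)).trans (le_of_eq ?_)
  unfold er
  ring

lemma stat_Qj {p : ℤ → ℝ} (hp : Ker p) {κ : Cyl Bool →ₗ[ℝ] ℝ} (hκ : IsSt κ) (hs : Stat p κ)
    {n R K : ℕ} {C : ℝ} (hC : 0 ≤ C) (hn : 2 * R < n) {f : Cyl Bool} (hf : Dep R f.1)
    (hi : Infl f.1 (fun _ => C)) {j : ℕ} (hj : j ≤ K * (2 * n + 1)) :
    |κ (((Q p n) ^ j) f) - κ f| ≤ K * er p R K C n := by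
  have hc : (0 : ℝ) < 2 * (n : ℝ) + 1 := by positivity
  have her := er_nonneg hp (K := K) hC hn
  have hstep : ∀ i < j, |κ (((Q p n) ^ (i + 1)) f) - κ (((Q p n) ^ i) f)|
      ≤ (2 * (n : ℝ) + 1)⁻¹ * er p R K C n := by
    intro i hi'
    have h1 : ((Q p n) ^ (i + 1)) f - ((Q p n) ^ i) f
        = ((2 * (n : ℝ) + 1)⁻¹) • Lop p n (((Q p n) ^ i) f) := by
      rw [pow_succ', Module.End.mul_apply, Lop_eq, smul_smul, inv_mul_cancel₀ hc.ne', one_smul]
    rw [← map_sub, h1, map_smul, smul_eq_mul, abs_mul, abs_of_pos (inv_pos.2 hc)]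
    refine mul_le_mul_of_nonneg_left ?_ (inv_pos.2 hc).le
    have hd : Dep n (((Q p n) ^ i) f).1 := Qj_dep (hf.mono (by omega)) i
    have hinf : Infl (((Q p n) ^ i) f).1 (fun x => 1 * prof p R K C x) := by
      simp only [one_mul]
      apply Infl_prof hp hC hf hi
      have : i ≤ K * (2 * n + 1) := by omega
      exact_mod_cast this
    have := stat_prof hp hκ hs hC zero_le_one hn hd hinf
    rwa [one_mul] at this
  have htel : κ (((Q p n) ^ j) f) - κ f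
      = ∑ i ∈ Finset.range j, (κ (((Q p n) ^ (i + 1)) f) - κ (((Q p n) ^ i) f)) := by
    rw [Finset.sum_range_sub (fun i => κ (((Q p n) ^ i) f))]
    simp
  rw [htel]
  refine (Finset.abs_sum_le_sum_abs _ _).trans ?_
  calc ∑ i ∈ Finset.range j, |κ (((Q p n) ^ (i + 1)) f) - κ (((Q p n) ^ i) f)|
      ≤ ∑ i ∈ Finset.range j, (2 * (n : ℝ) + 1)⁻¹ * er p R K C n :=
        Finset.sum_le_sum (fun i hi' => hstep i (Finset.mem_range.1 hi'))
    _ = (j / (2 * (n : ℝ) + 1)) * er p R K C n := by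
        rw [Finset.sum_const, Finset.card_range, nsmul_eq_mul]
        ring
    _ ≤ K * er p R K C n := by
        refine mul_le_mul_of_nonneg_right ?_ her
        rw [div_le_iff₀ hc]
        exact_mod_cast hj

lemma stat_Ces {p : ℤ → ℝ} (hp : Ker p) {κ : Cyl Bool →ₗ[ℝ] ℝ} (hκ : IsSt κ) (hs : Stat p κ)
    {n R K : ℕ} (hK : 0 < K) {C : ℝ} (hC : 0 ≤ C) (hn : 2 * R < n) {f : Cyl Bool}
    (hf : Dep R f.1) (hi : Infl f.1 (fun _ => C)) :
    |κ (Ces p n (K * (2 * n + 1)) f) - κ f| ≤ K * er p R K C n := by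
  have hJ : 0 < K * (2 * n + 1) := by positivity
  have h1 : κ (Ces p n (K * (2 * n + 1)) f) = ((K * (2 * n + 1) : ℕ) : ℝ)⁻¹ *
      ∑ j ∈ Finset.range (K * (2 * n + 1)), κ (((Q p n) ^ j) f) := by
    rw [Ces_map, map_smul, map_sum, smul_eq_mul]
  have h2 : κ f = ((K * (2 * n + 1) : ℕ) : ℝ)⁻¹ *
      ∑ j ∈ Finset.range (K * (2 * n + 1)), κ f := by
    rw [Finset.sum_const, Finset.card_range, nsmul_eq_mul, ← mul_assoc, inv_mul_cancel₀, one_mul]
    exact_mod_cast hJ.ne'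
  rw [h1, h2]
  exact avg_abs_sub_le hJ (fun j hj => stat_Qj hp hκ hs hC hn hf hi hj.le)

/-- The basic energy estimate. -/
lemma energy {p : ℤ → ℝ} (hp : Ker p) {κ : Cyl Bool →ₗ[ℝ] ℝ} (hκ : IsSt κ) (hs : Stat p κ)
    {n R K : ℕ} (hK : 0 < K) (hn : 2 * R < n) {f : Cyl Bool} {F : ℝ}
    (hf : Dep R f.1) (hi : Infl f.1 (fun _ => 1)) (h0 : ∀ η, 0 ≤ f.1 η) (hF : ∀ η, f.1 η ≤ F) :
    ∑ x ∈ box n, ∑ y ∈ box n, p (y - x) *
      κ ((Tc x y (Ces p n (K * (2 * n + 1)) f) - Ces p n (K * (2 * n + 1)) f) ^ 2)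
      ≤ 2 * F ^ 2 / K + 2 * F * er p R K 1 n := by
  set u := Ces p n (K * (2 * n + 1)) f with hu
  have hJ : 0 < K * (2 * n + 1) := by positivity
  have hF0 : 0 ≤ F := (h0 (fun _ => false)).trans (hF _)
  have u0 : ∀ η, 0 ≤ u.1 η := Ces_ge hp h0 hJ
  have uF : ∀ η, u.1 η ≤ F := Ces_le hp hF hJ
  have hdu : Dep n u.1 := Ces_dep (hf.mono (by omega)) _
  have hiu : Infl u.1 (prof p R K 1) := Infl_Ces hp hK zero_le_one hf hi
  have hexp : ∀ x y : ℤ, (Tc x y u - u) ^ 2 = (Tc x y (u ^ 2) - u ^ 2)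
      - (2 : ℝ) • (u * (Tc x y u - u)) := by
    intro x y
    rw [map_pow]
    have : (2 : ℝ) • (u * (Tc x y u - u)) = 2 * (u * (Tc x y u - u)) := by
      rw [two_smul, two_mul]
    rw [this]
    ring
  have hsum : ∑ x ∈ box n, ∑ y ∈ box n, p (y - x) * κ ((Tc x y u - u) ^ 2)
      = κ (Lop p n (u ^ 2)) - 2 * κ (u * Lop p n u) := by
    rw [map_Lop, Lop_map, Finset.mul_sum, map_sum, Finset.mul_sum, ← Finset.sum_sub_distrib]
    refine Finset.sum_congr rfl (fun x _ => ?_)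
    rw [Finset.mul_sum, map_sum, Finset.mul_sum, ← Finset.sum_sub_distrib]
    refine Finset.sum_congr rfl (fun y _ => ?_)
    rw [hexp, map_sub, map_smul, mul_smul_comm, map_smul, smul_eq_mul, smul_eq_mul]
    ring
  rw [hsum]
  have hsq : Infl (u ^ 2).1 (fun x => (2 * F) * prof p R K 1 x) := by
    intro z η v
    have e : (u ^ 2).1 (Function.update η z v) - (u ^ 2).1 η
        = (u.1 (Function.update η z v) + u.1 η) * (u.1 (Function.update η z v) - u.1 η) := by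
      have e1 : ∀ ξ, (u ^ 2).1 ξ = (u.1 ξ) ^ 2 := fun ξ => rfl
      rw [e1, e1]; ring
    rw [e, abs_mul]
    refine mul_le_mul ?_ (hiu z η v) (abs_nonneg _) (by positivity)
    rw [abs_of_nonneg (add_nonneg (u0 _) (u0 _))]
    linarith [uF (Function.update η z v), uF η]
  have hdsq : Dep n (u ^ 2).1 := by
    intro η ζ h
    have e1 : ∀ ξ, (u ^ 2).1 ξ = (u.1 ξ) ^ 2 := fun ξ => rfl
    rw [e1, e1, hdu η ζ h]
  have hb1 := stat_prof hp hκ hs zero_le_one (by positivity : 0 ≤ 2 * F) hn hdsq hsq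
  have hb2 : -(2 * κ (u * Lop p n u)) ≤ 2 * F ^ 2 / K := by
    rw [hu, Lop_Ces, ← hu, mul_smul_comm, map_smul, smul_eq_mul]
    have hcJ : (2 * (n : ℝ) + 1) / ((K * (2 * n + 1) : ℕ) : ℝ) = 1 / K := by
      have h1 : (2 * (n : ℝ) + 1) ≠ 0 := by positivity
      have h2 : (K : ℝ) ≠ 0 := by exact_mod_cast hK.ne'
      push_cast
      field_simp
    rw [hcJ]
    have hlow : -(F ^ 2) ≤ κ (u * (((Q p n) ^ (K * (2 * n + 1))) f - f)) := by
      refine hκ.const_le (fun η => ?_)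
      have e : (u * (((Q p n) ^ (K * (2 * n + 1))) f - f)).1 η
          = u.1 η * ((((Q p n) ^ (K * (2 * n + 1))) f).1 η - f.1 η) := rfl
      rw [e]
      have a1 := Qj_ge hp (n := n) h0 (K * (2 * n + 1)) η
      have a2 := hF η
      have a3 := u0 η
      have a4 := uF η
      nlinarith
    have hKinv : (0 : ℝ) < 1 / K := by
      have : (0 : ℝ) < K := by exact_mod_cast hK
      positivity
    have := mul_le_mul_of_nonneg_left hlow hKinv.le
    have e2 : 2 * F ^ 2 / K = 2 * (1 / K * F ^ 2) := by ring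
    rw [e2]
    linarith
  have hb3 := (le_abs_self _).trans hb1
  linarith

end Helper78Excl
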