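import Pool.Agent.Helper78_Excl.Disc

set_option backward.isDefEq.respectTransparency false

namespace Helper78Excl

open Finset Filter Topology

/-- The data used in the analysis of discrepancies. -/
structure Setup (p : ℤ → ℝ) where
  hp : Ker p
  hpos : ∀ k : ℤ, 0 < k → 0 < p (-k)
  κ : Cyl Bool → ℝ
  hκ : κ ∈ (Inv Bool p).extremePoints ℝ
  ν : Cyl (Bool × Bool) → ℝ
  hν : ν ∈ (Coup p (lin κ hκ.1.1)).extremePoints ℝ
  nn : ℕ → ℕ
  hnn : ∀ j, 2 * j + 5 ≤ nn j
  hE : Tendsto (fun j => κ (EE j (nn j))) atTop (𝓝 0)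

namespace Setup

variable {p : ℤ → ℝ} (s : Setup p)

/-- the coupling as a linear map -/
def N : Cyl (Bool × Bool) →ₗ[ℝ] ℝ := lin s.ν s.hν.1.1.1
/-- the extreme state as a linear map -/
def k : Cyl Bool →ₗ[ℝ] ℝ := lin s.κ s.hκ.1.1

lemma N_st : IsSt s.N := lin_isSt s.ν s.hν.1.1.1
lemma k_st : IsSt s.k := lin_isSt s.κ s.hκ.1.1
lemma N_stat : Stat p s.N := Inv.stat s.hν.1.1
lemma k_stat : Stat p s.k := Inv.stat s.hκ.1
lemma N1 (f : Cyl Bool) : s.N (pull π1 π1_loc f) = s.k f := s.hν.1.2.1 f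
lemma N2 (f : Cyl Bool) : s.N (pull π2 π2_loc f) = s.k (pull (sh 1) (sh_loc 1) f) :=
  s.hν.1.2.2 f

lemma dc_bound (x : ℤ) : s.N (dc x) ≤ s.k (wrong x) + s.k (pull (sh 1) (sh_loc 1) (wrong x)) := by
  rw [← s.N1, ← s.N2, ← map_add]
  exact s.N_st.pos.mono (dc_le x)

lemma dc_bound_one (x : ℤ) : s.N (dc x) ≤ 1 := s.N_st.le_const (dc_le_one x)

lemma dc_n (x : ℤ) : 0 ≤ s.N (dc x) := s.N_st.pos _ (dc_nonneg x)

/-- the small quantity -/
noncomputable def e (j : ℕ) : ℝ := s.k (EE j (s.nn j))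

lemma e_nonneg (j : ℕ) : 0 ≤ s.e j := s.k_st.pos _ (EE_nonneg _ _)

lemma e_tendsto : Tendsto s.e atTop (𝓝 0) := s.hE

lemma wrong_small {j : ℕ} {z : ℤ} (h1 : (s.nn j : ℤ) - j - 1 ≤ |z|)
    (h2 : |z| ≤ s.nn j + j + 1) : s.k (wrong z) ≤ s.e j :=
  s.k_st.pos.mono (wrong_le_EE h1 h2)

lemma dc_small {j : ℕ} {z : ℤ} (h1 : (s.nn j : ℤ) - j ≤ |z|)
    (h2 : |z| ≤ s.nn j + j) : s.N (dc z) ≤ 2 * s.e j := by
  have hn := s.hnn j
  have hz : z ≠ 0 := by
    rintro rfl
    rw [abs_zero] at h1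
    omega
  have a1 := s.wrong_small (j := j) (z := z) (by omega) (by omega)
  have hz1 : |z + 1| ≤ |z| + 1 := by
    have := abs_add_le z 1
    simpa using this
  have hz2 : |z| ≤ |z + 1| + 1 := by
    have := abs_add_le (z + 1) (-1)
    simpa using this
  have a2 := s.wrong_small (j := j) (z := z + 1) (by omega) (by omega)
  have := s.dc_bound z
  rw [wrong_shift hz] at this
  linarith

lemma G_le_two (x y : ℤ) : s.N (dc x) + s.N (dc y) ≤ 2 := by
  linarith [s.dc_bound_one x, s.dc_bound_one y]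

lemma G_small {j : ℕ} {x y : ℤ} (hx : x ∈ box (s.nn j)) (hy : y ∉ box (s.nn j))
    (hxy : |y - x| ≤ j) : s.N (dc x) + s.N (dc y) ≤ 4 * s.e j := by
  rw [mem_box_abs] at hx hy
  have h1 : |y| ≤ |x| + |y - x| := by
    have := abs_add_le x (y - x)
    rwa [add_sub_cancel] at this
  have a1 := s.dc_small (j := j) (z := x) (by omega) (by omega)
  have a2 := s.dc_small (j := j) (z := y) (by omega) (by omega)
  linarith

/-- the total crossing error -/
noncomputable def E (j : ℕ) : ℝ := 2 * (M1 p * (4 * s.e j) + 2 * tl p j)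

lemma E_tendsto : Tendsto s.E atTop (𝓝 0) := by
  have h := (((s.e_tendsto.const_mul 4).const_mul (M1 p)).add
    (s.hp.tl_tendsto.const_mul 2)).const_mul 2
  simp only [mul_zero, add_zero] at h
  exact h

lemma op_zero_of_pos {x y : ℤ} (hpxy : 0 < p (y - x)) : s.N (op x y) = 0 := by
  have key : ∀ᶠ j in atTop, 2 * (p (y - x) * s.N (op x y)) ≤ s.E j := by
    filter_upwards [eventually_ge_atTop (max x.natAbs y.natAbs)] with j hj
    have hnj := s.hnn j
    have hx : x ∈ box (s.nn j) := by rw [mem_box]; omega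
    have hy : y ∈ box (s.nn j) := by rw [mem_box]; omega
    have h1 := stat_err s.hp s.N_st.pos s.N_stat (hn_dep (s.nn j))
      (G := fun x y => s.N (dc x) + s.N (dc y)) (δ := 4 * s.e j) (C := 2) (r := j)
      (by have := s.e_nonneg j; positivity) (by norm_num)
      (fun x hx y hy => by
        rw [← map_add]; exact s.N_st.pos.abs_le (hn_T_out hx hy))
      (fun x hx y hy => by
        rw [← map_add]; exact s.N_st.pos.abs_le (hn_T_out' hx hy))
      (fun x _ y _ => s.G_le_two x y)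
      (fun x hx y hy hxy => s.G_small hx hy hxy)
    rw [map_Lop] at h1
    have h2 : ∑ x ∈ box (s.nn j), ∑ y ∈ box (s.nn j),
        p (y - x) * s.N (Tc x y (hn (s.nn j)) - hn (s.nn j))
        = -(2 * ∑ x ∈ box (s.nn j), ∑ y ∈ box (s.nn j), p (y - x) * s.N (op x y)) := by
      rw [Finset.mul_sum, ← Finset.sum_neg_distrib]
      refine Finset.sum_congr rfl (fun a ha => ?_)
      rw [Finset.mul_sum, ← Finset.sum_neg_distrib]
      refine Finset.sum_congr rfl (fun b hb => ?_)
      rw [hn_T_in ha hb, map_smul, smul_eq_mul]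
      ring
    rw [h2, abs_neg] at h1
    have hnn' : ∀ a b : ℤ, 0 ≤ p (b - a) * s.N (op a b) := fun a b =>
      mul_nonneg (s.hp.nonneg _) (s.N_st.pos _ (op_nonneg a b))
    have h3 : p (y - x) * s.N (op x y)
        ≤ ∑ x ∈ box (s.nn j), ∑ y ∈ box (s.nn j), p (y - x) * s.N (op x y) := by
      refine le_trans ?_ (Finset.single_le_sum
        (f := fun a => ∑ b ∈ box (s.nn j), p (b - a) * s.N (op a b))
        (fun a _ => Finset.sum_nonneg (fun b _ => hnn' a b)) hx)
      exact Finset.single_le_sum (f := fun b => p (b - x) * s.N (op x b))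
        (fun b _ => hnn' x b) hy
    have h4 := (le_abs_self _).trans h1
    unfold E
    linarith
  have h5 : 2 * (p (y - x) * s.N (op x y)) ≤ 0 := ge_of_tendsto s.E_tendsto key
  have h6 := s.N_st.pos _ (op_nonneg x y)
  nlinarith

lemma op_comm (x y : ℤ) : op x y = op y x := by
  unfold op
  rw [add_comm, mul_comm (dm x), mul_comm (dp x)]

lemma op_zero (x y : ℤ) : s.N (op x y) = 0 := by
  rcases lt_trichotomy x y with h | h | h
  · rw [op_comm]
    apply s.op_zero_of_pos
    have := s.hpos (y - x) (by omega)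
    rwa [neg_sub] at this
  · subst h
    have : op x x = 0 := by
      apply Cyl.ext'; intro η
      rw [op_apply]
      change _ = (0 : ℝ)
      generalize η x = a
      rcases a with ⟨a1, a2⟩
      cases a1 <;> cases a2 <;> norm_num
    rw [this, map_zero]
  · apply s.op_zero_of_pos
    have := s.hpos (x - y) (by omega)
    rwa [neg_sub] at this

/-- The zero-one law for the number of discrepancies of a given type. -/
lemma zero_one {t : Bool × Bool} (ht : IsDisc t) (m : ℕ) :
    (∀ n, s.N (chi t n m) = 0) ∨ (∀ ε : ℝ, 0 < ε → ∃ n, 1 - ε < s.N (chi t n m)) := by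
  set U : Ultrafilter ℕ := Filter.hyperfilter ℕ with hU
  have hUle : (U : Filter ℕ) ≤ atTop := Nat.hyperfilter_le_atTop
  set Φ : ℕ → (Cyl (Bool × Bool) →ₗ[ℝ] ℝ) := fun j =>
    s.N ∘ₗ (LinearMap.mulLeft ℝ (chi t (s.nn j) m)) with hΦ
  have hΦa : ∀ j f, Φ j f = s.N (chi t (s.nn j) m * f) := fun j f => rfl
  have hpos : ∀ j, Pos (Φ j) := by
    intro j f hf
    rw [hΦa]
    exact s.N_st.pos _ (fun η => mul_nonneg (chi_nonneg _ _ _ η) (hf η))
  have hone : ∀ j, Φ j 1 ≤ 1 := by
    intro j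
    rw [hΦa, mul_one]
    exact s.N_st.le_const (chi_le_one _ _ _)
  obtain ⟨ω, hωpos, hω⟩ := exists_ulim U Φ hpos hone
  have hωle : Pos (s.N - ω) := by
    intro f hf
    rw [LinearMap.sub_apply]
    refine sub_nonneg.2 (le_of_tendsto (hω f) (Eventually.of_forall (fun j => ?_)))
    rw [hΦa]
    refine s.N_st.pos.mono (fun η => ?_)
    change (chi t (s.nn j) m).1 η * f.1 η ≤ f.1 η
    have := chi_le_one t (s.nn j) m η
    have := hf η
    nlinarith
  have hstat : Stat p ω := by
    intro f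
    have h1 := defect_limit s.hp U hpos hone hω f
    have h2 : ∀ j, ‖∑' xy : ℤ × ℤ, p (xy.2 - xy.1) * Φ j (Tc xy.1 xy.2 f - f)‖
        ≤ bd f * s.E j := by
      intro j
      set χ := chi t (s.nn j) m with hχ
      have hs0 := s.N_stat (χ * f)
      have hsum1 := stat_summable s.hp s.N_st.pos (χ * f)
      have hsum2 := stat_summable s.hp (hpos j) f
      have hid : ∀ x y : ℤ, s.N (Tc x y f * (Tc x y χ - χ))
          = s.N (Tc x y (χ * f) - χ * f) - Φ j (Tc x y f - f) := by
        intro x y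
        rw [hΦa, ← map_sub]
        congr 1
        rw [map_mul]
        ring
      have hsum3 : Summable (fun xy : ℤ × ℤ =>
          p (xy.2 - xy.1) * s.N (Tc xy.1 xy.2 f * (Tc xy.1 xy.2 χ - χ))) := by
        refine (hsum1.sub hsum2).congr (fun xy => ?_)
        rw [hid]; ring
      have htot : ∑' xy : ℤ × ℤ, p (xy.2 - xy.1) * Φ j (Tc xy.1 xy.2 f - f)
          = - ∑' xy : ℤ × ℤ,
            p (xy.2 - xy.1) * s.N (Tc xy.1 xy.2 f * (Tc xy.1 xy.2 χ - χ)) := by
        have e1 : ∑' xy : ℤ × ℤ,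
            p (xy.2 - xy.1) * s.N (Tc xy.1 xy.2 f * (Tc xy.1 xy.2 χ - χ))
            = ∑' xy : ℤ × ℤ, p (xy.2 - xy.1) * s.N (Tc xy.1 xy.2 (χ * f) - χ * f)
              - ∑' xy : ℤ × ℤ, p (xy.2 - xy.1) * Φ j (Tc xy.1 xy.2 f - f) := by
          rw [← hsum1.tsum_sub hsum2]
          refine tsum_congr (fun xy => ?_)
          rw [hid]; ring
        rw [e1, hs0]
        ring
      have hb := bd_nonneg f
      have hmulbound : ∀ (x y : ℤ) (g : Cyl (Bool × Bool)),
          (∀ η, |(Tc x y χ - χ).1 η| ≤ g.1 η) →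
          |s.N (Tc x y f * (Tc x y χ - χ))| ≤ bd f * s.N g := by
        intro x y g hg
        have := s.N_st.pos.abs_le (f := Tc x y f * (Tc x y χ - χ)) (g := bd f • g) (fun η => by
          change |(Tc x y f).1 η * (Tc x y χ - χ).1 η| ≤ bd f * g.1 η
          rw [abs_mul]
          exact mul_le_mul (abs_le_bd f _) (hg η) (abs_nonneg _) hb)
        rwa [map_smul, smul_eq_mul] at this
      have hcr := cross_tsum s.hp (n := s.nn j) (r := j)
        (a := fun x y => s.N (Tc x y f * (Tc x y χ - χ)))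
        (G := fun x y => bd f * (s.N (dc x) + s.N (dc y)))
        (δ := bd f * (4 * s.e j)) (C := bd f * 2)
        (by have := s.e_nonneg j; positivity) (by positivity) hsum3
        (fun x hx y hy => by
          have := hmulbound x y (op x y) (fun η => chi_T_in ht m hx hy η)
          rw [s.op_zero, mul_zero] at this
          exact abs_eq_zero.1 (le_antisymm this (abs_nonneg _)))
        (fun x hx y hy => by
          rw [Tc_out (chi_dep t (s.nn j) m) hx hy, sub_self, mul_zero, map_zero])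
        (fun x hx y hy => by
          rw [← map_add]
          exact hmulbound x y (dc x + dc y) (fun η => chi_T_out ht m hx hy η))
        (fun x hx y hy => by
          rw [← map_add]
          exact hmulbound y x (dc x + dc y) (fun η => chi_T_out' ht m hx hy η))
        (fun x _ y _ => mul_le_mul_of_nonneg_left (s.G_le_two x y) hb)
        (fun x hx y hy hxy => mul_le_mul_of_nonneg_left (s.G_small hx hy hxy) hb)
      rw [htot, norm_neg, Real.norm_eq_abs]
      refine hcr.trans (le_of_eq ?_)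
      unfold E
      ring
    have h3 : Tendsto (fun j => ∑' xy : ℤ × ℤ, p (xy.2 - xy.1) * Φ j (Tc xy.1 xy.2 f - f)) atTop
        (𝓝 0) := by
      rw [tendsto_zero_iff_norm_tendsto_zero]
      have h4 := s.E_tendsto.const_mul (bd f)
      rw [mul_zero] at h4
      exact squeeze_zero (fun k => norm_nonneg _) h2 h4
    exact tendsto_nhds_unique h1 (h3.mono_left hUle)
  have hdom := domination s.hp s.hκ s.hν hωpos hωle hstat
  have hfix : ∀ n, ω (chi t n m) = s.N (chi t n m) := by
    intro n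
    refine tendsto_nhds_unique (hω _) ?_
    refine (tendsto_const_nhds (x := s.N (chi t n m))).congr' ?_
    refine hUle ?_
    filter_upwards [eventually_ge_atTop n] with j hj
    rw [hΦa]
    congr 1
    apply Cyl.ext'
    intro η
    change (chi t n m).1 η = (chi t (s.nn j) m).1 η * (chi t n m).1 η
    rw [chi_apply, chi_apply]
    have hn := s.hnn j
    have hmono := cnt_mono t (show n ≤ s.nn j by omega) η
    by_cases h : m ≤ cnt t n η
    · rw [if_pos h, if_pos (h.trans hmono), mul_one]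
    · rw [if_neg h, mul_zero]
  by_cases hall : ∀ n, s.N (chi t n m) = 0
  · exact Or.inl hall
  · right
    push Not at hall
    obtain ⟨n, hn⟩ := hall
    have h1 := hdom (chi t n m)
    rw [hfix] at h1
    have h2 : ω 1 = 1 := by
      have h3 : s.N (chi t n m) = s.ν (chi t n m) := rfl
      rw [h3] at h1 hn
      exact mul_right_cancel₀ hn (by rw [one_mul]; exact h1.symm)
    intro ε hε
    have h4 : Tendsto (fun j => s.N (chi t (s.nn j) m)) U (𝓝 1) := by
      rw [← h2]
      refine (hω 1).congr (fun j => ?_)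
      rw [hΦa, mul_one]
    have h5 := h4.eventually (lt_mem_nhds (show 1 - ε < 1 by linarith))
    obtain ⟨j, hj⟩ := h5.exists
    exact ⟨s.nn j, hj⟩

/-- the density profile -/
noncomputable def ρ (x : ℤ) : ℝ := s.k (occ x)

lemma ρ_nonneg (x : ℤ) : 0 ≤ s.ρ x := s.k_st.pos _ (fun η => by
  rw [occ_apply]; split_ifs <;> norm_num)

lemma ρ_le_one (x : ℤ) : s.ρ x ≤ 1 := s.k_st.le_const (fun η => by
  rw [occ_apply]; split_ifs <;> norm_num)

lemma dp_sub_dm (x : ℤ) : s.N (dp x) - s.N (dm x) = s.ρ (x + 1) - s.ρ x := by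
  have h1 : s.ρ (x + 1) = s.N (pull π2 π2_loc (occ x)) := by
    rw [s.N2]
    rfl
  have h2 : s.ρ x = s.N (pull π1 π1_loc (occ x)) := by
    rw [s.N1]
    rfl
  rw [h1, h2, ← map_sub, ← map_sub]
  congr 1
  apply Cyl.ext'; intro η
  change (if η x = (false, true) then (1 : ℝ) else 0) - (if η x = (true, false) then (1 : ℝ) else 0)
    = (if (η x).2 = true then (1 : ℝ) else 0) - (if (η x).1 = true then (1 : ℝ) else 0)
  generalize η x = a
  rcases a with ⟨a1, a2⟩
  cases a1 <;> cases a2 <;> norm_num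

lemma sum_tele (n : ℕ) : ∑ x ∈ box n, (s.ρ (x + 1) - s.ρ x) = s.ρ (n + 1) - s.ρ (-n) := by
  have h : ∀ (k : ℕ), ∑ x ∈ Finset.Ico (-(n : ℤ)) (-n + k), (s.ρ (x + 1) - s.ρ x)
      = s.ρ (-n + k) - s.ρ (-n) := by
    intro k
    induction k with
    | zero => simp
    | succ k ih =>
      have : Finset.Ico (-(n : ℤ)) (-n + (k + 1 : ℕ))
          = insert (-(n : ℤ) + k) (Finset.Ico (-(n : ℤ)) (-n + k)) := by
        ext z
        simp only [Finset.mem_insert, Finset.mem_Ico]
        push_cast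
        omega
      rw [this, Finset.sum_insert (by simp), ih]
      push_cast
      rw [add_assoc (-(n : ℤ))]
      ring
  have h2 : box n = Finset.Ico (-(n : ℤ)) (-n + (2 * n + 1 : ℕ)) := by
    ext z
    rw [mem_box, Finset.mem_Ico]
    push_cast
    omega
  rw [h2, h]
  congr 2
  push_cast
  ring

lemma dp_nonneg (x : ℤ) (η : ℤ → Bool × Bool) : 0 ≤ (dp x).1 η := by
  unfold dp; rw [site_apply]; split_ifs <;> norm_num
lemma dm_nonneg (x : ℤ) (η : ℤ → Bool × Bool) : 0 ≤ (dm x).1 η := by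
  unfold dm; rw [site_apply]; split_ifs <;> norm_num

lemma ρ_low (j : ℕ) : s.ρ (-(s.nn j : ℤ)) ≤ s.e j := by
  have := s.wrong_small (j := j) (z := -(s.nn j : ℤ)) (by rw [abs_neg, Nat.abs_cast]; omega)
    (by rw [abs_neg, Nat.abs_cast]; omega)
  refine le_trans (le_of_eq ?_) this
  unfold ρ
  congr 1
  unfold occ wrong
  congr 1
  have : decide (-(s.nn j : ℤ) ≤ 0) = true := by simp
  rw [this]

lemma ρ_high (j : ℕ) : 1 - s.e j ≤ s.ρ ((s.nn j : ℤ) + 1) := by
  have habs : |(s.nn j : ℤ) + 1| = s.nn j + 1 := abs_of_nonneg (by positivity)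
  have := s.wrong_small (j := j) (z := (s.nn j : ℤ) + 1) (by rw [habs]; omega)
    (by rw [habs]; omega)
  have h2 : s.k (wrong ((s.nn j : ℤ) + 1)) = 1 - s.ρ ((s.nn j : ℤ) + 1) := by
    unfold ρ
    rw [← s.k_st.one, ← map_sub]
    congr 1
    apply Cyl.ext'; intro η
    rw [wrong_apply]
    change _ = 1 - (if η ((s.nn j : ℤ) + 1) = true then (1 : ℝ) else 0)
    have : decide ((s.nn j : ℤ) + 1 ≤ 0) = false := by
      rw [decide_eq_false_iff_not]; omega
    rw [this]
    cases η ((s.nn j : ℤ) + 1) <;> norm_num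
  linarith

lemma dp_le_chi {x : ℤ} {n : ℕ} (hx : x ∈ box n) (η : ℤ → Bool × Bool) :
    (dp x).1 η ≤ (chi (false, true) n 1).1 η := by
  rw [chi_apply]
  unfold dp
  rw [site_apply]
  by_cases h : η x = (false, true)
  · rw [if_pos h, if_pos]
    exact Finset.card_pos.2 ⟨x, Finset.mem_filter.2 ⟨hx, h⟩⟩
  · rw [if_neg h]
    split_ifs <;> norm_num

lemma dpdp_le_chi {x y : ℤ} {n : ℕ} (hx : x ∈ box n) (hy : y ∈ box n) (hxy : x ≠ y)
    (η : ℤ → Bool × Bool) : (dp x * dp y).1 η ≤ (chi (false, true) n 2).1 η := by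
  rw [chi_apply]
  change (if η x = (false, true) then (1 : ℝ) else 0) * (if η y = (false, true) then (1 : ℝ) else 0)
    ≤ _
  by_cases h : η x = (false, true)
  · by_cases h' : η y = (false, true)
    · rw [if_pos h, if_pos h', if_pos, mul_one]
      have : ({x, y} : Finset ℤ) ⊆ (box n).filter (fun z => η z = (false, true)) := by
        intro z hz
        rw [Finset.mem_insert, Finset.mem_singleton] at hz
        rcases hz with rfl | rfl
        · exact Finset.mem_filter.2 ⟨hx, h⟩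
        · exact Finset.mem_filter.2 ⟨hy, h'⟩
      have h2 := Finset.card_le_card this
      rwa [Finset.card_pair hxy] at h2
    · rw [if_neg h', mul_zero]
      split_ifs <;> norm_num
  · rw [if_neg h, zero_mul]
    split_ifs <;> norm_num

lemma dm_chi_le {y : ℤ} {n : ℕ} (η : ℤ → Bool × Bool) :
    (dm y * chi (false, true) n 1).1 η ≤ (∑ x ∈ box n, op x y).1 η := by
  rw [coe_sum_apply]
  change (dm y).1 η * (chi (false, true) n 1).1 η ≤ _
  rw [chi_apply]
  by_cases h : 1 ≤ cnt (false, true) n η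
  · rw [if_pos h, mul_one]
    obtain ⟨x, hx⟩ := Finset.card_pos.1 (show 0 < cnt (false, true) n η by omega)
    rw [Finset.mem_filter] at hx
    refine le_trans ?_ (Finset.single_le_sum (f := fun x => (op x y).1 η)
      (fun x _ => op_nonneg x y η) hx.1)
    rw [op_apply, hx.2]
    unfold dm
    rw [site_apply]
    simp
  · rw [if_neg h, mul_zero]
    exact Finset.sum_nonneg (fun x _ => op_nonneg x y η)

lemma chi2_le (n : ℕ) (η : ℤ → Bool × Bool) :
    ((2 : ℝ) • chi (false, true) n 2).1 η ≤ (∑ x ∈ box n, dp x).1 η := by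
  rw [coe_sum_apply]
  change 2 * (chi (false, true) n 2).1 η ≤ ∑ x ∈ box n, gi (false, true) (η x)
  rw [← cnt_eq, chi_apply]
  split_ifs with h
  · rw [mul_one]; exact_mod_cast h
  · rw [mul_zero]; positivity

/-- There is almost surely a plus discrepancy. -/
lemma some_plus (ε : ℝ) (hε : 0 < ε) : ∃ n, 1 - ε < s.N (chi (false, true) n 1) := by
  rcases s.zero_one (t := (false, true)) (Or.inl rfl) 1 with h | h
  · exfalso
    have hz : ∀ x, s.N (dp x) = 0 := by
      intro x
      obtain ⟨n, hn⟩ := exists_box x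
      have := s.N_st.pos.mono (dp_le_chi hn)
      rw [h n] at this
      exact le_antisymm this (s.N_st.pos _ (dp_nonneg x))
    have hle : ∀ n : ℕ, s.ρ (n + 1) - s.ρ (-n) ≤ 0 := by
      intro n
      rw [← s.sum_tele]
      refine Finset.sum_nonpos (fun x _ => ?_)
      rw [← s.dp_sub_dm, hz x]
      have := s.N_st.pos _ (dm_nonneg x)
      linarith
    have h1 : ∀ j, 1 - 2 * s.e j ≤ 0 := by
      intro j
      have := hle (s.nn j)
      have := s.ρ_low j
      have := s.ρ_high j
      linarith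
    have h2 := s.e_tendsto.eventually (gt_mem_nhds (show (0 : ℝ) < 1 / 4 by norm_num))
    obtain ⟨j, hj⟩ := h2.exists
    have := h1 j
    linarith
  · exact h ε hε

/-- No minus discrepancies. -/
lemma dm_zero (y : ℤ) : s.N (dm y) = 0 := by
  refine le_antisymm ?_ (s.N_st.pos _ (dm_nonneg y))
  refine le_of_forall_pos_le_add (fun ε hε => ?_)
  rw [zero_add]
  obtain ⟨n, hn⟩ := s.some_plus ε hε
  have h1 : s.N (dm y * chi (false, true) n 1) ≤ 0 := by
    have := s.N_st.pos.mono (dm_chi_le (y := y) (n := n))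
    rw [map_sum] at this
    simpa [s.op_zero] using this
  have h2 : s.N (dm y) ≤ s.N (dm y * chi (false, true) n 1) + s.N (1 - chi (false, true) n 1) := by
    rw [← map_add]
    refine s.N_st.pos.mono (fun η => ?_)
    change (dm y).1 η ≤ (dm y).1 η * (chi (false, true) n 1).1 η +
      (1 - (chi (false, true) n 1).1 η)
    have a1 : (dm y).1 η ≤ 1 := by
      unfold dm; rw [site_apply]; split_ifs <;> norm_num
    have a2 := chi_le_one (false, true) n 1 η
    have a3 := dm_nonneg y η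
    nlinarith
  rw [map_sub, s.N_st.one] at h2
  linarith

lemma dp_eq (x : ℤ) : s.N (dp x) = s.ρ (x + 1) - s.ρ x := by
  have := s.dp_sub_dm x
  rw [s.dm_zero, sub_zero] at this
  exact this

lemma sum_dp (n : ℕ) : ∑ x ∈ box n, s.N (dp x) = s.ρ (n + 1) - s.ρ (-n) := by
  rw [← s.sum_tele]
  exact Finset.sum_congr rfl (fun x _ => s.dp_eq x)

/-- At most one plus discrepancy. -/
lemma dpdp_zero {x y : ℤ} (hxy : x ≠ y) : s.N (dp x * dp y) = 0 := by
  have h2 : ∀ n, s.N (chi (false, true) n 2) = 0 := by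
    rcases s.zero_one (t := (false, true)) (Or.inl rfl) 2 with h | h
    · exact h
    · exfalso
      obtain ⟨n, hn⟩ := h (1 / 4) (by norm_num)
      have h1 := s.N_st.pos.mono (chi2_le n)
      rw [map_smul, smul_eq_mul, map_sum, s.sum_dp] at h1
      have := s.ρ_le_one (n + 1)
      have := s.ρ_nonneg (-n)
      linarith
  obtain ⟨n, hn⟩ := exists_box x
  obtain ⟨m, hm⟩ := exists_box y
  refine le_antisymm ?_ (s.N_st.pos _ (fun η => mul_nonneg (dp_nonneg x η) (dp_nonneg y η)))
  rw [← h2 (max n m)]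
  exact s.N_st.pos.mono (dpdp_le_chi (box_mono (le_max_left _ _) hn)
    (box_mono (le_max_right _ _) hm) hxy)

lemma ρ_step (x : ℤ) : s.ρ x ≤ s.ρ (x + 1) := by
  have := s.dp_eq x
  have := s.N_st.pos _ (dp_nonneg x)
  linarith

lemma ρ_mono : Monotone s.ρ := monotone_int_of_le_succ s.ρ_step

lemma ρ_bot {ε : ℝ} (hε : 0 < ε) : ∃ n : ℕ, ∀ x : ℤ, x ≤ -n → s.ρ x < ε := by
  obtain ⟨j, hj⟩ := (s.e_tendsto.eventually (gt_mem_nhds hε)).exists
  exact ⟨s.nn j, fun x hx => (s.ρ_mono hx).trans_lt ((s.ρ_low j).trans_lt hj)⟩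

lemma ρ_top {ε : ℝ} (hε : 0 < ε) : ∃ n : ℕ, ∀ x : ℤ, (n : ℤ) ≤ x → 1 - ε < s.ρ x := by
  obtain ⟨j, hj⟩ := (s.e_tendsto.eventually (gt_mem_nhds hε)).exists
  refine ⟨s.nn j + 1, fun x hx => ?_⟩
  have h1 := s.ρ_mono hx
  have h2 := s.ρ_high j
  push_cast at h1
  linarith

end Setup

end Helper78Excl
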